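import Pool.Agent.Lib.MP_be0380_co.T5.Defs
import Pool.Agent.Lib.MP_be0380_co.G.Cond

/-!
# be0380, module T5.Coa = (5.3), the coarse partition

x in G_1, card X <= h := B^360 D, X = X(7/10)(x). F = join over c in X of the partitions of the l by the arc of th_(c-x)(l):
main arc |th| < pi/8, and 9 further arcs of length pi/4.
P(not main) <= 32 E u_(c-x) <= 45 L (E u_(c-x) <= 2 L t_x(c): Lev.dist_sq_le).
Entropy of a partition into one class of probability 1 - q' (q' <= 45 L) and <= 9 others (Gibbs' inequality with weights 1 - 9 L, L, ..., L):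
<= 18 L + 45 L log(1/L) <= 108 L^(1/2). Sum over the c in X (cent_inf): cost F <= h 108 L^(1/2) <= D/B^30000 (L <= 1/B^34000000000).
-/

set_option autoImplicit false

open Finset

namespace Pool.MPbe0380.Gb

section gen

variable {Ω : Type} [Fintype Ω] (w : Ω → ℝ)

open Classical in
private theorem Coa_cprob {n : ℕ} (g : Ω → Fin n) (l : Ω) :
    cprob w (Setoid.ker g) l = ∑ l', if g l' = g l then w l' else 0 := by
  unfold cprob csum
  rw [sum_filter]
  refine sum_congr rfl fun l' _ => ?_
  have h : (Setoid.ker g).r l' l ↔ g l' = g l := Iff.rfl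
  by_cases h1 : g l' = g l
  · rw [if_pos (h.mpr h1), if_pos h1, mul_one]
  · rw [if_neg (fun h2 => h1 (h.mp h2)), if_neg h1]

/-- Gibbs' inequality for the entropy of a labelling -/
private theorem Coa_gibbs (hw : ∀ l, 0 < w l) (hw1 : ∑ l, w l = 1) {n : ℕ} (g : Ω → Fin n)
    (Q : Fin n → ℝ) (hQ : ∀ a, 0 < Q a) (hQ1 : ∑ a, Q a ≤ 1) :
    cent w (Setoid.ker g) ≤ - ∑ l, w l * Real.log (Q (g l)) := by
  classical
  set P : Fin n → ℝ := fun a => ∑ l', if g l' = a then w l' else 0 with hP
  have hPg : ∀ l, cprob w (Setoid.ker g) l = P (g l) := fun l => Coa_cprob w g l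
  have hPpos : ∀ l, 0 < P (g l) := by
    intro l
    have h1 : w l ≤ P (g l) := by
      have h := single_le_sum (f := fun l' => if g l' = g l then w l' else 0)
        (fun i _ => by
          show (0 : ℝ) ≤ if g i = g l then w i else 0
          split_ifs
          · exact (hw i).le
          · exact le_rfl) (mem_univ l)
      beta_reduce at h
      rw [if_pos rfl] at h
      exact h
    exact lt_of_lt_of_le (hw l) h1
  have key : ∀ l, w l * Real.log (Q (g l)) - w l * Real.log (cprob w (Setoid.ker g) l) ≤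
      w l * (Q (g l) / P (g l)) - w l := by
    intro l
    have h1 : Real.log (Q (g l) / P (g l)) ≤ Q (g l) / P (g l) - 1 :=
      Real.log_le_sub_one_of_pos (div_pos (hQ _) (hPpos l))
    rw [Real.log_div (hQ _).ne' (hPpos l).ne'] at h1
    rw [hPg l]
    have h2 := mul_le_mul_of_nonneg_left h1 (hw l).le
    linarith
  have hsum : ∑ l, w l * (Q (g l) / P (g l)) ≤ 1 := by
    have e1 : ∀ l, w l * (Q (g l) / P (g l)) =
        ∑ a, if g l = a then w l * (Q a / P a) else 0 := by
      intro l
      rw [sum_ite_eq univ (g l)]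
      simp
    calc ∑ l, w l * (Q (g l) / P (g l))
        = ∑ a, ∑ l, (if g l = a then w l * (Q a / P a) else 0) := by
          rw [sum_comm]
          exact sum_congr rfl fun l _ => e1 l
      _ ≤ ∑ a, Q a := by
          refine sum_le_sum fun a _ => ?_
          have h3 : ∀ l, (if g l = a then w l * (Q a / P a) else 0) =
              (if g l = a then w l else 0) * (Q a / P a) := by
            intro l
            split_ifs
            · rfl
            · rw [zero_mul]
          simp only [h3]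
          rw [← sum_mul]
          have h4 : ∑ i, (if g i = a then w i else 0) = P a := rfl
          rw [h4]
          rcases eq_or_ne (P a) 0 with h5 | h5
          · rw [h5, zero_mul]; exact (hQ a).le
          · rw [mul_div_cancel₀ _ h5]
      _ ≤ 1 := hQ1
  have h := sum_le_sum fun l (_ : l ∈ (univ : Finset Ω)) => key l
  rw [sum_sub_distrib, sum_sub_distrib, hw1] at h
  unfold cent
  linarith

/-- one class of large probability and nine others -/
private theorem Coa_ten (hw : ∀ l, 0 < w l) (hw1 : ∑ l, w l = 1) (g : Ω → Fin 10) {L : ℝ} (hL : 0 < L)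
    (hL1 : L ≤ 1 / 10 ^ 8)
    (hq : ∑ l, w l * (if g l = 0 then 0 else 1) ≤ 45 * L) :
    cent w (Setoid.ker g) ≤ 108 * √L := by
  set Q : Fin 10 → ℝ := fun a => if a = 0 then 1 - 9 * L else L with hQ
  have hL2 : L ≤ 1 / 100 := le_trans hL1 (by norm_num)
  have h1 := Coa_gibbs w hw hw1 g Q (by
    intro a
    simp only [hQ]
    split_ifs <;> linarith) (by
    simp only [hQ, Fin.sum_univ_succ]
    simp
    linarith)
  refine h1.trans ?_
  have h2 : ∀ l, - (w l * Real.log (Q (g l))) ≤ w l * (18 * L) + w l * (if g l = 0 then 0 else 1) * (2 / √L) := by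
    intro l
    simp only [hQ]
    split_ifs with h
    · have h3 : 1 - (1 - 9 * L)⁻¹ ≤ Real.log (1 - 9 * L) := Real.one_sub_inv_le_log_of_pos (by linarith)
      have h4 : (1 - 9 * L)⁻¹ ≤ 1 + 18 * L := by
        rw [inv_le_iff_one_le_mul₀ (by linarith)]
        nlinarith
      have h5 : - Real.log (1 - 9 * L) ≤ 18 * L := by linarith
      have h6 := mul_le_mul_of_nonneg_left h5 (hw l).le
      linarith
    · have hs : 0 < √L := Real.sqrt_pos.mpr hL
      have h3 : Real.log (√L)⁻¹ ≤ (√L)⁻¹ - 1 := Real.log_le_sub_one_of_pos (inv_pos.mpr hs)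
      rw [Real.log_inv, Real.log_sqrt hL.le] at h3
      have h5 : - Real.log L ≤ 2 / √L := by
        rw [div_eq_mul_inv]
        linarith
      have h6 := mul_le_mul_of_nonneg_left h5 (hw l).le
      have h7 : 0 ≤ w l * (18 * L) := mul_nonneg (hw l).le (by linarith)
      linarith
  calc - ∑ l, w l * Real.log (Q (g l)) = ∑ l, - (w l * Real.log (Q (g l))) := by rw [sum_neg_distrib]
    _ ≤ ∑ l, (w l * (18 * L) + w l * (if g l = 0 then 0 else 1) * (2 / √L)) := sum_le_sum fun l _ => h2 l
    _ = 18 * L + (∑ l, w l * (if g l = 0 then 0 else 1)) * (2 / √L) := by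
        rw [sum_add_distrib, ← sum_mul, ← sum_mul, hw1, one_mul]
    _ ≤ 18 * L + 45 * L * (2 / √L) := by
        have : 0 ≤ 2 / √L := by positivity
        have := mul_le_mul_of_nonneg_right hq this
        linarith
    _ ≤ 108 * √L := by
        have hs : 0 < √L := Real.sqrt_pos.mpr hL
        have h3 : √L * √L = L := Real.mul_self_sqrt hL.le
        have h4 : L * (2 / √L) = 2 * √L := by
          rw [mul_div_assoc', div_eq_iff hs.ne']
          linarith
        have h6 : √L ≤ 1 := Real.sqrt_le_iff.mpr ⟨by norm_num, by linarith⟩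
        have h5 : L ≤ √L := by nlinarith
        have h7 : 45 * L * (2 / √L) = 90 * √L := by
          calc 45 * L * (2 / √L) = 45 * (L * (2 / √L)) := by ring
            _ = 90 * √L := by rw [h4]; ring
        rw [h7]
        linarith

end gen

variable {p : ℕ} [Fact p.Prime]

private theorem Coa_th_mem (a l : ZMod p) : - Real.pi < th a l ∧ th a l ≤ Real.pi := by
  have h := Complex.arg_mem_Ioc (z a l)
  exact ⟨h.1, h.2⟩

private theorem Coa_lt (a l : ZMod p) : 1 + ⌊(th a l + Real.pi) * (4 / Real.pi)⌋₊ < 10 := by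
  have hpi := Real.pi_pos
  have h := Coa_th_mem a l
  have h1 : ⌊(th a l + Real.pi) * (4 / Real.pi)⌋₊ ≤ 8 := by
    apply Nat.floor_le_of_le
    push_cast
    rw [mul_div_assoc', div_le_iff₀ hpi]
    nlinarith [h.2]
  omega

open Classical in
/-- the label of `l` -/
private noncomputable def Coa_lab (a l : ZMod p) : Fin 10 :=
  if |th a l| < Real.pi / 8 then 0 else ⟨1 + ⌊(th a l + Real.pi) * (4 / Real.pi)⌋₊, Coa_lt a l⟩

private theorem Coa_lab_zero (a l : ZMod p) : Coa_lab a l = 0 ↔ |th a l| < Real.pi / 8 := by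
  unfold Coa_lab
  constructor
  · intro h
    by_contra h1
    rw [if_neg h1] at h
    have := congrArg Fin.val h
    simp at this
  · intro h
    rw [if_pos h]

private theorem Coa_close {a l l' : ZMod p} (h : Coa_lab a l = Coa_lab a l') :
    |th a l - th a l'| < Real.pi / 4 := by
  have hpi := Real.pi_pos
  by_cases h1 : |th a l| < Real.pi / 8
  · have h2 : |th a l'| < Real.pi / 8 := by
      rw [← Coa_lab_zero, ← h, Coa_lab_zero]; exact h1
    rw [abs_lt] at h1 h2 ⊢
    constructor <;> linarith [h1.1, h1.2, h2.1, h2.2]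
  · have h2 : ¬ |th a l'| < Real.pi / 8 := by
      rw [← Coa_lab_zero, ← h, Coa_lab_zero]; exact h1
    unfold Coa_lab at h
    rw [if_neg h1, if_neg h2] at h
    have h3 := congrArg Fin.val h
    simp only at h3
    have h4 : ⌊(th a l + Real.pi) * (4 / Real.pi)⌋₊ = ⌊(th a l' + Real.pi) * (4 / Real.pi)⌋₊ := by omega
    have hm := Coa_th_mem a l
    have hm' := Coa_th_mem a l'
    have e1 : 0 ≤ (th a l + Real.pi) * (4 / Real.pi) := mul_nonneg (by linarith [hm.1]) (by positivity)
    have e2 : 0 ≤ (th a l' + Real.pi) * (4 / Real.pi) := mul_nonneg (by linarith [hm'.1]) (by positivity)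
    have f1 := Nat.floor_le e1
    have f2 := Nat.lt_floor_add_one ((th a l + Real.pi) * (4 / Real.pi))
    have f3 := Nat.floor_le e2
    have f4 := Nat.lt_floor_add_one ((th a l' + Real.pi) * (4 / Real.pi))
    rw [h4] at f1 f2
    have f5 : (th a l - th a l') * (4 / Real.pi) < 1 := by nlinarith
    have f6 : (th a l' - th a l) * (4 / Real.pi) < 1 := by nlinarith
    rw [mul_div_assoc', div_lt_one hpi] at f5 f6
    rw [abs_lt]
    constructor <;> linarith

private theorem Coa_th_sub {a l l' : ZMod p} (h : |th a l - th a l'| < Real.pi / 4) :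
    th a (l - l') = th a l - th a l' := by
  have hpi := Real.pi_pos
  have h2 := abs_lt.mp h
  refine th_of_exp ?_ ⟨by linarith [h2.1], by linarith [h2.2]⟩
  have h3 : z a l = z a (l - l') * z a l' := by rw [← z_add_right, sub_add_cancel]
  have h4 : Complex.exp (((th a l - th a l' : ℝ) : ℂ) * Complex.I) * z a l' = z a l := by
    rw [← exp_th a l', ← exp_th a l, ← Complex.exp_add]
    congr 1
    push_cast
    ring
  rw [h3] at h4
  exact (mul_right_cancel₀ (z_ne_zero a l') h4).symm

private theorem Coa_u (a l : ZMod p) (h : ¬ |th a l| < Real.pi / 8) : 1 / 32 ≤ u a l := by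
  have hpi := Real.pi_pos
  have h1 : (z a l).re = Real.cos (th a l) := by
    rw [← exp_th, Complex.exp_ofReal_mul_I_re]
  have hm := Coa_th_mem a l
  have h2 : Real.cos (th a l) ≤ 1 - 2 / Real.pi ^ 2 * th a l ^ 2 :=
    Real.cos_le_one_sub_mul_cos_sq (abs_le.mpr ⟨by linarith [hm.1], hm.2⟩)
  push Not at h
  have h3 : (Real.pi / 8) ^ 2 ≤ th a l ^ 2 := by
    rw [← sq_abs (th a l)]
    exact pow_le_pow_left₀ (by positivity) h 2
  have h4 : 2 / Real.pi ^ 2 * (Real.pi / 8) ^ 2 ≤ 2 / Real.pi ^ 2 * th a l ^ 2 :=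
    mul_le_mul_of_nonneg_left h3 (by positivity)
  have h5 : 2 / Real.pi ^ 2 * (Real.pi / 8) ^ 2 = 1 / 32 := by
    field_simp
    norm_num
  unfold u
  rw [h1]
  linarith

private theorem Coa_one (v : BLev p) {x c : ZMod p} (hx : x ∈ v.supp) (hc : c ∈ X5 v (7 / 10) x) :
    cent (om v.I) (Setoid.ker (Coa_lab (c - x))) ≤ 108 * √v.L := by
  have hL : 0 < v.L := v.L_pos
  rw [mem_X5] at hc
  have h1 := v.dist_sq_le hx hc.1
  unfold Lev.dist at h1
  have h2 : 0 ≤ v.E (u (c - x)) := sum_nonneg fun l _ => mul_nonneg (om_pos v.I l).le (u_nonneg _ _)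
  rw [Real.sq_sqrt (div_nonneg h2 hL.le), div_le_iff₀ hL] at h1
  refine Coa_ten (om v.I) (om_pos v.I) (isLaw_om v.I).2 _ hL v.L_le ?_
  have h3 : ∑ l, om v.I l * (if Coa_lab (c - x) l = 0 then (0 : ℝ) else 1) ≤ 32 * v.E (u (c - x)) := by
    unfold Lev.E Ex
    rw [mul_sum]
    refine sum_le_sum fun l _ => ?_
    have h4 := (om_pos v.I l).le
    have h5 := u_nonneg (c - x) l
    split_ifs with h
    · rw [mul_zero]
      positivity
    · rw [Coa_lab_zero] at h
      have h6 := Coa_u _ _ h
      nlinarith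
  have h7 : 2 * v.t x c * v.L ≤ 2 * (7 / 10) * v.L := by
    have := mul_le_mul_of_nonneg_right hc.2 hL.le
    linarith
  linarith

theorem coarse5 (v : BLev p) {B : ℕ} (hN : Num5 v B) {x : ZMod p} (hx : x ∈ G15 v B)
    (h0 : ((X5 v (7 / 10) x).card : ℝ) ≤ (B : ℝ) ^ 360 * v.D) :
    ∃ F : Setoid (ZMod p), v.cost F ≤ v.D / (B : ℝ) ^ 30000 ∧
      ∀ l l', F.r l l' → ∀ c ∈ X5 v (7 / 10) x, |th (c - x) (l - l')| < Real.pi / 4 := by
  classical
  have hL : 0 < v.L := v.L_pos
  have hxs := G15_sub v B hx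
  set X := X5 v (7 / 10) x with hX
  refine ⟨X.inf (fun c => Setoid.ker (Coa_lab (c - x))), ?_, ?_⟩
  · have h1 : ∀ S : Finset (ZMod p), S ⊆ X →
        cent (om v.I) (S.inf (fun c => Setoid.ker (Coa_lab (c - x)))) ≤ S.card * (108 * √v.L) := by
      intro S
      induction S using Finset.induction_on with
      | empty =>
        intro _
        rw [Finset.inf_empty, card_empty]
        have h2 : (⊤ : Setoid (ZMod p)) = Setoid.ker (fun _ : ZMod p => ()) := by
          ext a b
          simp [Setoid.ker_def]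
        rw [h2]
        have h3 := cent_ker_le (om v.I) (om_pos v.I) (isLaw_om v.I).2 (fun _ : ZMod p => ())
        rw [Fintype.card_unit] at h3
        simpa using h3
      | insert c S hc ih =>
        intro hS
        rw [Finset.inf_insert, card_insert_of_notMem hc]
        have h2 := cent_inf (om v.I) (om_pos v.I) (isLaw_om v.I).2 (Setoid.ker (Coa_lab (c - x)))
          (S.inf (fun c => Setoid.ker (Coa_lab (c - x))))
        have h3 := ih fun y hy => hS (mem_insert_of_mem hy)
        have h4 := Coa_one v hxs (hS (mem_insert_self c S))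
        push_cast
        linarith
    have h2 := h1 X (Subset.refl X)
    have hB1 : (1000 : ℝ) ≤ B := by exact_mod_cast hN.B_ge
    have hB0 : (0 : ℝ) < B := by linarith
    have hs : √v.L ≤ 1 / (B : ℝ) ^ 17000000000 := by
      apply Real.sqrt_le_iff.mpr
      refine ⟨by positivity, ?_⟩
      rw [div_pow, one_pow, ← pow_mul]
      exact hN.L_le
    have hD : 0 ≤ v.D := le_trans (by positivity) hN.D_big
    have h3 : v.cost (X.inf (fun c => Setoid.ker (Coa_lab (c - x)))) ≤
        (B : ℝ) ^ 360 * v.D * (108 * (1 / (B : ℝ) ^ 17000000000)) := by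
      unfold Lev.cost
      refine h2.trans ?_
      exact mul_le_mul h0 (mul_le_mul_of_nonneg_left hs (by norm_num)) (by positivity) (by positivity)
    refine h3.trans ?_
    rw [div_eq_mul_one_div v.D]
    have h4 : (B : ℝ) ^ 360 * (108 * (1 / (B : ℝ) ^ 17000000000)) ≤ 1 / (B : ℝ) ^ 30000 := by
      rw [mul_one_div, mul_div_assoc', div_le_div_iff₀ (by positivity) (by positivity), one_mul]
      have e1 : (B : ℝ) ^ 17000000000 = (B : ℝ) ^ 30360 * (B : ℝ) ^ 16999969640 := by
        rw [← pow_add]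
      have e2 : (B : ℝ) ^ 30360 = (B : ℝ) ^ 360 * (B : ℝ) ^ 30000 := by
        rw [← pow_add]
      have e3 : (108 : ℝ) ≤ (B : ℝ) ^ 16999969640 := by
        calc (108 : ℝ) ≤ B := by linarith
          _ = (B : ℝ) ^ 1 := (pow_one _).symm
          _ ≤ (B : ℝ) ^ 16999969640 := pow_le_pow_right₀ (by linarith) (by norm_num)
      rw [e1, e2]
      have e4 : 0 < (B : ℝ) ^ 360 * (B : ℝ) ^ 30000 := by positivity
      calc (B : ℝ) ^ 360 * 108 * (B : ℝ) ^ 30000 = (B : ℝ) ^ 360 * (B : ℝ) ^ 30000 * 108 := by ring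
        _ ≤ _ := mul_le_mul_of_nonneg_left e3 e4.le
    calc (B : ℝ) ^ 360 * v.D * (108 * (1 / (B : ℝ) ^ 17000000000))
        = v.D * ((B : ℝ) ^ 360 * (108 * (1 / (B : ℝ) ^ 17000000000))) := by ring
      _ ≤ v.D * (1 / (B : ℝ) ^ 30000) := mul_le_mul_of_nonneg_left h4 hD
  · intro l l' h c hc
    have h1 : X.inf (fun c => Setoid.ker (Coa_lab (c - x))) ≤ Setoid.ker (Coa_lab (c - x)) :=
      Finset.inf_le (f := fun c => Setoid.ker (Coa_lab (c - x))) hc
    have h2 : Coa_lab (c - x) l = Coa_lab (c - x) l' := h1 h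
    have h3 := Coa_close h2
    rw [Coa_th_sub h3]
    exact h3

end Pool.MPbe0380.Gb
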