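import Pool.Agent.Lib.MP_be0380_co.T5.Typ
import Pool.Agent.Lib.MP_be0380_co.G.Base
import Pool.Agent.Lib.MP_be0380_co.G.Cond

/-!
# be0380, (5.3): the partition COARSE and the lifts
-/

set_option autoImplicit false

open Finset

namespace Pool.MPbe0380.Gb

variable {p : ℕ} [Fact p.Prime]

/-- second argument version of `th_add` -/
theorem th_sub_right {g l l' : ZMod p} (h : th g l - th g l' ∈ Set.Ioc (-Real.pi) Real.pi) :
    th g (l - l') = th g l - th g l' := by
  refine th_of_exp ?_ h
  have h1 : z g (l - l') * z g l' = z g l := by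
    rw [← z_add_right, sub_add_cancel]
  have h2 : z g l' ≠ 0 := z_ne_zero _ _
  have h3 : Complex.exp (((th g l - th g l' : ℝ) : ℂ) * Complex.I) * z g l' = z g l := by
    rw [← exp_th g l', ← exp_th g l, ← Complex.exp_add]
    congr 1
    push_cast
    ring
  exact mul_right_cancel₀ h2 (h1.trans h3.symm)

theorem u_eq_cos (g l : ZMod p) : u g l = 1 - Real.cos (th g l) := by
  have h := exp_th g l
  rw [u, ← h, Complex.exp_ofReal_mul_I_re]

theorem abs_th_le (g l : ZMod p) : |th g l| ≤ Real.pi := Complex.abs_arg_le_pi _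

theorem cos_pi_div_eight_le : Real.cos (Real.pi / 8) ≤ 37 / 40 := by
  rw [Real.cos_pi_div_eight]
  have h1 : √2 ≤ 142 / 100 := by
    rw [Real.sqrt_le_left (by norm_num)]
    norm_num
  have h2 : √(2 + √2) ≤ 185 / 100 := by
    rw [Real.sqrt_le_left (by norm_num)]
    norm_num
    linarith
  linarith

/-- far from the main arc `u ≥ 3/40` -/
theorem u_ge_of_th {g l : ZMod p} (h : Real.pi / 8 ≤ |th g l|) : 3 / 40 ≤ u g l := by
  rw [u_eq_cos, ← Real.cos_abs]
  have h1 := Real.cos_le_cos_of_nonneg_of_le_pi (by positivity) (abs_th_le g l) h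
  have h2 := cos_pi_div_eight_le
  linarith

/-! ### Gibbs bound for the entropy of a partition -/

section gibbs

variable {Ω : Type} [Fintype Ω] (w : Ω → ℝ) (hw : ∀ l, 0 < w l) (hw1 : ∑ l, w l = 1)

include hw hw1

/-- the entropy of the partition by `g` is at most the cross entropy with a subprobability `q` -/
theorem cent_ker_le_cross {α : Type} [Fintype α] (g : Ω → α) (q : α → ℝ)
    (hq : ∀ a, 0 < q a) (hq1 : ∑ a, q a ≤ 1) :
    cent w (Setoid.ker g) ≤ - ∑ l, w l * Real.log (q (g l)) := by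
  classical
  have hcp : ∀ l, cprob w (Setoid.ker g) l = ∑ l' ∈ univ.filter (fun l' => g l' = g l), w l' := by
    intro l
    unfold cprob csum
    refine sum_congr ?_ fun l' _ => by rw [mul_one]
    ext l'
    simp only [mem_filter, mem_univ, true_and]
    exact Iff.rfl
  have hpos : ∀ l, 0 < cprob w (Setoid.ker g) l := by
    intro l
    rw [hcp]
    refine sum_pos' (fun l' _ => (hw l').le) ⟨l, ?_, hw l⟩
    exact mem_filter.mpr ⟨mem_univ _, rfl⟩
  have h1 : ∀ l, w l * (Real.log (q (g l)) - Real.log (cprob w (Setoid.ker g) l)) ≤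
      w l * (q (g l) / cprob w (Setoid.ker g) l) - w l := by
    intro l
    have h2 := Real.log_le_sub_one_of_pos (div_pos (hq (g l)) (hpos l))
    rw [Real.log_div (hq _).ne' (hpos l).ne'] at h2
    have h3 := mul_le_mul_of_nonneg_left h2 (hw l).le
    linarith
  have h2 := sum_le_sum fun l (_ : l ∈ univ) => h1 l
  rw [sum_sub_distrib, hw1] at h2
  have h3 : ∑ l, w l * (q (g l) / cprob w (Setoid.ker g) l) ≤ 1 := by
    have h4 : ∑ l, w l * (q (g l) / cprob w (Setoid.ker g) l) =
        ∑ a, ∑ l ∈ univ.filter (fun l => g l = a), w l * (q (g l) / cprob w (Setoid.ker g) l) :=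
      (sum_fiberwise _ _ _).symm
    rw [h4]
    refine le_trans (sum_le_sum fun a _ => ?_) hq1
    by_cases hne : (univ.filter fun l => g l = a).Nonempty
    · have h5 : ∀ l ∈ univ.filter (fun l => g l = a),
          w l * (q (g l) / cprob w (Setoid.ker g) l) =
          w l * (q a / ∑ l' ∈ univ.filter (fun l' => g l' = a), w l') := by
        intro l hl
        rw [hcp, (mem_filter.mp hl).2]
      rw [sum_congr rfl h5, ← sum_mul]
      have h6 : 0 < ∑ l' ∈ univ.filter (fun l' => g l' = a), w l' := by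
        obtain ⟨l0, hl0⟩ := hne
        exact sum_pos' (fun l' _ => (hw l').le) ⟨l0, hl0, hw l0⟩
      exact (mul_div_cancel₀ _ h6.ne').le
    · rw [not_nonempty_iff_eq_empty] at hne
      rw [hne, sum_empty]
      exact (hq a).le
  have h4 : ∑ l, w l * (Real.log (q (g l)) - Real.log (cprob w (Setoid.ker g) l)) =
      ∑ l, w l * Real.log (q (g l)) - ∑ l, w l * Real.log (cprob w (Setoid.ker g) l) := by
    rw [← sum_sub_distrib]
    exact sum_congr rfl fun l _ => by ring
  rw [h4] at h2
  unfold cent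
  linarith

omit hw in
theorem cent_top : cent w (⊤ : Setoid Ω) = 0 := by
  classical
  have h : ∀ l, cprob w (⊤ : Setoid Ω) l = 1 := by
    intro l
    unfold cprob csum
    refine (sum_congr ?_ fun l' _ => mul_one _).trans hw1
    ext l'
    simp only [mem_filter, mem_univ, true_and, iff_true]
    trivial
  unfold cent
  simp only [h, Real.log_one, mul_zero, sum_const_zero, neg_zero]

theorem cent_finset_inf {ι : Type*} [DecidableEq ι] (C : Finset ι) (F : ι → Setoid Ω) :
    cent w (C.inf F) ≤ ∑ c ∈ C, cent w (F c) := by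
  induction C using Finset.induction_on with
  | empty =>
    rw [inf_empty, sum_empty]
    exact (cent_top w hw1).le
  | insert a C ha ih =>
    rw [inf_insert, sum_insert ha]
    exact (cent_inf w hw hw1 _ _).trans (by linarith)

end gibbs

/-! ### arcs -/

/-- index of the arc of `th g l` -/
noncomputable def arcN (g l : ZMod p) : ℕ :=
  if |th g l| < Real.pi / 8 then 0 else ⌊(th g l + Real.pi) / (Real.pi / 8)⌋₊ + 1

theorem arcN_lt (g l : ZMod p) : arcN g l < 18 := by
  unfold arcN
  split_ifs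
  · norm_num
  · have hpi := Real.pi_pos
    have h1 := abs_le.mp (abs_th_le g l)
    have h2 : ⌊(th g l + Real.pi) / (Real.pi / 8)⌋₊ < 17 := by
      rw [Nat.floor_lt' (by norm_num), div_lt_iff₀ (by positivity)]
      push_cast
      linarith
    omega

/-- the partition by the arcs of one character -/
noncomputable def arc (g : ZMod p) : Setoid (ZMod p) :=
  Setoid.ker (fun l => (⟨arcN g l, arcN_lt g l⟩ : Fin 18))

theorem arc_close {g l l' : ZMod p} (h : (arc g).r l l') : |th g l - th g l'| < Real.pi / 4 := by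
  have h0 : arcN g l = arcN g l' := by
    have : (⟨arcN g l, arcN_lt g l⟩ : Fin 18) = ⟨arcN g l', arcN_lt g l'⟩ := h
    exact Fin.mk.inj this
  have hpi := Real.pi_pos
  unfold arcN at h0
  split_ifs at h0 with h1 h2 h2
  · have e1 := abs_lt.mp h1
    have e2 := abs_lt.mp h2
    rw [abs_lt]
    constructor <;> linarith
  · have h3 : ⌊(th g l + Real.pi) / (Real.pi / 8)⌋₊ = ⌊(th g l' + Real.pi) / (Real.pi / 8)⌋₊ := by
      omega
    have b1 := abs_le.mp (abs_th_le g l)
    have b2 := abs_le.mp (abs_th_le g l')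
    have c1 := Nat.floor_le (div_nonneg (by linarith : 0 ≤ th g l + Real.pi)
      (by positivity : 0 ≤ Real.pi / 8))
    have c2 := Nat.lt_floor_add_one ((th g l + Real.pi) / (Real.pi / 8))
    have c3 := Nat.floor_le (div_nonneg (by linarith : 0 ≤ th g l' + Real.pi)
      (by positivity : 0 ≤ Real.pi / 8))
    have c4 := Nat.lt_floor_add_one ((th g l' + Real.pi) / (Real.pi / 8))
    rw [h3] at c1 c2
    rw [le_div_iff₀ (by positivity)] at c1 c3
    rw [div_lt_iff₀ (by positivity)] at c2 c4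
    rw [abs_lt]
    constructor <;> nlinarith

theorem arc_th {g l l' : ZMod p} (h : (arc g).r l l') : |th g (l - l')| < Real.pi / 4 := by
  have h1 := arc_close h
  have hpi := Real.pi_pos
  have h2 := abs_lt.mp h1
  rw [th_sub_right ⟨by linarith, by linarith⟩]
  exact h1

namespace Lev

variable (v : Lev p)

theorem one_le_log : 18 ≤ Real.log (1 / v.L) := by
  have hL : 0 < v.L := v.L_pos
  rw [Real.le_log_iff_exp_le (by positivity)]
  have h1 : Real.exp 18 ≤ 10 ^ 8 := by
    have h2 : Real.exp 18 = (Real.exp 1) ^ 18 := by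
      rw [← Real.exp_nat_mul]
      norm_num
    rw [h2]
    have h3 : Real.exp 1 < 2.7182818286 := Real.exp_one_lt_d9
    calc (Real.exp 1) ^ 18 ≤ (2.7182818286 : ℝ) ^ 18 :=
          pow_le_pow_left₀ (Real.exp_pos 1).le h3.le 18
      _ ≤ 10 ^ 8 := by norm_num
  refine h1.trans ?_
  rw [le_div_iff₀ hL]
  have := v.L_le
  norm_num at this ⊢
  linarith

/-- entropy of one partition into arcs -/
theorem cost_arc {g : ZMod p} (hg : v.E (u g) ≤ 3 / 2 * v.L) :
    v.cost (arc g) ≤ 22 * v.L * Real.log (1 / v.L) := by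
  have hL : 0 < v.L := v.L_pos
  have hL8 := v.L_le
  have hlog := v.one_le_log
  let q : Fin 18 → ℝ := fun j => if j = 0 then 1 - 17 * v.L else v.L
  have hq : ∀ j, 0 < q j := by
    intro j
    change 0 < if j = 0 then 1 - 17 * v.L else v.L
    split_ifs
    · norm_num at hL8
      linarith
    · exact hL
  have hq1 : ∑ j, q j ≤ 1 := by
    rw [Fin.sum_univ_succ]
    have : ∀ j : Fin 17, q j.succ = v.L := fun j => if_neg (Fin.succ_ne_zero j)
    rw [sum_congr rfl fun j _ => this j, sum_const, card_univ, Fintype.card_fin, nsmul_eq_mul]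
    change (if (0 : Fin 18) = 0 then 1 - 17 * v.L else v.L) + _ ≤ _
    rw [if_pos rfl]
    push_cast
    linarith
  refine (cent_ker_le_cross (om v.I) (om_pos v.I) (isLaw_om v.I).2
    (fun l => (⟨arcN g l, arcN_lt g l⟩ : Fin 18)) q hq hq1).trans ?_
  have hlog17 : - Real.log (1 - 17 * v.L) ≤ 34 * v.L := by
    have h1 : 0 < 1 - 17 * v.L := by norm_num at hL8; linarith
    have h2 := Real.log_le_sub_one_of_pos (inv_pos.mpr h1)
    rw [Real.log_inv] at h2
    refine h2.trans ?_
    rw [sub_le_iff_le_add, inv_le_iff_one_le_mul₀ h1]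
    norm_num at hL8
    nlinarith
  have h1 : ∀ l, - (om v.I l * Real.log (q ⟨arcN g l, arcN_lt g l⟩)) ≤
      om v.I l * (34 * v.L + Real.log (1 / v.L) * (40 / 3 * u g l)) := by
    intro l
    have hom := (om_pos v.I l).le
    rw [← mul_neg]
    refine mul_le_mul_of_nonneg_left ?_ hom
    have hu := u_nonneg g l
    by_cases h2 : |th g l| < Real.pi / 8
    · have h3 : arcN g l = 0 := if_pos h2
      have h4 : q ⟨arcN g l, arcN_lt g l⟩ = 1 - 17 * v.L := by
        refine if_pos ?_
        exact Fin.ext h3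
      rw [h4]
      have : 0 ≤ Real.log (1 / v.L) * (40 / 3 * u g l) := by positivity
      linarith
    · have h3 : arcN g l ≠ 0 := by
        unfold arcN
        rw [if_neg h2]
        omega
      have h4 : q ⟨arcN g l, arcN_lt g l⟩ = v.L := by
        refine if_neg ?_
        intro h5
        exact h3 (congrArg Fin.val h5)
      rw [h4]
      have h5 := u_ge_of_th (not_lt.mp h2)
      have h6 : - Real.log v.L = Real.log (1 / v.L) := by
        rw [one_div, Real.log_inv]
      rw [h6]
      have h7 : 1 ≤ 40 / 3 * u g l := by linarith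
      have h8 : 0 ≤ Real.log (1 / v.L) := by linarith
      nlinarith
  have h2 := sum_le_sum fun l (_ : l ∈ univ) => h1 l
  rw [sum_neg_distrib] at h2
  refine h2.trans ?_
  have h3 : ∑ l, om v.I l * (34 * v.L + Real.log (1 / v.L) * (40 / 3 * u g l)) =
      34 * v.L + Real.log (1 / v.L) * (40 / 3) * v.E (u g) := by
    have e : ∀ l, om v.I l * (34 * v.L + Real.log (1 / v.L) * (40 / 3 * u g l)) =
        om v.I l * (34 * v.L) + Real.log (1 / v.L) * (40 / 3) * (om v.I l * u g l) :=
      fun l => by ring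
    rw [sum_congr rfl fun l _ => e l, sum_add_distrib, ← sum_mul, (isLaw_om v.I).2, one_mul,
      ← mul_sum]
    rfl
  rw [h3]
  have h4 : Real.log (1 / v.L) * (40 / 3) * v.E (u g) ≤
      Real.log (1 / v.L) * (40 / 3) * (3 / 2 * v.L) :=
    mul_le_mul_of_nonneg_left hg (by positivity)
  nlinarith

open Classical in
/-- (5.3): the partition for one `x` -/
theorem exists_coarse {x : ZMod p} (hx : x ∈ v.supp) {H : ℝ}
    (h0 : ((v.A.filter fun c => v.t x c ≤ 7 / 10).card : ℝ) ≤ H) :
    ∃ F : Setoid (ZMod p), v.cost F ≤ H * (22 * v.L * Real.log (1 / v.L)) ∧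
      ∀ l l', F.r l l' → ∀ c ∈ v.A, v.t x c ≤ 7 / 10 → |th (c - x) (l - l')| < Real.pi / 4 := by
  have hL : 0 < v.L := v.L_pos
  have hlog := v.one_le_log
  refine ⟨(v.A.filter fun c => v.t x c ≤ 7 / 10).inf (fun c => arc (c - x)), ?_, ?_⟩
  · refine (cent_finset_inf (om v.I) (om_pos v.I) (isLaw_om v.I).2 _ _).trans ?_
    refine (sum_le_card_nsmul _ _ (22 * v.L * Real.log (1 / v.L)) fun c hc => ?_).trans ?_
    · rw [mem_filter] at hc
      refine v.cost_arc ?_
      have := v.E_u_sub_le hx hc.1 hc.2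
      linarith
    · rw [nsmul_eq_mul]
      exact mul_le_mul_of_nonneg_right h0 (by positivity)
  · intro l l' h c hc ht
    refine arc_th ?_
    have h1 : (v.A.filter fun c => v.t x c ≤ 7 / 10).inf (fun c => arc (c - x)) ≤ arc (c - x) :=
      inf_le (f := fun c => arc (c - x)) (mem_filter.mpr ⟨hc, ht⟩)
    exact h1 h

open Classical in
/-- (5.3): COARSE(x,y) -/
theorem exists_coarse2 {x y : ZMod p} (hx : x ∈ v.supp) (hy : y ∈ v.supp) {H : ℝ}
    (h0 : ((v.A.filter fun c => v.t x c ≤ 7 / 10).card : ℝ) ≤ H)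
    (h0' : ((v.A.filter fun c => v.t y c ≤ 7 / 10).card : ℝ) ≤ H) :
    ∃ F : Setoid (ZMod p), v.cost F ≤ H * (44 * v.L * Real.log (1 / v.L)) ∧
      ∀ l l', F.r l l' →
        (∀ c ∈ v.A, v.t x c ≤ 7 / 10 → |th (c - x) (l - l')| < Real.pi / 4) ∧
        (∀ c ∈ v.A, v.t y c ≤ 7 / 10 → |th (c - y) (l - l')| < Real.pi / 4) := by
  obtain ⟨F, hF, hF'⟩ := v.exists_coarse hx h0
  obtain ⟨F2, hF2, hF2'⟩ := v.exists_coarse hy h0'
  refine ⟨F ⊓ F2, ?_, fun l l' h => ⟨hF' l l' h.1, hF2' l l' h.2⟩⟩
  have := cent_inf (om v.I) (om_pos v.I) (isLaw_om v.I).2 F F2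
  unfold Lev.cost at *
  linarith

/-- a partition of cost below `D` has a cell with two points -/
theorem exists_pair_of_cost {F : Setoid (ZMod p)} (h : v.cost F < v.D) :
    ∃ l l', F.r l l' ∧ l ≠ l' := by
  by_contra hcon
  push Not at hcon
  have h1 : F = ⊥ := by
    refine le_antisymm ?_ bot_le
    intro l l' hl
    exact hcon l l' hl
  have h2 : v.cost F = ent (om v.I) := by
    rw [h1]
    exact cent_bot (om v.I) (om_pos v.I) (isLaw_om v.I).2
  have h3 := v.pd
  linarith

open Classical in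
/-- (5.3): the character `μ` giving the lifts -/
theorem exists_mu {x y : ZMod p} (hx : x ∈ v.supp) (hy : y ∈ v.supp) {H : ℝ}
    (h0 : ((v.A.filter fun c => v.t x c ≤ 7 / 10).card : ℝ) ≤ H)
    (h0' : ((v.A.filter fun c => v.t y c ≤ 7 / 10).card : ℝ) ≤ H)
    (hH : H * (44 * v.L * Real.log (1 / v.L)) < v.D) :
    ∃ μ : ZMod p, μ ≠ 0 ∧
        (∀ c ∈ v.A, v.t x c ≤ 7 / 10 → |th (c - x) μ| < Real.pi / 4) ∧
        (∀ c ∈ v.A, v.t y c ≤ 7 / 10 → |th (c - y) μ| < Real.pi / 4) := by
  obtain ⟨F, hF, hF'⟩ := v.exists_coarse2 hx hy h0 h0'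
  obtain ⟨l, l', hl, hne⟩ := v.exists_pair_of_cost (hF.trans_lt hH)
  exact ⟨l - l', sub_ne_zero.mpr hne, hF' l l' hl⟩

end Lev

end Pool.MPbe0380.Gb
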