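import Pool.Agent.Lib.MP_be0380_co.T5.Defs
import Pool.Agent.Lib.MP_be0380_co.T5.Coa
import Pool.Agent.Lib.MP_be0380_co.T5.Coarse

/-!
# be0380, module T5.Lif = (5.3), lifts

F, F' from coarse5 for x and y. F ⊓ F' has cost <= 2 D/B^30000 < D <= ent (om v.I) = cent ⊥ (cent_inf, Lev.pd, cent_bot), so F ⊓ F' <> ⊥:
there are l <> l' in one cell; mu = l - l'.
-/

set_option autoImplicit false

open Finset

namespace Pool.MPbe0380.Gb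

variable {p : ℕ} [Fact p.Prime]

/-- COARSE(x,y) -/
theorem coarse5_two (v : BLev p) {B : ℕ} (hN : Num5 v B) {x y : ZMod p} (hx : x ∈ G15 v B)
    (hy : y ∈ G15 v B) (h0 : ((X5 v (7 / 10) x).card : ℝ) ≤ (B : ℝ) ^ 360 * v.D)
    (h0' : ((X5 v (7 / 10) y).card : ℝ) ≤ (B : ℝ) ^ 360 * v.D) :
    ∃ F : Setoid (ZMod p), v.cost F ≤ 2 * v.D / (B : ℝ) ^ 30000 ∧
      ∀ l l', F.r l l' → (∀ c ∈ X5 v (7 / 10) x, |th (c - x) (l - l')| < Real.pi / 4) ∧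
        ∀ c ∈ X5 v (7 / 10) y, |th (c - y) (l - l')| < Real.pi / 4 := by
  obtain ⟨F, hF, hF2⟩ := coarse5 v hN hx h0
  obtain ⟨F', hF', hF2'⟩ := coarse5 v hN hy h0'
  refine ⟨F ⊓ F', ?_, fun l l' h => ⟨hF2 l l' h.1, hF2' l l' h.2⟩⟩
  have h1 := cent_inf (om v.I) (om_pos v.I) (isLaw_om v.I).2 F F'
  have h2 : 2 * v.D / (B : ℝ) ^ 30000 = v.D / (B : ℝ) ^ 30000 + v.D / (B : ℝ) ^ 30000 := by ring
  rw [h2]
  exact h1.trans (add_le_add hF hF')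

theorem lift5 (v : BLev p) {B : ℕ} (hN : Num5 v B) {x y : ZMod p} (hx : x ∈ G15 v B)
    (hy : y ∈ G15 v B) (h0 : ((X5 v (7 / 10) x).card : ℝ) ≤ (B : ℝ) ^ 360 * v.D)
    (h0' : ((X5 v (7 / 10) y).card : ℝ) ≤ (B : ℝ) ^ 360 * v.D) :
    ∃ μ : ZMod p, μ ≠ 0 ∧ (∀ c ∈ X5 v (7 / 10) x, |th (c - x) μ| < Real.pi / 4) ∧
      ∀ c ∈ X5 v (7 / 10) y, |th (c - y) μ| < Real.pi / 4 := by
  obtain ⟨F, hF, hF2⟩ := coarse5_two v hN hx hy h0 h0'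
  have hD : 0 < v.D := mul_pos v.m_pos v.L_pos
  have hB : (1000 : ℝ) ≤ B := by exact_mod_cast hN.B_ge
  have h1 : (1000 : ℝ) ≤ (B : ℝ) ^ 30000 :=
    hB.trans (le_self_pow₀ (by linarith) (by norm_num))
  have h2 : v.cost F < v.D := by
    refine hF.trans_lt ?_
    rw [div_lt_iff₀ (by linarith)]
    nlinarith
  obtain ⟨l, l', hl, hne⟩ := v.exists_pair_of_cost h2
  exact ⟨l - l', sub_ne_zero.mpr hne, hF2 l l' hl⟩

end Pool.MPbe0380.Gb
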