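import Pool.Agent.Lib.MP_be0380_co.T5.Defs

/-!
# be0380, module T5.Add = (5.1) ADDITIVITY

x in G_1 (so E u_x^2 <= kap^4 L, kap = kap5 B; E u_c <= L on A). Q := E Re conj(e_x)(1 - z_S) / (2L), S = the common sum.
(1) |1 - prod z_(c_i) - sum e_(c_i)| <= sum_(i<j) |e_(c_i)| |e_(c_j)| (induction on the number of chips:
    1 - P_j = (1 - P_(j-1)) + P_(j-1) e_j, and |P_(j-1) e_j - e_j| <= |1 - P_(j-1)| |e_j| <= sum_(i<j) |e_i| |e_j|), prod z_(c_i) = z_S.
(2) E |e_x| |e_c| |e_d| <= (E |e_x|^2 |e_c|^2)^(1/2) (E |e_d|^2)^(1/2) = (4 E u_x u_c)^(1/2) (2 E u_d)^(1/2), and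
    E u_x u_c <= (E u_x^2 E u_c^2)^(1/2) <= (kap^4 L 2L)^(1/2) = 2^(1/2) kap^2 L, so E|e_x||e_c||e_d| <= 2^(7/4) kap L.
(3) 2L f_x(c) = E Re conj(e_x) e_c = E(u_x u_c + s_x s_c), so |sum_i f_x(c_i) - Q| <= (w^2/2) 2^(7/4) kap L/(2L) <= w^2 kap,
    and the difference for two multisets is <= 2 w^2 kap = 2 B^14400000 / B^28800000 = eps5 B.
(4) add5_two: pad the two chips by w - 2 chips x (x in A, w = w5 B >= 2).
(The powers B^7200000 etc. are powers of a variable: use pow_add / pow_le_pow_right0, never norm_num on a numeral base.)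
-/

set_option autoImplicit false

open Finset

namespace Pool.MPbe0380.Gb

variable {p : ℕ} [Fact p.Prime]

private theorem add_cs (v : Lev p) (a b : ZMod p → ℝ) :
    v.E (fun l => a l * b l) ^ 2 ≤ v.E (fun l => a l ^ 2) * v.E (fun l => b l ^ 2) := by
  refine sum_sq_le_sum_mul_sum_of_sq_eq_mul univ ?_ ?_ ?_
  · intro l _
    exact mul_nonneg (om_pos v.I l).le (sq_nonneg _)
  · intro l _
    exact mul_nonneg (om_pos v.I l).le (sq_nonneg _)
  · intro l _
    ring

private theorem add_E_mono (v : Lev p) {a b : ZMod p → ℝ} (h : ∀ l, a l ≤ b l) :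
    v.E a ≤ v.E b :=
  sum_le_sum fun l _ => mul_le_mul_of_nonneg_left (h l) (om_pos v.I l).le

private theorem add_E_smul (v : Lev p) (c : ℝ) (a : ZMod p → ℝ) :
    v.E (fun l => c * a l) = c * v.E a := by
  simp only [Lev.E, Ex, mul_sum]
  exact sum_congr rfl fun l _ => by ring

private theorem add_E_sum (v : Lev p) {ι : Type*} (S : Finset ι) (a : ι → ZMod p → ℝ) :
    v.E (fun l => ∑ i ∈ S, a i l) = ∑ i ∈ S, v.E (a i) := by
  simp only [Lev.E, Ex, mul_sum]
  exact sum_comm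

private theorem add_E_sub (v : Lev p) (a b : ZMod p → ℝ) :
    v.E (fun l => a l - b l) = v.E a - v.E b := by
  simp only [Lev.E, Ex, mul_sub, sum_sub_distrib]

private theorem add_abs_E (v : Lev p) {a b : ZMod p → ℝ} (h : ∀ l, |a l| ≤ b l) :
    |v.E a| ≤ v.E b := by
  refine (abs_sum_le_sum_abs _ _).trans (sum_le_sum fun l _ => ?_)
  rw [abs_mul, abs_of_pos (om_pos v.I l)]
  exact mul_le_mul_of_nonneg_left (h l) (om_pos v.I l).le

private theorem add_trip (v : BLev p) {B : ℕ} (hB : 0 < kap5 B) {x c d : ZMod p}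
    (hx : x ∈ G15 v B) (hc : c ∈ v.A) (hd : d ∈ v.A) :
    v.E (fun l => ‖e x l‖ * ‖e c l‖ * ‖e d l‖) ≤ 4 * kap5 B * v.L := by
  have hL : 0 < v.L := v.L_pos
  have h1 := add_cs v.toLev (fun l => ‖e x l‖ * ‖e c l‖) (fun l => ‖e d l‖)
  have h2 : v.E (fun l => (‖e x l‖ * ‖e c l‖) ^ 2) = 4 * v.E (fun l => u x l * u c l) := by
    rw [← add_E_smul]
    congr 1
    funext l
    rw [mul_pow, norm_e_sq, norm_e_sq]
    ring
  have h3 : v.E (fun l => ‖e d l‖ ^ 2) = 2 * v.E (u d) := by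
    rw [← add_E_smul]
    congr 1
    funext l
    rw [norm_e_sq]
  have h4 : v.E (u d) ≤ v.L := v.kkt d hd
  have h5 := add_cs v.toLev (u x) (u c)
  have h6 : v.E (fun l => u c l ^ 2) ≤ 2 * v.L := by
    calc v.E (fun l => u c l ^ 2) ≤ v.E (fun l => 2 * u c l) := add_E_mono _ fun l => u_sq_le c l
      _ = 2 * v.E (u c) := add_E_smul _ _ _
      _ ≤ 2 * v.L := mul_le_mul_of_nonneg_left (v.kkt c hc) (by norm_num)
  have h7 := E_le_of_mem_G15 hx
  have h8 : 0 ≤ v.E (fun l => u x l ^ 2) :=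
    sum_nonneg fun l _ => mul_nonneg (om_pos v.I l).le (sq_nonneg _)
  have h9 : 0 ≤ v.E (fun l => u x l * u c l) :=
    sum_nonneg fun l _ => mul_nonneg (om_pos v.I l).le (mul_nonneg (u_nonneg _ _) (u_nonneg _ _))
  set κ := kap5 B with hκ
  have h10 : v.E (fun l => u x l * u c l) ≤ 2 * κ ^ 2 * v.L := by
    refine abs_le_of_sq_le_sq' ?_ (by positivity) |>.2
    calc v.E (fun l => u x l * u c l) ^ 2 ≤ v.E (fun l => u x l ^ 2) * v.E (fun l => u c l ^ 2) := h5
      _ ≤ κ ^ 4 * v.L * (2 * v.L) := mul_le_mul h7 h6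
          (sum_nonneg fun l _ => mul_nonneg (om_pos v.I l).le (sq_nonneg _)) (by positivity)
      _ ≤ (2 * κ ^ 2 * v.L) ^ 2 := by
          have : 0 ≤ κ ^ 4 * v.L ^ 2 := by positivity
          nlinarith
  have h11 : 0 ≤ v.E (u d) :=
    sum_nonneg fun l _ => mul_nonneg (om_pos v.I l).le (u_nonneg _ _)
  refine abs_le_of_sq_le_sq' ?_ (by positivity) |>.2
  calc v.E (fun l => ‖e x l‖ * ‖e c l‖ * ‖e d l‖) ^ 2
      ≤ 4 * v.E (fun l => u x l * u c l) * (2 * v.E (u d)) := by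
        rw [← h2, ← h3]
        exact h1
    _ ≤ 4 * (2 * κ ^ 2 * v.L) * (2 * v.L) := by
        refine mul_le_mul (mul_le_mul_of_nonneg_left h10 (by norm_num))
          (mul_le_mul_of_nonneg_left h4 (by norm_num)) (by positivity) (by positivity)
    _ = (4 * κ * v.L) ^ 2 := by ring

private theorem add_norm_e_sum (a : ℕ → ZMod p) (l : ZMod p) (n : ℕ) :
    ‖e (∑ i ∈ range n, a i) l‖ ≤ ∑ i ∈ range n, ‖e (a i) l‖ := by
  induction n with
  | zero => simp [e_zero]
  | succ n ih =>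
    rw [sum_range_succ, sum_range_succ]
    exact (norm_e_add _ _ _).trans (add_le_add ih le_rfl)

private theorem add_point (a : ℕ → ZMod p) (l : ZMod p) (n : ℕ) :
    ‖e (∑ i ∈ range n, a i) l - ∑ i ∈ range n, e (a i) l‖ ≤
      ∑ j ∈ range n, ∑ i ∈ range j, ‖e (a i) l‖ * ‖e (a j) l‖ := by
  induction n with
  | zero => simp [e_zero]
  | succ n ih =>
    rw [sum_range_succ, sum_range_succ, sum_range_succ (fun j => ∑ i ∈ range j, _), e_add]
    have h : e (∑ i ∈ range n, a i) l + e (a n) l - e (∑ i ∈ range n, a i) l * e (a n) l -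
        (∑ i ∈ range n, e (a i) l + e (a n) l) =
        (e (∑ i ∈ range n, a i) l - ∑ i ∈ range n, e (a i) l) -
          e (∑ i ∈ range n, a i) l * e (a n) l := by ring
    rw [h]
    refine (norm_sub_le _ _).trans (add_le_add ih ?_)
    rw [norm_mul, ← sum_mul]
    exact mul_le_mul_of_nonneg_right (add_norm_e_sum a l n) (norm_nonneg _)

private theorem add_one (v : BLev p) {B : ℕ} (hB : 0 < kap5 B) {x : ZMod p}
    (hx : x ∈ G15 v B) (a : ℕ → ZMod p) (n : ℕ) (ha : ∀ i < n, a i ∈ v.A) :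
    |∑ i ∈ range n, v.f x (a i) - v.f x (∑ i ∈ range n, a i)| ≤ (n : ℝ) ^ 2 * kap5 B := by
  have hL : 0 < v.L := v.L_pos
  have h1 : ∑ i ∈ range n, v.f x (a i) - v.f x (∑ i ∈ range n, a i) =
      v.E (fun l => (∑ i ∈ range n, (u x l * u (a i) l + s x l * s (a i) l)) -
        (u x l * u (∑ i ∈ range n, a i) l + s x l * s (∑ i ∈ range n, a i) l)) / (2 * v.L) := by
    have e1 : ∀ c, v.E (fun l => u x l * u c l) + v.E (fun l => s x l * s c l) =
        v.E (fun l => u x l * u c l + s x l * s c l) := by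
      intro c
      simp only [Lev.E, Ex, mul_add, sum_add_distrib]
    simp only [Lev.f, e1]
    rw [add_E_sub, add_E_sum, ← sum_div, sub_div]
  have h2 : ∀ l, |(∑ i ∈ range n, (u x l * u (a i) l + s x l * s (a i) l)) -
        (u x l * u (∑ i ∈ range n, a i) l + s x l * s (∑ i ∈ range n, a i) l)| ≤
      ∑ j ∈ range n, ∑ i ∈ range j, ‖e x l‖ * ‖e (a i) l‖ * ‖e (a j) l‖ := by
    intro l
    have h3 : (∑ i ∈ range n, (u x l * u (a i) l + s x l * s (a i) l)) -
        (u x l * u (∑ i ∈ range n, a i) l + s x l * s (∑ i ∈ range n, a i) l) =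
        -((starRingEnd ℂ) (e x l) *
          (e (∑ i ∈ range n, a i) l - ∑ i ∈ range n, e (a i) l)).re := by
      rw [Complex.mul_re, Complex.conj_re, Complex.conj_im, Complex.sub_re, Complex.sub_im,
        Complex.re_sum, Complex.im_sum]
      simp only [e_re, e_im]
      rw [sum_add_distrib, ← mul_sum, ← mul_sum, sum_neg_distrib]
      ring
    rw [h3, abs_neg]
    refine (Complex.abs_re_le_norm _).trans ?_
    rw [norm_mul, RCLike.norm_conj]
    refine (mul_le_mul_of_nonneg_left (add_point a l n) (norm_nonneg _)).trans (le_of_eq ?_)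
    rw [mul_sum]
    refine sum_congr rfl fun j _ => ?_
    rw [mul_sum]
    exact sum_congr rfl fun i _ => by ring
  have h4 := add_abs_E v.toLev h2
  have h5 : v.E (fun l => ∑ j ∈ range n, ∑ i ∈ range j, ‖e x l‖ * ‖e (a i) l‖ * ‖e (a j) l‖) ≤
      ∑ j ∈ range n, (j : ℝ) * (4 * kap5 B * v.L) := by
    rw [add_E_sum]
    refine sum_le_sum fun j hj => ?_
    rw [add_E_sum]
    have hj' := mem_range.mp hj
    calc ∑ i ∈ range j, v.E (fun l => ‖e x l‖ * ‖e (a i) l‖ * ‖e (a j) l‖)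
        ≤ ∑ i ∈ range j, 4 * kap5 B * v.L := by
          refine sum_le_sum fun i hi => ?_
          exact add_trip v hB hx (ha i ((mem_range.mp hi).trans hj')) (ha j hj')
      _ = (j : ℝ) * (4 * kap5 B * v.L) := by
          rw [sum_const, card_range, nsmul_eq_mul]
  have h6 : ∑ j ∈ range n, (j : ℝ) ≤ (n : ℝ) ^ 2 / 2 := by
    have h := sum_range_id_mul_two n
    have h' : ((∑ i ∈ range n, i : ℕ) : ℝ) * 2 = ((n * (n - 1) : ℕ) : ℝ) := by exact_mod_cast h
    have h'' : ((n * (n - 1) : ℕ) : ℝ) ≤ (n : ℝ) ^ 2 := by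
      rw [sq]
      exact_mod_cast Nat.mul_le_mul_left n (Nat.sub_le n 1)
    push_cast at h'
    have h3 : (∑ j ∈ range n, (j : ℝ)) * 2 ≤ (n : ℝ) ^ 2 := by
      calc (∑ j ∈ range n, (j : ℝ)) * 2 = ((n * (n - 1) : ℕ) : ℝ) := by
            push_cast
            exact h'
        _ ≤ (n : ℝ) ^ 2 := h''
    linarith
  rw [h1, abs_div, abs_of_pos (by positivity : (0 : ℝ) < 2 * v.L), div_le_iff₀ (by positivity)]
  refine (h4.trans h5).trans ?_
  rw [← sum_mul]
  have h7 : (∑ j ∈ range n, (j : ℝ)) * (4 * kap5 B * v.L) ≤ (n : ℝ) ^ 2 / 2 * (4 * kap5 B * v.L) :=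
    mul_le_mul_of_nonneg_right h6 (by positivity)
  refine h7.trans (le_of_eq ?_)
  ring

theorem add5 (v : BLev p) {B : ℕ} (hN : Num5 v B) {x : ZMod p} (hx : x ∈ G15 v B) :
    PoolBe0380.E.AddW v.A (w5 B) (eps5 B) (v.f x) := by
  intro y y' hy hy' hyy
  have hB0 : (0 : ℝ) < B := by
    have := hN.B_ge
    exact_mod_cast (by omega : 0 < B)
  have hκ : 0 < kap5 B := by
    unfold kap5
    positivity
  have key : ∀ y : Fin (w5 B) → ZMod p, (∀ i, y i ∈ v.A) →
      |∑ i, v.f x (y i) - v.f x (∑ i, y i)| ≤ ((w5 B : ℕ) : ℝ) ^ 2 * kap5 B := by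
    intro y hy
    set a : ℕ → ZMod p := fun j => if h : j < w5 B then y ⟨j, h⟩ else 0 with ha
    have e1 : ∀ i : Fin (w5 B), y i = a i := by
      intro i
      rw [ha]
      simp only [i.2, dif_pos]
    have e2 : ∑ i, v.f x (y i) = ∑ i ∈ range (w5 B), v.f x (a i) := by
      rw [← Fin.sum_univ_eq_sum_range (fun i => v.f x (a i))]
      exact sum_congr rfl fun i _ => by rw [e1]
    have e3 : ∑ i, y i = ∑ i ∈ range (w5 B), a i := by
      rw [← Fin.sum_univ_eq_sum_range]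
      exact sum_congr rfl fun i _ => e1 i
    rw [e2, e3]
    refine add_one v hκ hx a (w5 B) fun i hi => ?_
    rw [ha]
    simp only [hi, dif_pos]
    exact hy _
  have h1 := key y hy
  have h2 := key y' hy'
  rw [← hyy] at h2
  have h3 : |∑ i, v.f x (y i) - ∑ i, v.f x (y' i)| ≤
      2 * (((w5 B : ℕ) : ℝ) ^ 2 * kap5 B) := by
    have h4 : ∑ i, v.f x (y i) - ∑ i, v.f x (y' i) =
        (∑ i, v.f x (y i) - v.f x (∑ i, y i)) - (∑ i, v.f x (y' i) - v.f x (∑ i, y i)) := by ring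
    rw [h4]
    refine (abs_sub _ _).trans ?_
    linarith
  refine h3.trans (le_of_eq ?_)
  unfold eps5 kap5 w5
  have e1 : (B : ℝ) ^ 28800000 = (B : ℝ) ^ 14400000 * (B : ℝ) ^ 14400000 := by rw [← pow_add]
  have e2 : (((B ^ 7200000 : ℕ)) : ℝ) ^ 2 = (B : ℝ) ^ 14400000 := by
    rw [Nat.cast_pow, ← pow_mul]
  rw [e1, e2]
  have h5 : (0 : ℝ) < (B : ℝ) ^ 14400000 := pow_pos hB0 _
  generalize (B : ℝ) ^ 14400000 = X at *
  field_simp

/-- additivity for two chips -/
theorem add5_two (v : BLev p) {B : ℕ} (hN : Num5 v B) {x : ZMod p} (hx : x ∈ G15 v B)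
    {q q' c d : ZMod p} (hq : q ∈ v.A) (hq' : q' ∈ v.A) (hc : c ∈ v.A) (hd : d ∈ v.A)
    (h : c + d = q + q') : |v.f x c + v.f x d - (v.f x q + v.f x q')| ≤ eps5 B := by
  have hB2 : 2 ≤ w5 B := by
    have h1 := hN.B_ge
    unfold w5
    calc 2 ≤ B := by omega
      _ ≤ B ^ 7200000 := Nat.le_self_pow (by norm_num) B
  obtain ⟨m, hm⟩ : ∃ m, w5 B = m + 2 := ⟨w5 B - 2, by omega⟩
  have hxA : x ∈ v.A := mem_A_of_supp (G15_sub v B hx)
  have h1 := add5 v hN hx
  rw [hm] at h1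
  have h2 := h1 (Fin.cons c (Fin.cons d fun _ => x)) (Fin.cons q (Fin.cons q' fun _ => x)) ?_ ?_ ?_
  · simp only [Fin.sum_univ_succ, Fin.cons_zero, Fin.cons_succ] at h2
    have e : v.f x c + (v.f x d + ∑ _i : Fin m, v.f x x) -
        (v.f x q + (v.f x q' + ∑ _i : Fin m, v.f x x)) =
        v.f x c + v.f x d - (v.f x q + v.f x q') := by ring
    rw [e] at h2
    exact h2
  · intro i
    refine Fin.cases ?_ (fun i => ?_) i
    · exact hc
    · refine Fin.cases ?_ (fun i => ?_) i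
      · exact hd
      · exact hxA
  · intro i
    refine Fin.cases ?_ (fun i => ?_) i
    · exact hq
    · refine Fin.cases ?_ (fun i => ?_) i
      · exact hq'
      · exact hxA
  · simp only [Fin.sum_univ_succ, Fin.cons_zero, Fin.cons_succ]
    rw [← add_assoc, ← add_assoc, h]

end Pool.MPbe0380.Gb
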