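import Pool.Agent.Lib.MP_be0380_co.T5.Defs
import Pool.Agent.Lib.MP_be0380_co.T5.Add
import Pool.Agent.Lib.MP_be0380_co.T5.Lif
import Pool.Agent.Lib.MP_be0380_co.E.Lean5

/-!
# be0380, module T5.Lea = (5.5) NO LEANING

Instance of PoolBe0380.E.no_leaning (E/Lean5.lean) with f = f_x, t = t_y, w = w5 B, eps = eps5 B, e1 = e15 B, kappa = 8 kap5 B ^ 2, T = M5 B,
N0 = 5 B^144720 (4 T/e1^2 + 1 = 4 B^720 B^144000 + 1): f_x(d) <= (t_y(d) + 2 eps)^(1/2) e1 <= e1. Conditions: 8 kappa N0 = 320 B^144720/B^57600000 <= sqrt(2 eps) e1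
(sqrt(2 eps) = 2/B^7200000, e1 = 1/B^72000); 4 sqrt(2 eps) N0 <= e1; 2 N0 (64 T N0^2/e1^2 + 1)^2 <= 10 B^144720 (1601 B^(720 + 289440 + 144000))^2 <= B^7200000 = w;
|f_x(c) - f_x(y)| <= dist(c - y) <= sqrt(2 t_y(c)) (Lev.f_lip, Lev.dist_sq_le); AddW for t_y = 1 - f_y from add5; t_y(c) >= 0 by Lev.f_le_one; t_y(y) = 0 (Lev.f_self);
T1: |f_x(y)| <= 2 kap^2 = kappa/4; T3; add5_two; psi = th (· - y) mu, mu from lift5 (th_additive with x = y; th_inj).
-/

set_option autoImplicit false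

open Finset

namespace Pool.MPbe0380.Gb

variable {p : ℕ} [Fact p.Prime]

private theorem lea_two {p : ℕ} [Fact p.Prime] (hp : 3 ≤ p) (x : ZMod p) (h : x + x = 0) : x = 0 := by
  have h1 : (2 : ZMod p) * x = 0 := by rw [two_mul]; exact h
  rcases mul_eq_zero.mp h1 with h2 | h2
  · exfalso
    have h3 : ((2 : ℕ) : ZMod p) = 0 := by exact_mod_cast h2
    rw [ZMod.natCast_eq_zero_iff] at h3
    have := Nat.le_of_dvd (by norm_num) h3
    omega
  · exact h2

/-- the numbers -/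
private theorem lea_num {b : ℝ} (hb3 : (1000 : ℝ) ≤ b) :
    4 * b ^ 720 / (1 / b ^ 72000) ^ 2 + 1 ≤ 5 * b ^ 144720 ∧
    8 * (8 * (1 / b ^ 28800000) ^ 2) * (5 * b ^ 144720) ≤ √(2 * (2 / b ^ 14400000)) * (1 / b ^ 72000) ∧
    4 * √(2 * (2 / b ^ 14400000)) * (5 * b ^ 144720) ≤ 1 / b ^ 72000 ∧
    2 * (5 * b ^ 144720) * (64 * b ^ 720 * (5 * b ^ 144720) ^ 2 / (1 / b ^ 72000) ^ 2 + 1) ^ 2 ≤
      b ^ 7200000 := by
  have hb0 : (0 : ℝ) < b := by linarith
  have hb1 : (1 : ℝ) ≤ b := by linarith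
  have hpow : ∀ n m : ℕ, n + 1 ≤ m → b ^ n * 1000 ≤ b ^ m := by
    intro n m hnm
    calc b ^ n * 1000 ≤ b ^ n * b := mul_le_mul_of_nonneg_left hb3 (by positivity)
      _ = b ^ (n + 1) := (pow_succ b n).symm
      _ ≤ b ^ m := pow_le_pow_right₀ hb1 hnm
  have hsq : √(2 * (2 / b ^ 14400000)) = 2 / b ^ 7200000 := by
    have h1 : 2 * (2 / b ^ 14400000) = (2 / b ^ 7200000) ^ 2 := by
      rw [div_pow, ← pow_mul, mul_div_assoc']
      norm_num
    rw [h1, Real.sqrt_sq (by positivity)]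
  have e2 : ∀ n : ℕ, (1 / b ^ n) ^ 2 = 1 / b ^ (2 * n) := by
    intro n
    rw [div_pow, one_pow, ← pow_mul, mul_comm n 2]
  rw [hsq, e2, e2]
  refine ⟨?_, ?_, ?_, ?_⟩
  · rw [div_div_eq_mul_div, div_one, mul_assoc, ← pow_add]
    have h1 : 1 ≤ b ^ 144720 := one_le_pow₀ hb1
    have h2 : b ^ (720 + 2 * 72000) = b ^ 144720 := by norm_num
    rw [h2]
    linarith
  · have h1 : 8 * (8 * (1 / b ^ (2 * 28800000))) * (5 * b ^ 144720) =
        320 * b ^ 144720 / b ^ (2 * 28800000) := by ring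
    have h2 : 2 / b ^ 7200000 * (1 / b ^ 72000) = 2 / (b ^ 7200000 * b ^ 72000) := by
      rw [div_mul_div_comm, mul_one]
    rw [h1, h2, div_le_div_iff₀ (by positivity) (by positivity), ← pow_add, mul_assoc, ← pow_add]
    have h3 := hpow (144720 + (7200000 + 72000)) (2 * 28800000) (by norm_num)
    have h4 : 0 < b ^ (144720 + (7200000 + 72000)) := by positivity
    linarith
  · have h1 : 4 * (2 / b ^ 7200000) * (5 * b ^ 144720) = 40 * b ^ 144720 / b ^ 7200000 := by ring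
    rw [h1, div_le_div_iff₀ (by positivity) (by positivity), mul_assoc, ← pow_add]
    have h3 := hpow (144720 + 72000) 7200000 (by norm_num)
    have h4 : 0 < b ^ (144720 + 72000) := by positivity
    linarith
  · have h1 : 64 * b ^ 720 * (5 * b ^ 144720) ^ 2 / (1 / b ^ (2 * 72000)) = 1600 * b ^ 434160 := by
      rw [div_div_eq_mul_div, div_one, mul_pow, ← pow_mul]
      have h2 : 64 * b ^ 720 * (5 ^ 2 * b ^ (144720 * 2)) * b ^ (2 * 72000) =
          1600 * (b ^ 720 * b ^ (144720 * 2) * b ^ (2 * 72000)) := by ring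
      rw [h2, ← pow_add, ← pow_add]
    have h3 : 1 ≤ b ^ 434160 := one_le_pow₀ hb1
    have h4 : 1600 * b ^ 434160 + 1 ≤ 1601 * b ^ 434160 := by linarith
    rw [h1]
    have h5 : (1600 * b ^ 434160 + 1) ^ 2 ≤ (1601 * b ^ 434160) ^ 2 :=
      pow_le_pow_left₀ (by positivity) h4 2
    have h6 : 2 * (5 * b ^ 144720) * (1600 * b ^ 434160 + 1) ^ 2 ≤
        2 * (5 * b ^ 144720) * (1601 * b ^ 434160) ^ 2 :=
      mul_le_mul_of_nonneg_left h5 (by positivity)
    refine h6.trans ?_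
    have h7 : 2 * (5 * b ^ 144720) * (1601 * b ^ 434160) ^ 2 = 25632010 * b ^ 1013040 := by
      rw [mul_pow, ← pow_mul]
      have h8 : 2 * (5 * b ^ 144720) * (1601 ^ 2 * b ^ (434160 * 2)) =
          25632010 * (b ^ 144720 * b ^ (434160 * 2)) := by ring
      rw [h8, ← pow_add]
    rw [h7]
    have h9 := hpow 1013040 1013041 (by norm_num)
    have h10 := hpow 1013041 1013042 (by norm_num)
    have h11 := hpow 1013042 7200000 (by norm_num)
    have h12 : 0 < b ^ 1013040 := by positivity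
    linarith

theorem lean5 (v : BLev p) {B : ℕ} (hN : Num5 v B) {t : ℝ} {x y : ZMod p} (hx : x ∈ G15 v B)
    (hy : y ∈ G15 v B) (h1 : Typ v B t x y) (h2 : Typ v B t y x) {d : ZMod p} (hd : d ∈ v.A)
    (h : v.t y d ≤ 6 / 10) : v.f x d ≤ e15 B := by
  have hxs := G15_sub v B hx
  have hys := G15_sub v B hy
  have hyA := mem_A_of_supp hys
  obtain ⟨b, hb⟩ : ∃ b : ℝ, b = B := ⟨_, rfl⟩
  have hb3 : (1000 : ℝ) ≤ b := by rw [hb]; exact_mod_cast hN.B_ge
  have hb0 : (0 : ℝ) < b := by linarith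
  have hb1 : (1 : ℝ) ≤ b := by linarith
  obtain ⟨n1, n2, n3, n4⟩ := lea_num hb3
  obtain ⟨μ, hμ, -, hY⟩ := lift5 v hN hx hy h1.T0 h2.T0
  have hadd : PoolBe0380.E.AddW v.A (w5 B) (eps5 B) (v.t y) := by
    intro a a' ha ha' hs
    have h3 := add5 v hN hy a a' ha ha' hs
    have h4 : ∑ i, v.t y (a i) - ∑ i, v.t y (a' i) = -(∑ i, v.f y (a i) - ∑ i, v.f y (a' i)) := by
      unfold Lev.t
      rw [sum_sub_distrib, sum_sub_distrib]
      ring
    rw [h4, abs_neg]
    exact h3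
  have hmem : ∀ c ∈ v.A.filter (fun c => v.t y c ≤ 7 / 10), |th (c - y) μ| < Real.pi / 4 := by
    intro c hc
    rw [mem_filter] at hc
    exact hY c (mem_X5.2 hc)
  have hmain := PoolBe0380.E.no_leaning (A := v.A) v.nus (lea_two v.p_odd) (w := w5 B)
    (f := v.f x) (t := v.t y) (ε := eps5 B) (e1 := e15 B) (κ := 8 * kap5 B ^ 2) (T := M5 B)
    (N0 := 5 * b ^ 144720) (y := y) hyA
    (by unfold eps5; rw [← hb]; positivity) (by unfold e15; rw [← hb]; positivity)
    (by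
      unfold e15
      rw [← hb, div_le_one (by positivity)]
      exact one_le_pow₀ hb1)
    (by unfold M5; rw [← hb]; exact one_le_pow₀ hb1)
    (by unfold M5 e15; rw [← hb]; exact n1)
    (by unfold eps5 kap5 e15; rw [← hb]; exact n2)
    (by unfold eps5 e15; rw [← hb]; exact n3)
    (by unfold M5 e15 w5; push_cast; rw [← hb]; exact n4)
    (fun c hc => v.f_le_one hxs hc)
    (fun c hc => by
      have := v.f_le_one hys hc
      unfold Lev.t
      linarith)
    (by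
      have := v.f_self hys
      unfold Lev.t
      linarith)
    (by
      have := h1.T1
      linarith)
    (fun c hc => by
      refine (v.f_lip hxs c y).trans (Real.le_sqrt_of_sq_le ?_)
      exact v.dist_sq_le hys hc)
    (fun a ha b' hb' c hc d hd hs => add5_two v hN hx hc hd ha hb' hs)
    hadd
    (fun r g hr1 hr2 hg1 hg2 => by
      have h3 := h1.T3 r g hr1 hr2 hg1 hg2
      refine le_trans (le_of_eq ?_) h3
      congr 1)
    (ψ := fun c => th (c - y) μ)
    (fun a _ b' _ hab => sub_left_injective (th_inj hμ hab))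
    (fun a ha b' hb' c hc d hd hs =>
      th_additive (hmem a ha) (hmem b' hb') (hmem c hc) (hmem d hd) hs)
  refine (hmain d hd h).trans ?_
  have h3 : √(v.t y d + 2 * eps5 B) ≤ 1 := by
    rw [Real.sqrt_le_one]
    have h4 : eps5 B ≤ 1 / 10 := by
      unfold eps5
      rw [← hb, div_le_div_iff₀ (by positivity) (by norm_num)]
      have h5 : b ^ 1 * 1000 ≤ b ^ 14400000 := by
        calc b ^ 1 * 1000 ≤ b ^ 1 * b := mul_le_mul_of_nonneg_left hb3 (by positivity)
          _ = b ^ 2 := by ring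
          _ ≤ b ^ 14400000 := pow_le_pow_right₀ hb1 (by norm_num)
      rw [pow_one] at h5
      linarith
    linarith
  have h4 : 0 ≤ e15 B := by unfold e15; rw [← hb]; positivity
  calc √(v.t y d + 2 * eps5 B) * e15 B ≤ 1 * e15 B := mul_le_mul_of_nonneg_right h3 h4
    _ = e15 B := one_mul _

end Pool.MPbe0380.Gb
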