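import Pool.Agent.Lib.MP_be0380_co.T5.Defs
import Pool.Agent.Lib.MP_be0380_co.T5.Add
import Pool.Agent.Lib.MP_be0380_co.E.Edge

/-!
# be0380, module T5.Edg = (5.4) EDGE LEMMA for f_x, f_y

Instance of PoolBe0380.E.edge (w = w5 B, eps = eps5 B, e0 = e05 B): 4 eps <= e0; f_x, f_y <= 1 on A (Lev.f_le_one); add5; (T2) with
g = e0/2 (>= 4 kap^2): the number of c with f_x, f_y >= e0/2 is <= M 16/e0^4 = 16 B^720 B^5760000 < B^7200000 = w; E in A with #E < w:
9^#E <= 9^w < p since w log 9 <= 3 B^7200000 ... <= log p (Num5.w_le): take mu from `pigeon` and psi = th (·) mu (th_additive with x = y = 0, th_inj).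
(x + x = 0 implies x = 0 as p is odd. The NUS of E.Reach is the same statement as Gb.NUS.)
-/

set_option autoImplicit false

open Finset

namespace Pool.MPbe0380.Gb

variable {p : ℕ} [Fact p.Prime]

private theorem edg_two {p : ℕ} [Fact p.Prime] (hp : 3 ≤ p) (x : ZMod p) (h : x + x = 0) : x = 0 := by
  have h1 : (2 : ZMod p) * x = 0 := by rw [two_mul]; exact h
  rcases mul_eq_zero.mp h1 with h2 | h2
  · exfalso
    have h3 : ((2 : ℕ) : ZMod p) = 0 := by exact_mod_cast h2
    rw [ZMod.natCast_eq_zero_iff] at h3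
    have := Nat.le_of_dvd (by norm_num) h3
    omega
  · exact h2

theorem edge5 (v : BLev p) {B : ℕ} (hN : Num5 v B) {t : ℝ} {x y : ZMod p} (hx : x ∈ G15 v B)
    (hy : y ∈ G15 v B) (h1 : Typ v B t x y) (h2 : Typ v B t y x) :
    ∀ c ∈ v.A, v.f x c + v.f y c ≤ 1 + e05 B := by
  have hB : (1000 : ℝ) ≤ B := by exact_mod_cast hN.B_ge
  have hB0 : (0 : ℝ) < B := by linarith
  have hB1 : (1 : ℝ) ≤ B := by linarith
  have hxs := G15_sub v B hx
  have hys := G15_sub v B hy
  obtain ⟨b, hb⟩ : ∃ b : ℝ, b = B := ⟨_, rfl⟩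
  have hb3 : (1000 : ℝ) ≤ b := by rw [hb]; exact hB
  have hb0 : (0 : ℝ) < b := by linarith
  have hb1 : (1 : ℝ) ≤ b := by linarith
  -- b ^ n * c ≤ b ^ m
  have hpow : ∀ n m : ℕ, n + 1 ≤ m → b ^ n * 1000 ≤ b ^ m := by
    intro n m hnm
    calc b ^ n * 1000 ≤ b ^ n * b := mul_le_mul_of_nonneg_left hb3 (by positivity)
      _ = b ^ (n + 1) := (pow_succ b n).symm
      _ ≤ b ^ m := pow_le_pow_right₀ hb1 hnm
  have hT2 : ((v.A.filter fun c => e05 B / 2 ≤ v.f x c ∧ e05 B / 2 ≤ v.f y c).card : ℝ) <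
      (w5 B : ℝ) := by
    have hk : 4 * kap5 B ^ 2 ≤ e05 B / 2 := by
      unfold kap5 e05
      rw [← hb, div_pow, one_pow, ← pow_mul, mul_one_div, div_div,
        div_le_div_iff₀ (by positivity) (by positivity)]
      have := hpow 1440000 (28800000 * 2) (by norm_num)
      have h3 : 0 < b ^ 1440000 := by positivity
      linarith
    have hg1 : e05 B / 2 ≤ 1 := by
      unfold e05
      rw [← hb, div_div, div_le_one (by positivity)]
      have := one_le_pow₀ hb1 (n := 1440000)
      linarith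
    have h3 := h1.T2 (e05 B / 2) hk hg1
    have h4 : M5 B / (e05 B / 2) ^ 4 < (w5 B : ℝ) := by
      unfold M5 e05 w5
      push_cast
      rw [← hb, div_div, div_pow, one_pow, mul_pow, ← pow_mul, div_div_eq_mul_div, div_one]
      have h5 := hpow (720 + 1440000 * 4) 7200000 (by norm_num)
      have h6 : b ^ (720 + 1440000 * 4) = b ^ 720 * b ^ (1440000 * 4) := pow_add _ _ _
      have h7 : 0 < b ^ (720 + 1440000 * 4) := by positivity
      rw [h6] at h5 h7
      have h8 : b ^ 720 * (b ^ (1440000 * 4) * 2 ^ 4) = b ^ 720 * b ^ (1440000 * 4) * 16 := by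
        rw [← mul_assoc]
        norm_num
      rw [h8]
      linarith
    refine lt_of_le_of_lt (le_trans ?_ h3) h4
    have h5 : (v.A.filter fun c => e05 B / 2 ≤ v.f x c ∧ e05 B / 2 ≤ v.f y c).card ≤
        (v.A.filter (fun c => e05 B / 2 ≤ |v.f x c| ∧ e05 B / 2 ≤ |v.f y c|)).card := by
      refine card_le_card fun c hc => ?_
      rw [mem_filter] at hc ⊢
      exact ⟨hc.1, hc.2.1.trans (le_abs_self _), hc.2.2.trans (le_abs_self _)⟩
    exact_mod_cast h5
  have hT2' : (v.A.filter fun c => e05 B / 2 ≤ v.f x c ∧ e05 B / 2 ≤ v.f y c).card < w5 B := by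
    exact_mod_cast hT2
  refine PoolBe0380.E.edge (w := w5 B) (ε := eps5 B) v.nus (edg_two v.p_odd) ?_
    (fun c hc => v.f_le_one hxs hc) (fun c hc => v.f_le_one hys hc) (add5 v hN hx) (add5 v hN hy)
    hT2' ?_
  · unfold eps5 e05
    rw [← hb, mul_div_assoc', div_le_div_iff₀ (by positivity) (by positivity)]
    have h3 := hpow 1440000 14400000 (by norm_num)
    have h4 : 0 < b ^ 1440000 := by positivity
    linarith
  · intro E hEA hE
    have h9 : 9 ^ E.card < p := by
      have hp0 : (0 : ℝ) < p := by exact_mod_cast (Fact.out : p.Prime).pos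
      have h3 : Real.log ((9 : ℝ) ^ E.card) < Real.log p := by
        rw [Real.log_pow]
        have h4 : Real.log 9 < 3 := by
          have h5 : (9 : ℝ) = 3 ^ 2 := by norm_num
          rw [h5, Real.log_pow]
          have h6 : Real.log 3 < 1.5 := by
            have h7 : Real.log (3 : ℝ) < Real.log 4 := Real.log_lt_log (by norm_num) (by norm_num)
            have h8 : (4 : ℝ) = 2 ^ 2 := by norm_num
            rw [h8, Real.log_pow] at h7
            have := Real.log_two_lt_d9
            push_cast at h7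
            linarith
          push_cast
          linarith
        have h5 : (E.card : ℝ) < (w5 B : ℝ) := by exact_mod_cast hE
        have h6 : (w5 B : ℝ) = (B : ℝ) ^ 7200000 := by unfold w5; push_cast; rfl
        have h7 := hN.w_le
        rw [← h6] at h7
        have h8 : 0 ≤ Real.log 9 := Real.log_nonneg (by norm_num)
        have h10 : (0 : ℝ) ≤ E.card := Nat.cast_nonneg _
        have h11 : (E.card : ℝ) * Real.log 9 ≤ E.card * 3 := mul_le_mul_of_nonneg_left h4.le h10
        linarith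
      have h4 := (Real.log_lt_log_iff (by positivity) hp0).mp h3
      exact_mod_cast h4
    obtain ⟨μ, hμ, hall⟩ := pigeon E h9
    refine ⟨fun c => th c μ, fun a _ b' _ hab => th_inj hμ hab, ?_⟩
    intro a ha b' hb' c hc d hd hs
    have h3 : ∀ c ∈ E, |th (c - 0) μ| < Real.pi / 4 := fun c hc => by
      rw [sub_zero]; exact hall c hc
    have h4 := th_additive (h3 a ha) (h3 b' hb') (h3 c hc) (h3 d hd) hs
    rw [sub_zero, sub_zero, sub_zero, sub_zero] at h4
    exact h4

end Pool.MPbe0380.Gb
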