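import Pool.Agent.Lib.MP_be0380_co.T5.Defs
import Pool.Agent.Lib.MP_be0380_co.T5.Add
import Pool.Agent.Lib.MP_be0380_co.T5.Edg
import Pool.Agent.Lib.MP_be0380_co.T5.Lea

/-!
# be0380, module T5.Twi = (5.6) TWINS

F = f_x + f_y. F(c) + F(d) >= F(q) + F(q') - 2 eps >= 2 - 4s - 2 eps (t_x(q), |f_y(q)|, t_y(q'), |f_x(q')| <= s; add5_two), F <= 1 + e0 (edge5):
F(c), F(d) >= 1 - 4s - 2 eps - e0 >= 1 - 5s (e0 + 2 eps <= e1/10 <= s/10). If f_y(c) >= f_x(c): f_y(c) >= (1-5s)/2, t_y(c) <= 6/10, so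
f_x(c) <= e1 (lean5), f_y(c) >= 1 - 5s - e1, t_y(c) <= 6s. If f_x(c) > f_y(c): t_x(c) <= 6s likewise. The same for d. Both t_x(c), t_x(d) <= 6s:
f_x(c) + f_x(d) >= 2 - 12 s > 1 + s + eps >= f_x(q) + f_x(q') + eps, contradiction to add5_two; likewise for y.
-/

set_option autoImplicit false

open Finset

namespace Pool.MPbe0380.Gb

variable {p : ℕ} [Fact p.Prime]

/-- a much smaller power -/
theorem twi_inv_pow {B : ℝ} (hB : 1000 ≤ B) {m n : ℕ} (h : m + 1 ≤ n) :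
    1 / B ^ n ≤ 1 / B ^ m / 1000 := by
  have hB1 : 1 ≤ B := by linarith
  have hB0 : 0 < B := by linarith
  rw [div_div]
  apply one_div_le_one_div_of_le (by positivity)
  calc B ^ m * 1000 ≤ B ^ m * B := mul_le_mul_of_nonneg_left hB (by positivity)
    _ = B ^ (m + 1) := (pow_succ B m).symm
    _ ≤ B ^ n := pow_le_pow_right₀ hB1 h

theorem twi_num {B : ℕ} (hB : 1000 ≤ B) : e05 B + 2 * eps5 B ≤ e15 B / 10 ∧ 0 < e15 B ∧
    0 < eps5 B ∧ 0 < e05 B := by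
  have hBR : (1000 : ℝ) ≤ (B : ℝ) := by exact_mod_cast hB
  have hB0 : (0 : ℝ) < (B : ℝ) := by linarith
  have h1 := twi_inv_pow hBR (m := 72000) (n := 1440000) (by norm_num)
  have h2 := twi_inv_pow hBR (m := 72000) (n := 14400000) (by norm_num)
  have h3 : 0 < e15 B := by unfold e15; positivity
  have h4 : 0 < eps5 B := by unfold eps5; positivity
  have h5 : 0 < e05 B := by unfold e05; positivity
  have e1 : eps5 B = 2 * (1 / (B : ℝ) ^ 14400000) := by unfold eps5; ring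
  have e2 : e05 B = 1 / (B : ℝ) ^ 1440000 := rfl
  have e3 : e15 B = 1 / (B : ℝ) ^ 72000 := rfl
  refine ⟨?_, h3, h4, h5⟩
  rw [e1, e2]
  rw [← e3] at h1 h2
  linarith

theorem twins5 (v : BLev p) {B : ℕ} (hN : Num5 v B) {t : ℝ} {x y : ZMod p} (hx : x ∈ G15 v B)
    (hy : y ∈ G15 v B) (h1 : Typ v B t x y) (h2 : Typ v B t y x) {s : ℝ} (hs1 : e15 B ≤ s)
    (hs2 : s ≤ 1 / 100) {q q' c d : ZMod p} (hq : q ∈ v.A) (hq' : q' ∈ v.A) (hc : c ∈ v.A)
    (hd : d ∈ v.A) (h : c + d = q + q') (hq1 : v.t x q ≤ s) (hq2 : |v.f y q| ≤ s)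
    (hq1' : v.t y q' ≤ s) (hq2' : |v.f x q'| ≤ s) :
    (v.t x c ≤ 6 * s ∧ v.t y d ≤ 6 * s) ∨ (v.t x d ≤ 6 * s ∧ v.t y c ≤ 6 * s) := by
  obtain ⟨n1, n2, n3, n4⟩ := twi_num hN.B_ge
  have hxs := G15_sub v B hx
  have hys := G15_sub v B hy
  have ax := abs_le.mp (add5_two v hN hx hq hq' hc hd h)
  have ay := abs_le.mp (add5_two v hN hy hq hq' hc hd h)
  have b1 := abs_le.mp hq2
  have b2 := abs_le.mp hq2'
  have ec := edge5 v hN hx hy h1 h2 c hc
  have ed := edge5 v hN hx hy h1 h2 d hd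
  have f1 := v.f_le_one hxs hq
  have f2 := v.f_le_one hys hq'
  have tq : v.t x q = 1 - v.f x q := rfl
  have tq' : v.t y q' = 1 - v.f y q' := rfl
  have key : ∀ a ∈ v.A, 1 - 4 * s - 2 * eps5 B - e05 B ≤ v.f x a + v.f y a →
      v.t x a ≤ 6 * s ∨ v.t y a ≤ 6 * s := by
    intro a ha hF
    have txa : v.t x a = 1 - v.f x a := rfl
    have tya : v.t y a = 1 - v.f y a := rfl
    rcases le_or_gt (v.f x a) (v.f y a) with hle | hlt
    · right
      have h6 : v.t y a ≤ 6 / 10 := by linarith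
      have h7 := lean5 v hN hx hy h1 h2 ha h6
      linarith
    · left
      have h6 : v.t x a ≤ 6 / 10 := by linarith
      have h7 := lean5 v hN hy hx h2 h1 ha h6
      linarith
  have txc : v.t x c = 1 - v.f x c := rfl
  have tyc : v.t y c = 1 - v.f y c := rfl
  have txd : v.t x d = 1 - v.f x d := rfl
  have tyd : v.t y d = 1 - v.f y d := rfl
  have kc := key c hc (by linarith)
  have kd := key d hd (by linarith)
  rcases kc with kc | kc <;> rcases kd with kd | kd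
  · exfalso
    linarith
  · exact Or.inl ⟨kc, kd⟩
  · exact Or.inr ⟨kd, kc⟩
  · exfalso
    linarith

end Pool.MPbe0380.Gb
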