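import Pool.Agent.Lib.MP_be0380_co.T5.Defs
import Pool.Agent.Lib.MP_be0380_co.T5.Add
import Pool.Agent.Lib.MP_be0380_co.T5.Lea
import Pool.Agent.Lib.MP_be0380_co.T5.Twi

/-!
# be0380, module T5.Sta = (5.7), (*) and the size of the exceptional set

EX5 x y = {x} with {c in X(t) : t - 3 e1 < t_x(c) or e1 <= |f_y(c)|}.
star5: twins5 with s = t (e1 <= t <= 1/100: 20 rho <= t <= 40 rho = 40/B^240): (up to exchanging c and d) t_x(c), t_y(d) <= 6t <= 6/10; lean5: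
f_x(d) <= e1; add5_two: f_x(c) >= f_x(q) + f_x(q') - f_x(d) - eps >= 1 - (t - 3 e1) - e1 - e1 - eps >= 1 - t, so t_x(c) <= t. The same for d with x, y
exchanged (f_y(c) <= e1 by lean5 with t_x(c) <= 6/10; f_y(q) >= -e1).
card_EX5: <= 1 + Sh + T3 (for (y,x), r = t, g = e1): 1 + D/B^70000 + B^720 t B^144000 <= D/B^60000 (D >= B^1000000000; 8 kap^2 <= e1, 2 eps <= t <= 7/10).
-/

set_option autoImplicit false

open Finset

namespace Pool.MPbe0380.Gb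

variable {p : ℕ} [Fact p.Prime]

open Classical in
/-- the exceptional set of `X(t)` for `x` -/
noncomputable def EX5 (v : BLev p) (B : ℕ) (t : ℝ) (x y : ZMod p) : Finset (ZMod p) :=
  insert x ((X5 v t x).filter (fun c => t - 3 * e15 B < v.t x c ∨ e15 B ≤ |v.f y c|))

theorem sta_num {B : ℕ} (hB : 1000 ≤ B) {t : ℝ} (ht1 : 20 * rho5 B ≤ t) (ht2 : t ≤ 40 * rho5 B) :
    e15 B ≤ t ∧ t ≤ 1 / 100 ∧ 2 * eps5 B ≤ t ∧ 8 * kap5 B ^ 2 ≤ e15 B ∧ e15 B ≤ 1 := by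
  have hBR : (1000 : ℝ) ≤ (B : ℝ) := by exact_mod_cast hB
  have hB0 : (0 : ℝ) < (B : ℝ) := by linarith
  have hB1 : (1 : ℝ) ≤ (B : ℝ) := by linarith
  have h1 := twi_inv_pow hBR (m := 240) (n := 72000) (by norm_num)
  have h2 := twi_inv_pow hBR (m := 72000) (n := 14400000) (by norm_num)
  have h3 := twi_inv_pow hBR (m := 72000) (n := 57600000) (by norm_num)
  have h4 : 1 / (B : ℝ) ^ 240 ≤ 1 / 1000 / 1000 := by
    have h := twi_inv_pow hBR (m := 1) (n := 240) (by norm_num)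
    have h' : 1 / (B : ℝ) ^ 1 ≤ 1 / 1000 := by
      rw [pow_one]
      exact one_div_le_one_div_of_le (by norm_num) hBR
    linarith
  have e3 : e15 B = 1 / (B : ℝ) ^ 72000 := rfl
  have e4 : rho5 B = 1 / (B : ℝ) ^ 240 := rfl
  have e5 : eps5 B = 2 * (1 / (B : ℝ) ^ 14400000) := by unfold eps5; ring
  have e6 : kap5 B ^ 2 = 1 / (B : ℝ) ^ 57600000 := by
    unfold kap5
    rw [div_pow, one_pow, ← pow_mul]
  have h5 : 0 < 1 / (B : ℝ) ^ 240 := by positivity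
  rw [e4] at ht1 ht2
  rw [e3, e5, e6]
  refine ⟨by linarith, by linarith, by linarith, ?_, by linarith⟩
  have h6 : 0 < 1 / (B : ℝ) ^ 72000 := by positivity
  linarith

theorem mem_EX5 {v : BLev p} {B : ℕ} {t : ℝ} {x y c : ZMod p} :
    c ∈ EX5 v B t x y ↔ c = x ∨
      (c ∈ X5 v t x ∧ (t - 3 * e15 B < v.t x c ∨ e15 B ≤ |v.f y c|)) := by
  classical
  unfold EX5
  rw [mem_insert, mem_filter]

theorem star5 (v : BLev p) {B : ℕ} (hN : Num5 v B) {t : ℝ} (ht1 : 20 * rho5 B ≤ t)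
    (ht2 : t ≤ 40 * rho5 B) {x y : ZMod p} (hx : x ∈ G15 v B)
    (hy : y ∈ G15 v B) (h1 : Typ v B t x y) (h2 : Typ v B t y x) {q q' c d : ZMod p}
    (hq : q ∈ X5 v t x) (hq' : q' ∈ X5 v t y) (hqE : q ∉ EX5 v B t x y) (hqE' : q' ∉ EX5 v B t y x)
    (hc : c ∈ v.A) (hd : d ∈ v.A) (h : c + d = q + q') :
    (c ∈ X5 v t x ∧ d ∈ X5 v t y) ∨ (d ∈ X5 v t x ∧ c ∈ X5 v t y) := by
  obtain ⟨n1, n2, n3, n4, n5⟩ := sta_num hN.B_ge ht1 ht2
  obtain ⟨m1, m2, m3, m4⟩ := twi_num hN.B_ge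
  obtain ⟨hqA, hqt⟩ := mem_X5.mp hq
  obtain ⟨hqA', hqt'⟩ := mem_X5.mp hq'
  rw [mem_EX5] at hqE hqE'
  push Not at hqE hqE'
  obtain ⟨a1, a2⟩ := hqE.2 hq
  obtain ⟨a1', a2'⟩ := hqE'.2 hq'
  -- the exchange step
  have step : ∀ x' ∈ G15 v B, ∀ y' ∈ G15 v B, Typ v B t x' y' → Typ v B t y' x' →
      ∀ r ∈ v.A, ∀ r' ∈ v.A, ∀ c' ∈ v.A, ∀ d' ∈ v.A, c' + d' = r + r' →
      v.t x' r ≤ t - 3 * e15 B → |v.f x' r'| < e15 B → v.t y' d' ≤ 6 * t → c' ∈ X5 v t x' := by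
    intro x' hx' y' hy' g1 g2 r hr r' hr' c' hc' d' hd' hs b1 b2 b3
    have k1 := lean5 v hN hx' hy' g1 g2 hd' (by linarith)
    have k2 := abs_le.mp (add5_two v hN hx' hr hr' hc' hd' hs)
    have k3 := abs_lt.mp b2
    rw [mem_X5]
    refine ⟨hc', ?_⟩
    have e1 : v.t x' c' = 1 - v.f x' c' := rfl
    have e2 : v.t x' r = 1 - v.f x' r := rfl
    linarith
  have comm1 : d + c = q' + q := by rw [add_comm d c, h, add_comm]
  have comm2 : c + d = q' + q := by rw [h, add_comm]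
  have comm3 : d + c = q + q' := by rw [add_comm d c, h]
  rcases twins5 v hN hx hy h1 h2 n1 n2 hqA hqA' hc hd h hqt (by linarith) hqt' (by linarith) with
    ⟨k1, k2⟩ | ⟨k1, k2⟩
  · left
    exact ⟨step x hx y hy h1 h2 q hqA q' hqA' c hc d hd h a1 a2' k2,
      step y hy x hx h2 h1 q' hqA' q hqA d hd c hc comm1 a1' a2 k1⟩
  · right
    exact ⟨step x hx y hy h1 h2 q hqA q' hqA' d hd c hc comm3 a1 a2' k2,
      step y hy x hx h2 h1 q' hqA' q hqA c hc d hd comm2 a1' a2 k1⟩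

theorem card_EX5 (v : BLev p) {B : ℕ} (hN : Num5 v B) {t : ℝ} (ht1 : 20 * rho5 B ≤ t)
    (ht2 : t ≤ 40 * rho5 B) {x y : ZMod p} (hx : x ∈ G15 v B)
    (hy : y ∈ G15 v B) (h1 : Typ v B t x y) (h2 : Typ v B t y x) :
    ((EX5 v B t x y).card : ℝ) ≤ v.D / (B : ℝ) ^ 60000 := by
  classical
  obtain ⟨n1, n2, n3, n4, n5⟩ := sta_num hN.B_ge ht1 ht2
  have hBR : (1000 : ℝ) ≤ (B : ℝ) := by exact_mod_cast hN.B_ge
  have hB0 : (0 : ℝ) < (B : ℝ) := by linarith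
  have hB1 : (1 : ℝ) ≤ (B : ℝ) := by linarith
  have c1 := h1.Sh
  have c2 := h2.T3 t (e15 B) n3 (by linarith) n4 n5
  have hsub : EX5 v B t x y ⊆ insert x
      ((v.A.filter (fun c => t - 3 * e15 B < v.t x c ∧ v.t x c ≤ t)) ∪
        (v.A.filter (fun c => v.t x c ≤ t ∧ e15 B ≤ |v.f y c|))) := by
    intro c hc
    rw [mem_EX5] at hc
    rw [mem_insert, mem_union, mem_filter, mem_filter]
    rcases hc with hc | ⟨hc, hc' | hc'⟩
    · exact Or.inl hc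
    · exact Or.inr (Or.inl ⟨(mem_X5.mp hc).1, hc', (mem_X5.mp hc).2⟩)
    · exact Or.inr (Or.inr ⟨(mem_X5.mp hc).1, (mem_X5.mp hc).2, hc'⟩)
  have hcard : ((EX5 v B t x y).card : ℝ) ≤
      ((v.A.filter (fun c => t - 3 * e15 B < v.t x c ∧ v.t x c ≤ t)).card : ℝ) +
        ((v.A.filter (fun c => v.t x c ≤ t ∧ e15 B ≤ |v.f y c|)).card : ℝ) + 1 := by
    have h3 := (card_le_card hsub).trans (card_insert_le _ _)
    have h4 := card_union_le (v.A.filter (fun c => t - 3 * e15 B < v.t x c ∧ v.t x c ≤ t))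
      (v.A.filter (fun c => v.t x c ≤ t ∧ e15 B ≤ |v.f y c|))
    exact_mod_cast (by omega :
      (EX5 v B t x y).card ≤ (v.A.filter (fun c => t - 3 * e15 B < v.t x c ∧ v.t x c ≤ t)).card +
        (v.A.filter (fun c => v.t x c ≤ t ∧ e15 B ≤ |v.f y c|)).card + 1)
  have hD : 0 < v.D := lt_of_lt_of_le (by positivity) hN.D_big
  -- the second set
  have e1 : (e15 B) ^ 2 = 1 / (B : ℝ) ^ 144000 := by
    unfold e15
    rw [div_pow, one_pow, ← pow_mul]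
  have c3 : M5 B * t / e15 B ^ 2 ≤ (B : ℝ) ^ 144720 := by
    rw [e1, div_div_eq_mul_div, div_one]
    have h5 : M5 B * t ≤ (B : ℝ) ^ 720 := by
      unfold M5
      calc (B : ℝ) ^ 720 * t ≤ (B : ℝ) ^ 720 * 1 :=
            mul_le_mul_of_nonneg_left (by linarith) (by positivity)
        _ = (B : ℝ) ^ 720 := mul_one _
    calc M5 B * t * (B : ℝ) ^ 144000 ≤ (B : ℝ) ^ 720 * (B : ℝ) ^ 144000 :=
          mul_le_mul_of_nonneg_right h5 (by positivity)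
      _ = (B : ℝ) ^ 144720 := by rw [← pow_add]
  have c4 : (B : ℝ) ^ 144720 ≤ v.D / (B : ℝ) ^ 60000 / 1000 := by
    rw [div_div, le_div_iff₀ (by positivity)]
    calc (B : ℝ) ^ 144720 * ((B : ℝ) ^ 60000 * 1000) ≤
          (B : ℝ) ^ 144720 * ((B : ℝ) ^ 60000 * (B : ℝ) ^ 1) := by
          rw [pow_one]
          exact mul_le_mul_of_nonneg_left (mul_le_mul_of_nonneg_left hBR (by positivity))
            (by positivity)
      _ = (B : ℝ) ^ 204721 := by rw [← pow_add, ← pow_add]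
      _ ≤ (B : ℝ) ^ 1000000000 := pow_le_pow_right₀ hB1 (by norm_num)
      _ ≤ v.D := hN.D_big
  have c5 : (1 : ℝ) ≤ (B : ℝ) ^ 144720 := one_le_pow₀ hB1
  have c6 : v.D / (B : ℝ) ^ 70000 ≤ v.D / (B : ℝ) ^ 60000 / 1000 := by
    have h6 := twi_inv_pow hBR (m := 60000) (n := 70000) (by norm_num)
    have h7 := mul_le_mul_of_nonneg_left h6 hD.le
    calc v.D / (B : ℝ) ^ 70000 = v.D * (1 / (B : ℝ) ^ 70000) := by ring
      _ ≤ v.D * (1 / (B : ℝ) ^ 60000 / 1000) := h7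
      _ = v.D / (B : ℝ) ^ 60000 / 1000 := by ring
  have c7 : 0 < v.D / (B : ℝ) ^ 60000 := by positivity
  linarith

end Pool.MPbe0380.Gb
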