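import Pool.Agent.Lib.MP_be0380_co.T5.Defs
import Pool.Agent.Lib.MP_be0380_co.T5.Sta
import Pool.Agent.Lib.MP_be0380_co.T5.Lif
import Pool.Agent.Lib.MP_be0380_co.E.Rank

/-!
# be0380, module T5.Rnk = (5.8) (i), (ii) RANK

Instance of PoolBe0380.E.rank (E/Rank.lean) with X = X5 v t x, Y = X5 v t y, EX = EX5 x y, EY = EX5 y x, psi = th (· - x) mu, psi' = th (· - y) mu
(mu from lift5, X(t) in X(7/10) since t <= 40 rho <= 7/10; th_additive, th_inj). Twins: for p in X \ EX, q in Y \ EY take c, d from NUS (v.nus): c + d = p + q,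
s(c,d) <> s(p,q); star5 gives (c in X, d in Y) or (d in X, c in Y); in both cases the element in X is <> p (c = p would give d = q; d = p would give c = q).
#EX + #EY + 1 <= 2 D/B^60000 + 1 <= D/B^50000 (card_EX5 twice, D >= B^1000000000).
-/

set_option autoImplicit false

open Finset

namespace Pool.MPbe0380.Gb

variable {p : ℕ} [Fact p.Prime]

private theorem rnk_sub (v : BLev p) {t : ℝ} (ht : t ≤ 7 / 10) (x : ZMod p) :
    X5 v t x ⊆ X5 v (7 / 10) x := by
  intro c hc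
  rw [mem_X5] at hc ⊢
  exact ⟨hc.1, hc.2.trans ht⟩

theorem rank5 (v : BLev p) {B : ℕ} (hN : Num5 v B) {t : ℝ} (ht1 : 20 * rho5 B ≤ t)
    (ht2 : t ≤ 40 * rho5 B) {x y : ZMod p} (hx : x ∈ G15 v B)
    (hy : y ∈ G15 v B) (h1 : Typ v B t x y) (h2 : Typ v B t y x) :
    (∃ U : Submodule ℝ (X5 v t x → ℝ), (Module.finrank ℝ U : ℝ) ≤ v.D / (B : ℝ) ^ 50000 ∧
      ∀ φ φ' : ZMod p → ℝ, PoolBe0380.E.Comp (X5 v t x) (X5 v t y) φ φ' →
        (fun c : X5 v t x => φ c) ∈ U) ∨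
    (∃ U : Submodule ℝ (X5 v t y → ℝ), (Module.finrank ℝ U : ℝ) ≤ v.D / (B : ℝ) ^ 50000 ∧
      ∀ φ φ' : ZMod p → ℝ, PoolBe0380.E.Comp (X5 v t x) (X5 v t y) φ φ' →
        (fun c : X5 v t y => φ' c) ∈ U) := by
  obtain ⟨b, hb⟩ : ∃ b : ℝ, b = B := ⟨_, rfl⟩
  have hb3 : (1000 : ℝ) ≤ b := by rw [hb]; exact_mod_cast hN.B_ge
  have hb0 : (0 : ℝ) < b := by linarith
  have hb1 : (1 : ℝ) ≤ b := by linarith
  have hpow : ∀ n m : ℕ, n + 1 ≤ m → b ^ n * 1000 ≤ b ^ m := by
    intro n m hnm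
    calc b ^ n * 1000 ≤ b ^ n * b := mul_le_mul_of_nonneg_left hb3 (by positivity)
      _ = b ^ (n + 1) := (pow_succ b n).symm
      _ ≤ b ^ m := pow_le_pow_right₀ hb1 hnm
  have ht : t ≤ 7 / 10 := by
    refine ht2.trans ?_
    unfold rho5
    rw [← hb, mul_one_div, div_le_div_iff₀ (by positivity) (by norm_num)]
    have h3 := hpow 0 240 (by norm_num)
    rw [pow_zero] at h3
    linarith
  obtain ⟨μ, hμ, hX, hY⟩ := lift5 v hN hx hy h1.T0 h2.T0
  have hX' : ∀ c ∈ X5 v t x, |th (c - x) μ| < Real.pi / 4 := fun c hc => hX c (rnk_sub v ht x hc)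
  have hY' : ∀ c ∈ X5 v t y, |th (c - y) μ| < Real.pi / 4 := fun c hc => hY c (rnk_sub v ht y hc)
  have hrank := PoolBe0380.E.rank (X := X5 v t x) (Y := X5 v t y) (EX := EX5 v B t x y)
    (EY := EX5 v B t y x) (ψ := fun c => th (c - x) μ) (ψ' := fun c => th (c - y) μ) ?_ ?_ ?_
  · have hcard : ((EX5 v B t x y).card : ℝ) + (EX5 v B t y x).card + 1 ≤ v.D / (B : ℝ) ^ 50000 := by
      have h3 := card_EX5 v hN ht1 ht2 hx hy h1 h2
      have h4 := card_EX5 v hN ht1 ht2 hy hx h2 h1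
      have h5 := hN.D_big
      rw [← hb] at h3 h4 h5 ⊢
      have h6 : v.D / b ^ 60000 ≤ v.D / b ^ 50000 / 1000 := by
        rw [div_div, div_le_div_iff₀ (by positivity) (by positivity)]
        have h7 := hpow 50000 60000 (by norm_num)
        have h8 : 0 < b ^ 1000000000 := by positivity
        exact mul_le_mul_of_nonneg_left h7 (by linarith)
      have h7 : 1000 ≤ v.D / b ^ 50000 := by
        rw [le_div_iff₀ (by positivity)]
        have := hpow 50000 1000000000 (by norm_num)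
        linarith
      linarith
    rcases hrank with ⟨U, hU, hall⟩ | ⟨U, hU, hall⟩
    · refine Or.inl ⟨U, ?_, hall⟩
      refine le_trans ?_ hcard
      exact_mod_cast hU
    · refine Or.inr ⟨U, ?_, hall⟩
      refine le_trans ?_ hcard
      exact_mod_cast hU
  · intro a _ b' _ hab
    exact sub_left_injective (th_inj hμ hab)
  · intro a ha c hc q hq d hd hs
    exact th_additive (hX' a ha) (hY' q hq) (hX' c hc) (hY' d hd) hs
  · intro q hq hqE q' hq' hqE'
    have hqA : q ∈ v.A := (mem_X5.1 hq).1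
    have hq'A : q' ∈ v.A := (mem_X5.1 hq').1
    obtain ⟨c, hc, d, hd, hcd, hne⟩ := v.nus q hqA q' hq'A
    rcases star5 v hN ht1 ht2 hx hy h1 h2 hq hq' hqE hqE' hc hd hcd with ⟨hcX, hdY⟩ | ⟨hdX, hcY⟩
    · refine ⟨c, hcX, d, hdY, hcd, fun h => hne ?_⟩
      subst h
      rw [add_left_cancel hcd]
    · refine ⟨d, hdX, c, hcY, by rw [add_comm, hcd], fun h => hne ?_⟩
      subst h
      have h3 : c = q' := by
        rw [add_comm] at hcd
        exact add_left_cancel hcd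
      rw [h3, Sym2.eq_swap]

end Pool.MPbe0380.Gb
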