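import Pool.Agent.Lib.MP_be0380_co.T5.Defs
import Pool.Agent.Lib.MP_be0380_co.T5.Rnk
import Pool.Agent.Lib.MP_be0380_co.T5.Bas
import Pool.Agent.Lib.MP_be0380_co.T5.Lif

/-!
# be0380, module T5.BasX: x or y has a base

F = coarse5 x ⊓ coarse5 y (cost <= 2D/B^30000, X(t) in X(7/10)). For l, l' in one cell, mu = l - l', the pair
(th (· - x) mu, th (· - y) mu) is Comp on X(t), Y(t) (th_additive); rank5 and base_of_rank5.
-/

set_option autoImplicit false

open Finset

namespace Pool.MPbe0380.Gb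

variable {p : ℕ} [Fact p.Prime]

theorem base5 (v : BLev p) {B : ℕ} (hN : Num5 v B) {t : ℝ} (ht1 : 20 * rho5 B ≤ t)
    (ht2 : t ≤ 40 * rho5 B) {x y : ZMod p} (hx : x ∈ G15 v B)
    (hy : y ∈ G15 v B) (h1 : Typ v B t x y) (h2 : Typ v B t y x) :
    HasBase5 v B t x ∨ HasBase5 v B t y := by
  obtain ⟨F, hF, hF2⟩ := coarse5_two v hN hx hy h1.T0 h2.T0
  have hB : (1000 : ℝ) ≤ B := by exact_mod_cast hN.B_ge
  have ht : t ≤ 7 / 10 := by
    refine ht2.trans ?_
    unfold rho5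
    have h3 : (1000 : ℝ) ≤ (B : ℝ) ^ 240 :=
      hB.trans (le_self_pow₀ (by linarith) (by norm_num))
    rw [mul_one_div, div_le_iff₀ (by linarith)]
    linarith
  have hsub : ∀ w : ZMod p, X5 v t w ⊆ X5 v (7 / 10) w := by
    intro w c hc
    rw [mem_X5] at hc ⊢
    exact ⟨hc.1, hc.2.trans ht⟩
  have hthx : ∀ l l', F.r l l' → ∀ c ∈ X5 v t x, |th (c - x) (l - l')| < Real.pi / 4 :=
    fun l l' h c hc => (hF2 l l' h).1 c (hsub x hc)
  have hthy : ∀ l l', F.r l l' → ∀ c ∈ X5 v t y, |th (c - y) (l - l')| < Real.pi / 4 :=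
    fun l l' h c hc => (hF2 l l' h).2 c (hsub y hc)
  have hcomp : ∀ l l', F.r l l' → PoolBe0380.E.Comp (X5 v t x) (X5 v t y)
      (fun c => th (c - x) (l - l')) (fun c => th (c - y) (l - l')) := by
    intro l l' h a ha c hc b hb d hd habcd
    exact th_additive (hthx l l' h a ha) (hthy l l' h b hb) (hthx l l' h c hc)
      (hthy l l' h d hd) habcd
  rcases rank5 v hN ht1 ht2 hx hy h1 h2 with ⟨U, hU, hmem⟩ | ⟨U, hU, hmem⟩
  · left
    exact base_of_rank5 v hN F hF (X5 v t x) x U hU hthx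
      (fun l l' h => hmem _ _ (hcomp l l' h))
  · right
    exact base_of_rank5 v hN F hF (X5 v t y) y U hU hthy
      (fun l l' h => hmem _ _ (hcomp l l' h))

end Pool.MPbe0380.Gb
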