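import Pool.Agent.Lib.MP_be0380_co.G.Fx

/-!
# be0380, (5.2): typical pairs

`TypG v κ H Q r0 x y`: the pair `(x,y)` satisfies (T0)-(T3) with `κ = k1`, `H = h`, `Q = K^s0`,
`r0 = 1/K`. `typical_weight`: the weight of the other pairs of `G1` is small.
-/

set_option autoImplicit false

open Finset

namespace Pool.MPbe0380.Gb

variable {p : ℕ} [Fact p.Prime]

open Classical in
/-- the pair `(x,y)` is typical; `κ = k1`, `H = h`, `Q = K^s0`, `r0 = 1/K` -/
structure TypG (v : Lev p) (κ H Q r0 : ℝ) (x y : ZMod p) : Prop where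
  t0 : ((v.A.filter fun c => v.t x c ≤ 7 / 10).card : ℝ) ≤ H
  t0' : ((v.A.filter fun c => v.t y c ≤ 7 / 10).card : ℝ) ≤ H
  t1 : |v.f x y| ≤ 2 * √κ
  t1' : |v.f y x| ≤ 2 * √κ
  t2 : ∀ g, 4 * √κ ≤ g → g ≤ 1 →
    ((v.A.filter fun c => g ≤ |v.f x c| ∧ g ≤ |v.f y c|).card : ℝ) ≤ Q / g ^ 4
  t3 : ∀ r g, r0 ≤ r → r ≤ 7 / 10 → 8 * √κ ≤ g → g ≤ 1 →
    ((v.A.filter fun c => v.t y c ≤ r ∧ g ≤ |v.f x c|).card : ℝ) ≤ Q * r / g ^ 2
  t3' : ∀ r g, r0 ≤ r → r ≤ 7 / 10 → 8 * √κ ≤ g → g ≤ 1 →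
    ((v.A.filter fun c => v.t x c ≤ r ∧ g ≤ |v.f y c|).card : ℝ) ≤ Q * r / g ^ 2

theorem TypG.symm {v : Lev p} {κ H Q r0 : ℝ} {x y : ZMod p} (h : TypG v κ H Q r0 x y) :
    TypG v κ H Q r0 y x where
  t0 := h.t0'
  t0' := h.t0
  t1 := h.t1'
  t1' := h.t1
  t2 := by
    intro g h1 h2
    refine le_trans (le_of_eq ?_) (h.t2 g h1 h2)
    norm_cast
    congr 1
    ext c
    simp only [mem_filter]
    tauto
  t3 := h.t3'
  t3' := h.t3

namespace Lev

variable (v : Lev p)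

theorem E_nonneg {f : ZMod p → ℝ} (h : ∀ l, 0 ≤ f l) : 0 ≤ v.E f :=
  sum_nonneg fun l _ => mul_nonneg (om_pos v.I l).le (h l)

theorem E_mono {f g : ZMod p → ℝ} (h : ∀ l, f l ≤ g l) : v.E f ≤ v.E g :=
  sum_le_sum fun l _ => mul_le_mul_of_nonneg_left (h l) (om_pos v.I l).le

theorem E_add (f g : ZMod p → ℝ) : v.E (fun l => f l + g l) = v.E f + v.E g := by
  simp only [Lev.E, Ex, mul_add, sum_add_distrib]

theorem E_sub (f g : ZMod p → ℝ) : v.E (fun l => f l - g l) = v.E f - v.E g := by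
  simp only [Lev.E, Ex, mul_sub, sum_sub_distrib]

theorem E_mul_left (a : ℝ) (f : ZMod p → ℝ) : v.E (fun l => a * f l) = a * v.E f := by
  simp only [Lev.E, Ex]
  rw [mul_sum]
  refine sum_congr rfl fun l _ => ?_
  ring

theorem E_cauchy (f g : ZMod p → ℝ) :
    v.E (fun l => f l * g l) ^ 2 ≤ v.E (fun l => f l ^ 2) * v.E (fun l => g l ^ 2) := by
  have h : ∀ y : ℝ, 0 ≤ v.E (fun l => g l ^ 2) * (y * y) +
      (-2 * v.E (fun l => f l * g l)) * y + v.E (fun l => f l ^ 2) := by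
    intro y
    have h1 : v.E (fun l => g l ^ 2) * (y * y) + (-2 * v.E (fun l => f l * g l)) * y +
        v.E (fun l => f l ^ 2) = v.E (fun l => (f l - y * g l) ^ 2) := by
      simp only [Lev.E, Ex]
      rw [sum_mul, mul_sum, sum_mul, ← sum_add_distrib, ← sum_add_distrib]
      refine sum_congr rfl fun l _ => ?_
      ring
    rw [h1]
    exact v.E_nonneg fun l => sq_nonneg _
  have h2 := discrim_le_zero h
  rw [discrim] at h2
  nlinarith

theorem mem_A_of_supp {x : ZMod p} (hx : x ∈ v.supp) : x ∈ v.A := by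
  unfold Lev.supp at hx
  exact (mem_filter.mp hx).1

theorem supp_sub : v.supp ⊆ v.A := filter_subset _ _

theorem E_u {x : ZMod p} (hx : x ∈ v.supp) : v.E (u x) = v.L := by
  unfold Lev.supp at hx
  exact v.kkt_eq x (mem_filter.mp hx).2

theorem E_u_le {x : ZMod p} (hx : x ∈ v.A) : v.E (u x) ≤ v.L := v.kkt x hx

theorem E_u_nonneg (x : ZMod p) : 0 ≤ v.E (u x) := v.E_nonneg fun l => u_nonneg x l

/-- `|E u_x φ| ≤ 2 L √(κ r)` if `E u_x² ≤ κ L` and `E φ² ≤ 4 r L` -/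
theorem abs_E_u_mul_le {x : ZMod p} {κ r : ℝ} (hκ : 0 ≤ κ) (hr : 0 ≤ r)
    (hx : v.E (fun l => u x l ^ 2) ≤ κ * v.L) (φ : ZMod p → ℝ)
    (hφ : v.E (fun l => φ l ^ 2) ≤ 4 * r * v.L) :
    |v.E (fun l => u x l * φ l)| ≤ 2 * v.L * √(κ * r) := by
  have hL : 0 < v.L := v.L_pos
  have h1 := v.E_cauchy (u x) φ
  have h2 : v.E (fun l => u x l * φ l) ^ 2 ≤ (2 * v.L * √(κ * r)) ^ 2 := by
    rw [mul_pow, Real.sq_sqrt (mul_nonneg hκ hr)]
    refine h1.trans ?_
    have h3 : v.E (fun l => u x l ^ 2) * v.E (fun l => φ l ^ 2) ≤ (κ * v.L) * (4 * r * v.L) :=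
      mul_le_mul hx hφ (v.E_nonneg fun l => sq_nonneg _) (by positivity)
    nlinarith
  exact abs_le_of_sq_le_sq h2 (by positivity)

/-- `E u_x u_c ≤ 2 L √κ` -/
theorem E_uu_le {x c : ZMod p} {κ : ℝ} (hκ : 0 ≤ κ) (hx : v.E (fun l => u x l ^ 2) ≤ κ * v.L)
    (hc : c ∈ v.A) : |v.E (fun l => u x l * u c l)| ≤ 2 * v.L * √κ := by
  have hL : 0 < v.L := v.L_pos
  have h1 := v.abs_E_u_mul_le hκ zero_le_one hx (u c) (by
    have h2 : v.E (fun l => u c l ^ 2) ≤ v.E (fun l => 2 * u c l) := v.E_mono fun l => u_sq_le c l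
    rw [v.E_mul_left] at h2
    have h3 := v.E_u_le hc
    linarith)
  rwa [mul_one] at h1

/-- if `|f_x(c)| ≥ g ≥ 2 √κ` then `|E s_x s_c| ≥ g L` -/
theorem E_ss_ge {x c : ZMod p} {κ g : ℝ} (hκ : 0 ≤ κ) (hx : v.E (fun l => u x l ^ 2) ≤ κ * v.L)
    (hc : c ∈ v.A) (hg : 2 * √κ ≤ g) (hf : g ≤ |v.f x c|) :
    g * v.L ≤ |v.E (fun l => s x l * s c l)| := by
  have hL : 0 < v.L := v.L_pos
  have h1 := v.E_uu_le hκ hx hc
  have h2 : |v.f x c| * (2 * v.L) =
      |v.E (fun l => u x l * u c l) + v.E (fun l => s x l * s c l)| := by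
    unfold Lev.f
    rw [abs_div, abs_of_pos (by positivity : 0 < 2 * v.L)]
    field_simp
  have h3 := abs_add_le (v.E (fun l => u x l * u c l)) (v.E (fun l => s x l * s c l))
  have h4 := mul_le_mul_of_nonneg_right hf (by positivity : 0 ≤ 2 * v.L)
  nlinarith

/-- `E u_(c-y) ≤ 2 r L` if `t_y(c) ≤ r` -/
theorem E_u_sub_le {y c : ZMod p} {r : ℝ} (hy : y ∈ v.supp) (hc : c ∈ v.A) (hr : v.t y c ≤ r) :
    v.E (u (c - y)) ≤ 2 * r * v.L := by
  have hL : 0 < v.L := v.L_pos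
  have h1 := v.dist_sq_le hy hc
  unfold Lev.dist at h1
  rw [Real.sq_sqrt (div_nonneg (v.E_u_nonneg _) hL.le), div_le_iff₀ hL] at h1
  nlinarith

theorem E_sub_sq (c y : ZMod p) :
    v.E (fun l => (u c l - u y l) ^ 2) + v.E (fun l => (s c l - s y l) ^ 2) =
      2 * v.E (u (c - y)) := by
  rw [← v.E_add, ← v.E_mul_left]
  simp only [Lev.E, Ex]
  refine sum_congr rfl fun l _ => ?_
  have h5 : u (c - y) l = u c l + u y l - u c l * u y l - s c l * s y l := by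
    rw [sub_eq_add_neg, u_add, u_neg, s_neg]; ring
  have h6 := s_sq c l
  have h7 := s_sq y l
  rw [h5]
  linear_combination (om v.I l) * h6 + (om v.I l) * h7

/-- (T1), `t_y(c) ≤ r`, `|f_x(c)| ≥ g ≥ 4 √κ` imply `|E s_x (s_c - s_y)| ≥ g L / 2` -/
theorem E_sdiff_ge {x y c : ZMod p} {κ g r : ℝ} (hκ : 0 ≤ κ)
    (hx : v.E (fun l => u x l ^ 2) ≤ κ * v.L) (hy : y ∈ v.supp) (hc : c ∈ v.A)
    (hr1 : r ≤ 1) (hr : v.t y c ≤ r) (hg : 4 * √κ ≤ g)
    (h1 : |v.f x y| ≤ 2 * √κ) (hf : g ≤ |v.f x c|) :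
    g / 2 * v.L ≤ |v.E (fun l => s x l * (s c l - s y l))| := by
  have hL : 0 < v.L := v.L_pos
  have ht0 : 0 ≤ v.t y c := by
    have := v.f_le_one hy hc
    unfold Lev.t
    linarith
  have hr0 : 0 ≤ r := ht0.trans hr
  have h2 := v.E_u_sub_le hy hc hr
  have h3 := v.E_sub_sq c y
  have h4 : 0 ≤ v.E (fun l => (s c l - s y l) ^ 2) := v.E_nonneg fun l => sq_nonneg _
  have h5 := v.abs_E_u_mul_le hκ hr0 hx (fun l => u c l - u y l) (by linarith)
  have h6 : √(κ * r) ≤ √κ := Real.sqrt_le_sqrt (by nlinarith)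
  have h7 : (v.f x c - v.f x y) * (2 * v.L) = v.E (fun l => u x l * (u c l - u y l)) +
      v.E (fun l => s x l * (s c l - s y l)) := by
    have e1 : v.E (fun l => u x l * (u c l - u y l)) =
        v.E (fun l => u x l * u c l) - v.E (fun l => u x l * u y l) := by
      rw [← v.E_sub]
      congr 1
      funext l
      ring
    have e2 : v.E (fun l => s x l * (s c l - s y l)) =
        v.E (fun l => s x l * s c l) - v.E (fun l => s x l * s y l) := by
      rw [← v.E_sub]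
      congr 1
      funext l
      ring
    rw [e1, e2]
    unfold Lev.f
    field_simp
    ring
  have h8 : |v.f x c - v.f x y| * (2 * v.L) ≤ |v.E (fun l => u x l * (u c l - u y l))| +
      |v.E (fun l => s x l * (s c l - s y l))| := by
    rw [← abs_of_pos (by positivity : 0 < 2 * v.L), ← abs_mul, h7]
    exact abs_add_le _ _
  have h9 : g - 2 * √κ ≤ |v.f x c - v.f x y| := by
    have := abs_sub_abs_le_abs_sub (v.f x c) (v.f x y)
    linarith
  have h10 := mul_le_mul_of_nonneg_right h9 (by positivity : 0 ≤ 2 * v.L)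
  have h11 := mul_le_mul_of_nonneg_left h6 (by positivity : 0 ≤ 2 * v.L)
  have h12 := mul_le_mul_of_nonneg_right hg hL.le
  nlinarith

end Lev

/-! ### weights -/

private theorem mf {α : Type*} {S : Finset α} {P : α → Prop} {inst : DecidablePred P} {a : α}
    (h : a ∈ @Finset.filter α P inst S) : a ∈ S ∧ P a := by
  rwa [@mem_filter] at h

section weights

open Classical

variable (v : Lev p)

/-- double counting with a threshold -/
theorem count_markov (S : Finset (ZMod p)) (C : Finset (ZMod p)) (R : ZMod p → ZMod p → Prop)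
    (thr W : ℝ) (hthr : 0 < thr)
    (hS : ∀ x ∈ S, thr ≤ ((C.filter fun c => R x c).card : ℝ))
    (hW : ∀ c ∈ C, ∑ x ∈ S.filter (fun x => R x c), v.J x ≤ W) :
    ∑ x ∈ S, v.J x ≤ C.card * W / thr := by
  rw [le_div_iff₀ hthr]
  calc (∑ x ∈ S, v.J x) * thr = ∑ x ∈ S, v.J x * thr := by rw [sum_mul]
    _ ≤ ∑ x ∈ S, v.J x * ((C.filter fun c => R x c).card : ℝ) :=
        sum_le_sum fun x hx => mul_le_mul_of_nonneg_left (hS x hx) (v.J_nonneg x)
    _ = ∑ x ∈ S, ∑ c ∈ C, if R x c then v.J x else 0 := by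
        refine sum_congr rfl fun x _ => ?_
        rw [← sum_filter, sum_const, nsmul_eq_mul, mul_comm]
    _ = ∑ c ∈ C, ∑ x ∈ S.filter (fun x => R x c), v.J x := by
        rw [sum_comm]
        refine sum_congr rfl fun c _ => ?_
        rw [sum_filter]
    _ ≤ ∑ _c ∈ C, W := sum_le_sum hW
    _ = C.card * W := by rw [sum_const, nsmul_eq_mul]

/-- weight of a set of pairs -/
noncomputable def wp (G1 : Finset (ZMod p)) (P : ZMod p → ZMod p → Prop) : ℝ :=
  ∑ x ∈ G1, ∑ y ∈ G1, if P x y then v.J x * v.J y else 0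

theorem wp_mono {G1 : Finset (ZMod p)} {P P' : ZMod p → ZMod p → Prop}
    (h : ∀ x ∈ G1, ∀ y ∈ G1, P x y → P' x y) : wp v G1 P ≤ wp v G1 P' := by
  refine sum_le_sum fun x hx => sum_le_sum fun y hy => ?_
  by_cases h1 : P x y
  · rw [if_pos h1, if_pos (h x hx y hy h1)]
  · rw [if_neg h1]
    split_ifs
    · exact mul_nonneg (v.J_nonneg x) (v.J_nonneg y)
    · exact le_rfl

theorem wp_or {G1 : Finset (ZMod p)} {P P' : ZMod p → ZMod p → Prop} :
    wp v G1 (fun x y => P x y ∨ P' x y) ≤ wp v G1 P + wp v G1 P' := by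
  unfold wp
  rw [← sum_add_distrib]
  refine sum_le_sum fun x hx => ?_
  rw [← sum_add_distrib]
  refine sum_le_sum fun y hy => ?_
  have := mul_nonneg (v.J_nonneg x) (v.J_nonneg y)
  by_cases h1 : P x y <;> by_cases h2 : P' x y <;> simp [h1, h2, this]

theorem wp_exists {G1 : Finset (ZMod p)} {ι : Type} (T : Finset ι)
    {P : ι → ZMod p → ZMod p → Prop} :
    wp v G1 (fun x y => ∃ i ∈ T, P i x y) ≤ ∑ i ∈ T, wp v G1 (P i) := by
  unfold wp
  rw [sum_comm (s := T)]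
  refine sum_le_sum fun x hx => ?_
  rw [sum_comm (s := T)]
  refine sum_le_sum fun y hy => ?_
  have h0 := mul_nonneg (v.J_nonneg x) (v.J_nonneg y)
  split_ifs with h
  · obtain ⟨i, hi, hP⟩ := h
    refine le_trans (le_of_eq ?_) (single_le_sum (f := fun i => if P i x y then v.J x * v.J y else 0)
      (fun i _ => ?_) hi)
    · simp only [hP, if_true]
    · split_ifs
      · exact h0
      · exact le_rfl
  · refine sum_nonneg fun i _ => ?_
    split_ifs
    · exact h0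
    · exact le_rfl

theorem wp_swap {G1 : Finset (ZMod p)} (P : ZMod p → ZMod p → Prop) :
    wp v G1 (fun x y => P y x) = wp v G1 P := by
  unfold wp
  rw [sum_comm]
  refine sum_congr rfl fun x _ => sum_congr rfl fun y _ => ?_
  rw [mul_comm]

/-- fixed second member -/
theorem wp_le_of_right {G1 : Finset (ZMod p)} {P : ZMod p → ZMod p → Prop} {W : ℝ}
    (h : ∀ y ∈ G1, ∑ x ∈ G1.filter (fun x => P x y), v.J x ≤ W) :
    wp v G1 P ≤ (∑ x ∈ G1, v.J x) * W := by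
  unfold wp
  rw [sum_comm, sum_mul]
  refine sum_le_sum fun y hy => ?_
  rw [← sum_filter, ← sum_mul, mul_comm]
  exact mul_le_mul_of_nonneg_left (h y hy) (v.J_nonneg y)

theorem wp_nonneg (G1 : Finset (ZMod p)) (P : ZMod p → ZMod p → Prop) : 0 ≤ wp v G1 P := by
  refine sum_nonneg fun x _ => sum_nonneg fun y _ => ?_
  split_ifs
  · exact mul_nonneg (v.J_nonneg x) (v.J_nonneg y)
  · exact le_rfl

theorem wp_eq (G1 : Finset (ZMod p)) (P : ZMod p → ZMod p → Prop) :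
    wp v G1 P = ∑ e ∈ (G1 ×ˢ G1).filter (fun e => P e.1 e.2), v.J e.1 * v.J e.2 := by
  unfold wp
  rw [sum_filter, sum_product]

/-- double counting for pairs -/
theorem pair_markov (G1 : Finset (ZMod p)) (C : Finset (ZMod p)) (R : ZMod p → ZMod p → Prop)
    (thr W : ℝ) (hthr : 0 < thr) (hW0 : 0 ≤ W)
    (hW : ∀ c ∈ C, ∑ x ∈ G1.filter (fun x => R x c), v.J x ≤ W) :
    wp v G1 (fun x y => thr ≤ ((C.filter fun c => R x c ∧ R y c).card : ℝ)) ≤
      C.card * W ^ 2 / thr := by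
  rw [le_div_iff₀ hthr]
  have hJ := v.J_nonneg
  calc wp v G1 (fun x y => thr ≤ ((C.filter fun c => R x c ∧ R y c).card : ℝ)) * thr
      ≤ ∑ x ∈ G1, ∑ y ∈ G1, v.J x * v.J y * ((C.filter fun c => R x c ∧ R y c).card : ℝ) := by
        unfold wp
        rw [sum_mul]
        refine sum_le_sum fun x _ => ?_
        rw [sum_mul]
        refine sum_le_sum fun y _ => ?_
        have h0 := mul_nonneg (hJ x) (hJ y)
        split_ifs with h
        · exact mul_le_mul_of_nonneg_left h h0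
        · rw [zero_mul]
          positivity
    _ = ∑ c ∈ C, (∑ x ∈ G1.filter (fun x => R x c), v.J x) *
          (∑ y ∈ G1.filter (fun y => R y c), v.J y) := by
        have h1 : ∀ x ∈ G1, ∀ y ∈ G1, v.J x * v.J y * ((C.filter fun c => R x c ∧ R y c).card : ℝ) =
            ∑ c ∈ C, (if R x c then v.J x else 0) * (if R y c then v.J y else 0) := by
          intro x _ y _
          rw [card_filter]
          push_cast
          rw [mul_sum]
          refine sum_congr rfl fun c _ => ?_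
          by_cases h1 : R x c <;> by_cases h2 : R y c <;> simp [h1, h2]
        rw [sum_congr rfl fun x hx => sum_congr rfl fun y hy => h1 x hx y hy]
        have h2 : ∀ x ∈ G1, ∑ y ∈ G1, ∑ c ∈ C, (if R x c then v.J x else 0) *
            (if R y c then v.J y else 0) = ∑ c ∈ C, (if R x c then v.J x else 0) *
              ∑ y ∈ G1, (if R y c then v.J y else 0) := by
          intro x _
          rw [sum_comm]
          refine sum_congr rfl fun c _ => ?_
          rw [mul_sum]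
        rw [sum_congr rfl h2, sum_comm]
        refine sum_congr rfl fun c _ => ?_
        rw [← sum_mul, sum_filter]
    _ ≤ ∑ _c ∈ C, W ^ 2 := by
        refine sum_le_sum fun c hc => ?_
        rw [sq]
        exact mul_le_mul (hW c hc) (hW c hc) (sum_nonneg fun x _ => hJ x) hW0
    _ = C.card * W ^ 2 := by rw [sum_const, nsmul_eq_mul]

/-! ### the weights of the pairs failing (T0)-(T3) -/

variable {G1 : Finset (ZMod p)} (hG1 : G1 ⊆ v.supp) {κ : ℝ}
  (hκ : ∀ x ∈ G1, v.E (fun l => u x l ^ 2) ≤ κ * v.L)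

include hG1 hκ

/-- weight of `x` with `|f_x(c)| ≥ g` -/
theorem weight_f (hκ0 : 0 ≤ κ) {c : ZMod p} (hc : c ∈ v.A) {g : ℝ} (hg : 0 < g)
    (hg2 : 2 * √κ ≤ g) :
    ∑ x ∈ G1.filter (fun x => g ≤ |v.f x c|), v.J x ≤ 2 / (g ^ 2 * v.L) := by
  refine le_trans ?_ (v.weight_s hc hg)
  refine sum_le_sum_of_subset_of_nonneg ?_ fun x _ _ => v.J_nonneg x
  intro x hx
  rw [mem_filter] at hx
  exact mem_filter.mpr ⟨hG1 hx.1, v.E_ss_ge hκ0 (hκ x hx.1) hc hg2 hx.2⟩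

theorem weight_T0 (hκ0 : 0 ≤ κ) (hκs : √κ ≤ 3 / 20) {H : ℝ} (hH : 0 < H) :
    ∑ x ∈ G1.filter (fun x => H < ((v.A.filter fun c => v.t x c ≤ 7 / 10).card : ℝ)), v.J x ≤
      23 * v.A.card / (v.L * H) := by
  have hL : 0 < v.L := v.L_pos
  have h1 := count_markov v
    (G1.filter (fun x => H < ((v.A.filter fun c => v.t x c ≤ 7 / 10).card : ℝ))) v.A
    (fun x c => v.t x c ≤ 7 / 10) H (23 / v.L) hH (fun x hx => (mem_filter.mp hx).2.le) ?_
  · refine h1.trans (le_of_eq ?_)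
    field_simp
  · intro c hc
    have h2 := weight_f v hG1 hκ hκ0 hc (by norm_num : (0 : ℝ) < 3 / 10) (by linarith)
    have h3 : 2 / ((3 / 10 : ℝ) ^ 2 * v.L) ≤ 23 / v.L := by
      rw [div_le_div_iff₀ (by positivity) hL]
      nlinarith
    refine le_trans ?_ (h2.trans h3)
    refine sum_le_sum_of_subset_of_nonneg ?_ fun x _ _ => v.J_nonneg x
    intro x hx
    rw [mem_filter, mem_filter] at hx
    refine mem_filter.mpr ⟨hx.1.1, ?_⟩
    have h4 : v.t x c ≤ 7 / 10 := hx.2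
    unfold Lev.t at h4
    exact le_trans (by linarith) (le_abs_self _)

theorem weight_T1 (hκ0 : 0 < κ) {y : ZMod p} (hy : y ∈ v.A) :
    ∑ x ∈ G1.filter (fun x => 2 * √κ < |v.f x y|), v.J x ≤ 1 / (2 * κ * v.L) := by
  have hs : 0 < √κ := Real.sqrt_pos.mpr hκ0
  have hL : 0 < v.L := v.L_pos
  have h2 := weight_f v hG1 hκ hκ0.le hy (by positivity : 0 < 2 * √κ) le_rfl
  have h3 : 2 / ((2 * √κ) ^ 2 * v.L) = 1 / (2 * κ * v.L) := by
    rw [mul_pow, Real.sq_sqrt hκ0.le]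
    field_simp
  rw [h3] at h2
  refine le_trans ?_ h2
  refine sum_le_sum_of_subset_of_nonneg ?_ fun x _ _ => v.J_nonneg x
  intro x hx
  rw [mem_filter] at hx
  exact mem_filter.mpr ⟨hx.1, hx.2.le⟩

theorem weight_T2 (hκ0 : 0 ≤ κ) {g Q : ℝ} (hg : 0 < g) (hg2 : 2 * √κ ≤ g) (hQ : 0 < Q) :
    wp v G1 (fun x y => Q / (16 * g ^ 4) ≤
      ((v.A.filter fun c => g ≤ |v.f x c| ∧ g ≤ |v.f y c|).card : ℝ)) ≤
      64 * v.A.card / (Q * v.L ^ 2) := by
  have hL : 0 < v.L := v.L_pos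
  have h1 := pair_markov v G1 v.A (fun x c => g ≤ |v.f x c|) (Q / (16 * g ^ 4))
    (2 / (g ^ 2 * v.L)) (by positivity) (by positivity)
    (fun c hc => weight_f v hG1 hκ hκ0 hc hg hg2)
  refine h1.trans (le_of_eq ?_)
  field_simp
  ring

theorem weight_T3 (hκ0 : 0 ≤ κ) {g Q r H : ℝ} (hg : 0 < g) (hg2 : 4 * √κ ≤ g) (hQ : 0 < Q)
    (hr : 0 < r) (hH : 0 ≤ H) :
    wp v G1 (fun x y => ((v.A.filter fun c => v.t y c ≤ 7 / 10).card : ℝ) ≤ H ∧
      |v.f x y| ≤ 2 * √κ ∧ Q * r / (8 * g ^ 2) ≤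
      (((v.A.filter fun c => v.t y c ≤ min r (7 / 10)).filter fun c => g ≤ |v.f x c|).card : ℝ)) ≤
      (∑ x ∈ G1, v.J x) * (128 * H / (Q * v.L)) := by
  have hL : 0 < v.L := v.L_pos
  refine wp_le_of_right v fun y hy => ?_
  by_cases hT : ((v.A.filter fun c => v.t y c ≤ 7 / 10).card : ℝ) ≤ H
  · set C := v.A.filter fun c => v.t y c ≤ min r (7 / 10) with hC
    have hCH : (C.card : ℝ) ≤ H := by
      refine le_trans ?_ hT
      norm_cast
      refine card_le_card ?_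
      intro c hc
      rw [hC, mem_filter] at hc
      exact mem_filter.mpr ⟨hc.1, hc.2.trans (min_le_right _ _)⟩
    refine (count_markov v _ C
      (fun x c => g ≤ |v.f x c|) (Q * r / (8 * g ^ 2)) (16 * r / (g ^ 2 * v.L)) (by positivity)
      (fun x hx => (mf hx).2.2.2) ?_).trans ?_
    · intro c hc
      rw [hC, mem_filter] at hc
      have hmin0 : v.t y c ≤ min r (7 / 10) := hc.2
      have ht0 : 0 ≤ v.t y c := by
        have := v.f_le_one (hG1 hy) hc.1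
        unfold Lev.t
        linarith
      refine (v.weight_g (fun l => s c l - s y l) (half_pos hg) _ ?_).trans ?_
      · intro x hx
        have hx1 := mf (mf hx).1
        exact v.E_sdiff_ge hκ0 (hκ x hx1.1) (hG1 hy) hc.1
          ((min_le_right r (7 / 10)).trans (by norm_num)) hmin0 hg2 hx1.2.2.1 (mf hx).2
      · have h3 := v.E_sub_sq c y
        have h4 : 0 ≤ v.E (fun l => (u c l - u y l) ^ 2) := v.E_nonneg fun l => sq_nonneg _
        have h5 := v.E_u_sub_le (hG1 hy) hc.1 (hmin0.trans (min_le_left _ _))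
        have h6 : v.E (fun l => (s c l - s y l) ^ 2) ≤ 4 * r * v.L := by linarith
        calc v.E (fun l => (s c l - s y l) ^ 2) / (g / 2 * v.L) ^ 2
            ≤ 4 * r * v.L / (g / 2 * v.L) ^ 2 := by gcongr
          _ = 16 * r / (g ^ 2 * v.L) := by
            field_simp
            norm_num
    · have h2 : (C.card : ℝ) * (16 * r / (g ^ 2 * v.L)) / (Q * r / (8 * g ^ 2)) =
          128 * C.card / (Q * v.L) := by
        field_simp
        ring
      rw [h2]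
      gcongr
  · refine le_trans (le_of_eq (sum_eq_zero fun x hx => ?_)) (by positivity)
    exact absurd (mf hx).2.1 hT

/-- (5.2): the weight of the pairs that are not typical -/
theorem typical_weight (hκ0 : 0 < κ) (hκs : √κ ≤ 3 / 20) {H Q r0 : ℝ} (hH : 0 < H) (hQ : 0 < Q)
    (J1 J2 : ℕ) (h1 : (1 / 2 : ℝ) ^ J1 ≤ 4 * √κ) (h2 : (1 / 2 : ℝ) ^ J2 ≤ r0) :
    wp v G1 (fun x y => ¬ TypG v κ H Q r0 x y) ≤
      46 * (∑ x ∈ G1, v.J x) * v.A.card / (v.L * H) + (∑ x ∈ G1, v.J x) / (κ * v.L) +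
      64 * (J1 + 2) * v.A.card / (Q * v.L ^ 2) +
      256 * (J1 + 2) * (J2 + 1) * (∑ x ∈ G1, v.J x) * H / (Q * v.L) := by
  have hL : 0 < v.L := v.L_pos
  have hs : 0 < √κ := Real.sqrt_pos.mpr hκ0
  set M := ∑ x ∈ G1, v.J x with hM
  have hM0 : 0 ≤ M := sum_nonneg fun x _ => v.J_nonneg x
  -- the bad events
  let B0 : ZMod p → ZMod p → Prop := fun x _ =>
    H < ((v.A.filter fun c => v.t x c ≤ 7 / 10).card : ℝ)
  let B1 : ZMod p → ZMod p → Prop := fun x y => 2 * √κ < |v.f x y|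
  let B2 : ℕ → ZMod p → ZMod p → Prop := fun j x y => 2 * √κ ≤ (1 / 2 : ℝ) ^ j ∧
    Q / (16 * ((1 / 2 : ℝ) ^ j) ^ 4) ≤
      ((v.A.filter fun c => (1 / 2 : ℝ) ^ j ≤ |v.f x c| ∧ (1 / 2 : ℝ) ^ j ≤ |v.f y c|).card : ℝ)
  let B3 : ℕ × ℕ → ZMod p → ZMod p → Prop := fun ij x y => 4 * √κ ≤ (1 / 2 : ℝ) ^ ij.1 ∧
    (((v.A.filter fun c => v.t y c ≤ 7 / 10).card : ℝ) ≤ H ∧
      |v.f x y| ≤ 2 * √κ ∧ Q * (1 / 2 : ℝ) ^ ij.2 / (8 * ((1 / 2 : ℝ) ^ ij.1) ^ 2) ≤
      (((v.A.filter fun c => v.t y c ≤ min ((1 / 2 : ℝ) ^ ij.2) (7 / 10)).filter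
        fun c => (1 / 2 : ℝ) ^ ij.1 ≤ |v.f x c|).card : ℝ))
  have key : ∀ x ∈ G1, ∀ y ∈ G1, ¬ TypG v κ H Q r0 x y →
      ((B0 x y ∨ B0 y x) ∨ (B1 x y ∨ B1 y x)) ∨ ((∃ j ∈ range (J1 + 2), B2 j x y) ∨
        ((∃ ij ∈ range (J1 + 2) ×ˢ range (J2 + 1), B3 ij x y) ∨
          (∃ ij ∈ range (J1 + 2) ×ˢ range (J2 + 1), B3 ij y x))) := by
    intro x hx y hy hT
    by_contra hcon
    push Not at hcon
    obtain ⟨⟨⟨h01, h02⟩, h11, h12⟩, h21, h31, h32⟩ := hcon
    have e01 : ((v.A.filter fun c => v.t x c ≤ 7 / 10).card : ℝ) ≤ H := not_lt.mp h01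
    have e02 : ((v.A.filter fun c => v.t y c ≤ 7 / 10).card : ℝ) ≤ H := not_lt.mp h02
    have e11 : |v.f x y| ≤ 2 * √κ := not_lt.mp h11
    have e12 : |v.f y x| ≤ 2 * √κ := not_lt.mp h12
    -- dyadic value below g
    have hdy : ∀ g : ℝ, 4 * √κ ≤ g → g ≤ 1 → ∃ j ∈ range (J1 + 2),
        (1 / 2 : ℝ) ^ j ≤ g ∧ g ≤ 2 * (1 / 2 : ℝ) ^ j := by
      intro g hg hg1
      obtain ⟨i, hi1, hi2⟩ := exists_nat_pow_near_of_lt_one (by linarith : 0 < g) hg1
        (by norm_num : (0 : ℝ) < 1 / 2) (by norm_num)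
      refine ⟨i + 1, ?_, hi1.le, ?_⟩
      · rw [mem_range]
        have h3 : (1 / 2 : ℝ) ^ J1 ≤ (1 / 2 : ℝ) ^ i := h1.trans (hg.trans hi2)
        have h4 := (pow_le_pow_iff_right_of_lt_one₀ (by norm_num : (0 : ℝ) < 1 / 2)
          (by norm_num)).mp h3
        omega
      · rw [pow_succ]
        linarith
    have hT3 : ∀ x y : ZMod p, ((v.A.filter fun c => v.t y c ≤ 7 / 10).card : ℝ) ≤ H →
        |v.f x y| ≤ 2 * √κ → (∀ ij ∈ range (J1 + 2) ×ˢ range (J2 + 1), ¬ B3 ij x y) →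
        ∀ r g, r0 ≤ r → r ≤ 7 / 10 → 8 * √κ ≤ g → g ≤ 1 →
        ((v.A.filter fun c => v.t y c ≤ r ∧ g ≤ |v.f x c|).card : ℝ) ≤ Q * r / g ^ 2 := by
      intro x y hx1 hx2 hx3 r g hr1 hr2 hg1 hg2
      have hr0 : 0 < r := lt_of_lt_of_le (by positivity) (h2.trans hr1)
      have hg0 : 0 < g := by linarith
      obtain ⟨j, hj, hj1, hj2⟩ := hdy g (by linarith) hg2
      obtain ⟨i, hi1, hi2⟩ := exists_nat_pow_near_of_lt_one hr0 (by linarith : r ≤ 1)
        (by norm_num : (0 : ℝ) < 1 / 2) (by norm_num)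
      have hi : i ∈ range (J2 + 1) := by
        rw [mem_range]
        have h3 : (1 / 2 : ℝ) ^ J2 ≤ (1 / 2 : ℝ) ^ i := h2.trans (hr1.trans hi2)
        have h4 := (pow_le_pow_iff_right_of_lt_one₀ (by norm_num : (0 : ℝ) < 1 / 2)
          (by norm_num)).mp h3
        omega
      have h3 := hx3 (j, i) (mem_product.mpr ⟨hj, hi⟩)
      have h4 : ¬ (Q * (1 / 2 : ℝ) ^ i / (8 * ((1 / 2 : ℝ) ^ j) ^ 2) ≤
          (((v.A.filter fun c => v.t y c ≤ min ((1 / 2 : ℝ) ^ i) (7 / 10)).filter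
          fun c => (1 / 2 : ℝ) ^ j ≤ |v.f x c|).card : ℝ)) := by
        intro h5
        exact h3 ⟨by dsimp only; linarith, hx1, hx2, h5⟩
      push Not at h4
      have h5 : ((v.A.filter fun c => v.t y c ≤ r ∧ g ≤ |v.f x c|).card : ℝ) ≤
          (((v.A.filter fun c => v.t y c ≤ min ((1 / 2 : ℝ) ^ i) (7 / 10)).filter
          fun c => (1 / 2 : ℝ) ^ j ≤ |v.f x c|).card : ℝ) := by
        norm_cast
        refine card_le_card ?_
        intro c hc
        rw [mem_filter] at hc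
        rw [mem_filter, mem_filter]
        exact ⟨⟨hc.1, le_min (hc.2.1.trans hi2) (hc.2.1.trans hr2)⟩, hj1.trans hc.2.2⟩
      refine h5.trans (h4.le.trans ?_)
      have h6 : (1 / 2 : ℝ) ^ i ≤ 2 * r := by
        rw [pow_succ] at hi1
        linarith
      have hjpos : 0 < (1 / 2 : ℝ) ^ j := by positivity
      have h7 : g ^ 2 ≤ 4 * ((1 / 2 : ℝ) ^ j) ^ 2 := by nlinarith
      rw [div_le_div_iff₀ (by positivity) (by positivity)]
      calc Q * (1 / 2 : ℝ) ^ i * g ^ 2 ≤ Q * (2 * r) * (4 * ((1 / 2 : ℝ) ^ j) ^ 2) := by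
            gcongr
        _ = Q * r * (8 * ((1 / 2 : ℝ) ^ j) ^ 2) := by ring
    refine hT ⟨e01, e02, e11, e12, ?_, hT3 x y e02 e11 h31, hT3 y x e01 e12 h32⟩
    intro g hg1 hg2
    have hg0 : 0 < g := by linarith
    obtain ⟨j, hj, hj1, hj2⟩ := hdy g hg1 hg2
    have h3 := h21 j hj
    have h4 : ¬ (Q / (16 * ((1 / 2 : ℝ) ^ j) ^ 4) ≤
      ((v.A.filter fun c => (1 / 2 : ℝ) ^ j ≤ |v.f x c| ∧
        (1 / 2 : ℝ) ^ j ≤ |v.f y c|).card : ℝ)) := by
      intro h5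
      exact h3 ⟨by linarith, h5⟩
    push Not at h4
    have h5 : ((v.A.filter fun c => g ≤ |v.f x c| ∧ g ≤ |v.f y c|).card : ℝ) ≤
        ((v.A.filter fun c => (1 / 2 : ℝ) ^ j ≤ |v.f x c| ∧
        (1 / 2 : ℝ) ^ j ≤ |v.f y c|).card : ℝ) := by
      norm_cast
      refine card_le_card ?_
      intro c hc
      rw [mem_filter] at hc
      rw [mem_filter]
      exact ⟨hc.1, hj1.trans hc.2.1, hj1.trans hc.2.2⟩
    refine h5.trans (h4.le.trans ?_)
    have hjpos : 0 < (1 / 2 : ℝ) ^ j := by positivity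
    have h7 : g ^ 2 ≤ 4 * ((1 / 2 : ℝ) ^ j) ^ 2 := by nlinarith
    have h8 : g ^ 4 ≤ 16 * ((1 / 2 : ℝ) ^ j) ^ 4 := by
      have e1 : g ^ 4 = (g ^ 2) ^ 2 := by ring
      have e2 : 16 * ((1 / 2 : ℝ) ^ j) ^ 4 = (4 * ((1 / 2 : ℝ) ^ j) ^ 2) ^ 2 := by ring
      rw [e1, e2]
      exact pow_le_pow_left₀ (sq_nonneg g) h7 2
    exact div_le_div_of_nonneg_left hQ.le (by positivity) h8
  -- weights
  have w0 : wp v G1 B0 ≤ M * (23 * v.A.card / (v.L * H)) :=
    wp_le_of_right v fun y _ => weight_T0 v hG1 hκ hκ0.le hκs hH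
  have w0' : wp v G1 (fun x y => B0 y x) ≤ M * (23 * v.A.card / (v.L * H)) := by
    rw [wp_swap v B0]
    exact w0
  have w1 : wp v G1 B1 ≤ M * (1 / (2 * κ * v.L)) :=
    wp_le_of_right v fun y hy => weight_T1 v hG1 hκ hκ0 (v.supp_sub (hG1 hy))
  have w1' : wp v G1 (fun x y => B1 y x) ≤ M * (1 / (2 * κ * v.L)) := by
    rw [wp_swap v B1]
    exact w1
  have hfalse : ∀ P : ZMod p → ZMod p → Prop, (∀ x y, ¬ P x y) → wp v G1 P = 0 := by
    intro P hP
    refine sum_eq_zero fun x _ => sum_eq_zero fun y _ => ?_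
    rw [if_neg (hP x y)]
  have w2 : wp v G1 (fun x y => ∃ j ∈ range (J1 + 2), B2 j x y) ≤
      (J1 + 2) * (64 * v.A.card / (Q * v.L ^ 2)) := by
    refine (wp_exists v _).trans ?_
    refine (sum_le_card_nsmul _ _ (64 * v.A.card / (Q * v.L ^ 2)) fun j _ => ?_).trans
      (le_of_eq ?_)
    · by_cases hj : 2 * √κ ≤ (1 / 2 : ℝ) ^ j
      · exact (wp_mono v fun x _ y _ h => h.2).trans
          (weight_T2 v hG1 hκ hκ0.le (by positivity : 0 < (1 / 2 : ℝ) ^ j) hj hQ)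
      · rw [hfalse _ fun x y h => hj h.1]
        positivity
    · rw [card_range, nsmul_eq_mul]
      push_cast
      ring
  have w3 : wp v G1 (fun x y => ∃ ij ∈ range (J1 + 2) ×ˢ range (J2 + 1), B3 ij x y) ≤
      (J1 + 2) * (J2 + 1) * (M * (128 * H / (Q * v.L))) := by
    refine (wp_exists v _).trans ?_
    refine (sum_le_card_nsmul _ _ (M * (128 * H / (Q * v.L))) fun ij _ => ?_).trans
      (le_of_eq ?_)
    · by_cases hj : 4 * √κ ≤ (1 / 2 : ℝ) ^ ij.1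
      · exact (wp_mono v fun x _ y _ h => h.2).trans
          (weight_T3 v hG1 hκ hκ0.le (by positivity : 0 < (1 / 2 : ℝ) ^ ij.1) hj hQ
            (by positivity : 0 < (1 / 2 : ℝ) ^ ij.2) hH.le)
      · rw [hfalse _ fun x y h => hj h.1]
        positivity
    · rw [card_product, card_range, card_range, nsmul_eq_mul]
      push_cast
      ring
  have w3' : wp v G1 (fun x y => ∃ ij ∈ range (J1 + 2) ×ˢ range (J2 + 1), B3 ij y x) ≤
      (J1 + 2) * (J2 + 1) * (M * (128 * H / (Q * v.L))) := by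
    rw [wp_swap v (fun x y => ∃ ij ∈ range (J1 + 2) ×ˢ range (J2 + 1), B3 ij x y)]
    exact w3
  have hfin := (wp_mono v key).trans ((wp_or v).trans (add_le_add ((wp_or v).trans
    (add_le_add (wp_or v) (wp_or v))) ((wp_or v).trans (add_le_add le_rfl (wp_or v)))))
  refine hfin.trans ?_
  have e1 : 46 * M * v.A.card / (v.L * H) = M * (23 * v.A.card / (v.L * H)) +
      M * (23 * v.A.card / (v.L * H)) := by ring
  have e2 : M / (κ * v.L) = M * (1 / (2 * κ * v.L)) + M * (1 / (2 * κ * v.L)) := by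
    field_simp
    ring
  have e3 : 64 * ((J1 : ℝ) + 2) * v.A.card / (Q * v.L ^ 2) =
      (J1 + 2) * (64 * v.A.card / (Q * v.L ^ 2)) := by ring
  have e4 : 256 * ((J1 : ℝ) + 2) * (J2 + 1) * M * H / (Q * v.L) =
      (J1 + 2) * (J2 + 1) * (M * (128 * H / (Q * v.L))) +
      (J1 + 2) * (J2 + 1) * (M * (128 * H / (Q * v.L))) := by ring
  rw [e1, e2, e3, e4]
  linarith

end weights

end Pool.MPbe0380.Gb
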