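import Pool.Agent.Lib.MP_be0380_co.T5.Defs

/-!
# be0380, module T5.Wd = (5.7), choice of the threshold `t`

S := B^71700 shells (t_j - 3 e1, t_j], t_j = 20 rho + 3 e1 (j+1), j < S: disjoint, contained in (20 rho, 40 rho] (3 e1 S = 3/B^300 <= 20 rho),
40 rho <= 7/10. For x with card X(7/10)(x) <= h := B^360 D: sum_j card shell_j(x) <= h. So sum_j sum_x J_x card shell_j(x) <= h m, some j has
sum_x J_x card shell_j(x) <= h m/S, and by Markov the weight of x with card shell_j(x) > D/B^70000 is <= h m B^70000/(S D) = m B^(360+70000-71700) <= m/1000.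
-/

set_option autoImplicit false

open Finset

namespace Pool.MPbe0380.Gb

variable {p : ℕ} [Fact p.Prime]

open Classical in
theorem Sh_weight (v : BLev p) {B : ℕ} (hN : Num5 v B) :
    ∃ t : ℝ, 20 * rho5 B ≤ t ∧ t ≤ 40 * rho5 B ∧
    ∑ x ∈ (G15 v B).filter (fun x => ((X5 v (7 / 10) x).card : ℝ) ≤ (B : ℝ) ^ 360 * v.D ∧
      ¬ ((v.A.filter (fun c => t - 3 * e15 B < v.t x c ∧ v.t x c ≤ t)).card : ℝ) ≤
        v.D / (B : ℝ) ^ 70000), v.J x ≤ v.m / 1000 := by
  have hB : (1000 : ℝ) ≤ B := by exact_mod_cast hN.B_ge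
  have hB0 : (0 : ℝ) < B := by linarith
  have hB1 : (1 : ℝ) ≤ B := by linarith
  have hD : 0 < v.D := mul_pos v.m_pos v.L_pos
  have hm : 0 < v.m := v.m_pos
  have he : 0 < e15 B := by unfold e15; positivity
  have hrho : 0 < rho5 B := by unfold rho5; positivity
  have hS0 : 0 < B ^ 71700 := pow_pos (by have := hN.B_ge; omega) _
  have hSr : ((B ^ 71700 : ℕ) : ℝ) = (B : ℝ) ^ 71700 := by push_cast; ring
  -- the shells stay below `40 ρ`
  have htop : 3 * e15 B * (B : ℝ) ^ 71700 ≤ 20 * rho5 B := by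
    unfold e15 rho5
    have h1 : (B : ℝ) ^ 72000 = (B : ℝ) ^ 240 * ((B : ℝ) ^ 60 * (B : ℝ) ^ 71700) := by
      rw [← pow_add, ← pow_add]
    have h2 : (1000 : ℝ) ≤ (B : ℝ) ^ 60 := hB.trans (le_self_pow₀ hB1 (by norm_num))
    rw [h1, mul_one_div, mul_one_div, div_mul_eq_mul_div, div_le_div_iff₀ (by positivity)
      (by positivity)]
    have h3 : 0 < (B : ℝ) ^ 71700 * (B : ℝ) ^ 240 := by positivity
    nlinarith
  let T : ℕ → ℝ := fun j => 20 * rho5 B + 3 * e15 B * (j + 1)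
  let sh : ℕ → ZMod p → Finset (ZMod p) := fun j x =>
    v.A.filter (fun c => T j - 3 * e15 B < v.t x c ∧ v.t x c ≤ T j)
  set G2 := (G15 v B).filter (fun x => ((X5 v (7 / 10) x).card : ℝ) ≤ (B : ℝ) ^ 360 * v.D)
    with hG2
  have hT2 : ∀ j ∈ range (B ^ 71700), T j ≤ 40 * rho5 B := by
    intro j hj
    rw [mem_range] at hj
    have h1 : (j : ℝ) + 1 ≤ (B : ℝ) ^ 71700 := by
      rw [← hSr]
      exact_mod_cast hj
    have h2 : 3 * e15 B * (j + 1) ≤ 3 * e15 B * (B : ℝ) ^ 71700 :=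
      mul_le_mul_of_nonneg_left h1 (by positivity)
    change 20 * rho5 B + 3 * e15 B * (j + 1) ≤ _
    linarith
  have h710 : 40 * rho5 B ≤ 7 / 10 := by
    unfold rho5
    have h3 : (1000 : ℝ) ≤ (B : ℝ) ^ 240 := hB.trans (le_self_pow₀ hB1 (by norm_num))
    rw [mul_one_div, div_le_iff₀ (by linarith)]
    linarith
  have hsum : ∀ x ∈ G2, ∑ j ∈ range (B ^ 71700), ((sh j x).card : ℝ) ≤ (B : ℝ) ^ 360 * v.D := by
    intro x hx
    have hdisj : ((range (B ^ 71700) : Finset ℕ) : Set ℕ).PairwiseDisjoint (fun j => sh j x) := by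
      have haux : ∀ i j : ℕ, i < j → Disjoint (sh i x) (sh j x) := by
        intro i j hij
        rw [Finset.disjoint_left]
        intro c hc hc'
        have h1 := (mem_filter.mp hc).2.2
        have h2 := (mem_filter.mp hc').2.1
        have h3 : (i : ℝ) + 1 ≤ j := by exact_mod_cast hij
        have h4 : 3 * e15 B * (i + 1) ≤ 3 * e15 B * j := mul_le_mul_of_nonneg_left h3 (by positivity)
        have h5 : v.t x c ≤ 20 * rho5 B + 3 * e15 B * (i + 1) := h1
        have h6 : 20 * rho5 B + 3 * e15 B * (j + 1) - 3 * e15 B < v.t x c := h2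
        linarith
      intro i _ j _ hij
      rcases lt_or_gt_of_ne hij with h | h
      · exact haux i j h
      · exact (haux j i h).symm
    have h1 : ∑ j ∈ range (B ^ 71700), (sh j x).card ≤ (X5 v (7 / 10) x).card := by
      rw [← card_biUnion hdisj]
      refine card_le_card ?_
      intro c hc
      obtain ⟨j, hj, hcj⟩ := mem_biUnion.mp hc
      have h2 := mem_filter.mp hcj
      exact mem_X5.mpr ⟨h2.1, h2.2.2.trans ((hT2 j hj).trans h710)⟩
    refine le_trans ?_ (mem_filter.mp hx).2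
    exact_mod_cast h1
  have htot : ∑ j ∈ range (B ^ 71700), ∑ x ∈ G2, v.J x * ((sh j x).card : ℝ) ≤
      ∑ _j ∈ range (B ^ 71700), v.m * ((B : ℝ) ^ 360 * v.D) / (B : ℝ) ^ 71700 := by
    rw [sum_comm, sum_const, card_range, nsmul_eq_mul, hSr, mul_div_cancel₀ _ (by positivity)]
    calc ∑ x ∈ G2, ∑ j ∈ range (B ^ 71700), v.J x * ((sh j x).card : ℝ)
        ≤ ∑ x ∈ G2, v.J x * ((B : ℝ) ^ 360 * v.D) := by
          refine sum_le_sum fun x hx => ?_
          rw [← mul_sum]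
          exact mul_le_mul_of_nonneg_left (hsum x hx) (v.J_nonneg x)
      _ ≤ v.m * ((B : ℝ) ^ 360 * v.D) := by
          rw [← sum_mul]
          refine mul_le_mul_of_nonneg_right ?_ (by positivity)
          exact sum_le_sum_of_subset_of_nonneg (subset_univ _) fun x _ _ => v.J_nonneg x
  obtain ⟨j, hj, hj2⟩ := exists_le_of_sum_le ⟨0, mem_range.mpr hS0⟩ htot
  refine ⟨T j, ?_, hT2 j hj, ?_⟩
  · change 20 * rho5 B ≤ 20 * rho5 B + 3 * e15 B * (j + 1)
    have : 0 ≤ 3 * e15 B * ((j : ℝ) + 1) := by positivity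
    linarith
  · set S3 := (G15 v B).filter (fun x => ((X5 v (7 / 10) x).card : ℝ) ≤ (B : ℝ) ^ 360 * v.D ∧
      ¬ ((v.A.filter (fun c => T j - 3 * e15 B < v.t x c ∧ v.t x c ≤ T j)).card : ℝ) ≤
        v.D / (B : ℝ) ^ 70000) with hS3
    have h1 : (∑ x ∈ S3, v.J x) * (v.D / (B : ℝ) ^ 70000) ≤
        v.m * ((B : ℝ) ^ 360 * v.D) / (B : ℝ) ^ 71700 := by
      refine le_trans ?_ hj2
      rw [sum_mul]
      have hsub : S3 ⊆ G2 := by
        intro x hx
        have h2 := mem_filter.mp hx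
        exact mem_filter.mpr ⟨h2.1, h2.2.1⟩
      refine le_trans ?_ (sum_le_sum_of_subset_of_nonneg hsub fun x _ _ =>
        mul_nonneg (v.J_nonneg x) (Nat.cast_nonneg _))
      refine sum_le_sum fun x hx => mul_le_mul_of_nonneg_left ?_ (v.J_nonneg x)
      exact (not_le.mp (mem_filter.mp hx).2.2).le
    have h2 : (B : ℝ) ^ 71700 = (B : ℝ) ^ 70000 * ((B : ℝ) ^ 360 * (B : ℝ) ^ 1340) := by
      rw [← pow_add, ← pow_add]
    have h3 : (1000 : ℝ) ≤ (B : ℝ) ^ 1340 := hB.trans (le_self_pow₀ hB1 (by norm_num))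
    have h4 : v.m * ((B : ℝ) ^ 360 * v.D) / (B : ℝ) ^ 71700 =
        v.m / (B : ℝ) ^ 1340 * (v.D / (B : ℝ) ^ 70000) := by
      rw [h2]
      field_simp
    rw [h4] at h1
    have h5 := le_of_mul_le_mul_right h1 (by positivity)
    exact h5.trans (div_le_div_of_nonneg_left hm.le (by norm_num) h3)

end Pool.MPbe0380.Gb
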