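import Pool.Agent.Lib.MP_be0380_co.T5.Defs
import Pool.Agent.Lib.MP_be0380_co.T5.Typ
import Pool.Agent.Lib.MP_be0380_co.T5.Wd

/-!
# be0380, module T5.We: most pairs are typical

From `typical_weight` (T5/Typ.lean) with κ = kap^4, H = B^360 D, Q = B^720, r0 = 2 eps and `Sh_weight`
(T5/Wd.lean).
-/

set_option autoImplicit false

open Finset

namespace Pool.MPbe0380.Gb

variable {p : ℕ} [Fact p.Prime]

theorem half_pow_le {B : ℕ} (N : ℕ) : (1 / 2 : ℝ) ^ (N * B) ≤ 1 / (B : ℝ) ^ N ∨ B = 0 := by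
  rcases Nat.eq_zero_or_pos B with h | h
  · exact Or.inr h
  · left
    have hB : (0 : ℝ) < B := by exact_mod_cast h
    rw [mul_comm, pow_mul, one_div, inv_pow, inv_pow, one_div]
    refine inv_anti₀ (by positivity) ?_
    refine pow_le_pow_left₀ hB.le ?_ N
    exact_mod_cast (Nat.lt_two_pow_self (n := B)).le

theorem sqrt_kap4 (B : ℕ) : √(kap5 B ^ 4) = kap5 B ^ 2 := by
  have h : kap5 B ^ 4 = (kap5 B ^ 2) ^ 2 := by ring
  rw [h]
  exact Real.sqrt_sq (sq_nonneg _)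

/-- the weight of the pairs that do not satisfy (T0)-(T3) -/
theorem typG_weight (v : BLev p) {B : ℕ} (hN : Num5 v B) :
    wp v.toLev (G15 v B) (fun x y => ¬ TypG v.toLev (kap5 B ^ 4) ((B : ℝ) ^ 360 * v.D) (M5 B)
      (2 * eps5 B) x y) ≤ 4 * (v.m ^ 2 / 1000) := by
  have hB : (1000 : ℝ) ≤ B := by exact_mod_cast hN.B_ge
  have hBn : B ≠ 0 := by have := hN.B_ge; omega
  have hB0 : (0 : ℝ) < B := by linarith
  have hB1 : (1 : ℝ) ≤ B := by linarith
  have hD : 0 < v.D := mul_pos v.m_pos v.L_pos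
  have hm : 0 < v.m := v.m_pos
  have hL : 0 < v.L := v.L_pos
  have hDm : v.D = v.m * v.L := rfl
  have hkap : 0 < kap5 B := by unfold kap5; positivity
  have hkap1 : kap5 B ^ 2 ≤ 3 / 20 := by
    unfold kap5
    rw [div_pow, one_pow, ← pow_mul, div_le_div_iff₀ (by positivity) (by norm_num)]
    have h1 : (1000 : ℝ) ≤ (B : ℝ) ^ (28800000 * 2) :=
      hB.trans (le_self_pow₀ hB1 (by norm_num))
    linarith
  have h1 : (1 / 2 : ℝ) ^ (57600000 * B) ≤ 4 * √(kap5 B ^ 4) := by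
    rw [sqrt_kap4]
    refine ((half_pow_le 57600000).resolve_right hBn).trans ?_
    unfold kap5
    rw [div_pow, one_pow, ← pow_mul]
    have : (0 : ℝ) ≤ 1 / (B : ℝ) ^ (28800000 * 2) := by positivity
    have e : 28800000 * 2 = 57600000 := by norm_num
    rw [e] at this ⊢
    linarith
  have h2 : (1 / 2 : ℝ) ^ (14400000 * B) ≤ 2 * eps5 B := by
    refine ((half_pow_le 14400000).resolve_right hBn).trans ?_
    unfold eps5
    have : (0 : ℝ) ≤ 1 / (B : ℝ) ^ 14400000 := by positivity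
    have e : (2 : ℝ) * (2 / (B : ℝ) ^ 14400000) = 4 * (1 / (B : ℝ) ^ 14400000) := by ring
    rw [e]
    linarith
  have key := typical_weight v.toLev (G15_sub v B) (fun x hx => E_le_of_mem_G15 hx)
    (by positivity : 0 < kap5 B ^ 4) (by rw [sqrt_kap4]; exact hkap1)
    (by positivity : 0 < (B : ℝ) ^ 360 * v.D) (by unfold M5; positivity : 0 < M5 B)
    (57600000 * B) (14400000 * B) h1 h2
  refine key.trans ?_
  set M := ∑ x ∈ G15 v B, v.J x with hM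
  have hM0 : 0 ≤ M := sum_nonneg fun x _ => v.J_nonneg x
  have hMm : M ≤ v.m := sum_le_sum_of_subset_of_nonneg (subset_univ _) fun x _ _ => v.J_nonneg x
  have hn0 : (0 : ℝ) ≤ v.A.card := Nat.cast_nonneg _
  have hn := hN.n_le
  have hm2 : 0 < v.m ^ 2 := by positivity
  -- the numbers of dyadic values
  have hJ1 : ((57600000 * B : ℕ) : ℝ) + 2 ≤ (B : ℝ) ^ 4 := by
    push_cast
    have h3 : (B : ℝ) ^ 4 = (B : ℝ) * (B : ℝ) ^ 3 := by ring
    have h4 : (1000 : ℝ) ^ 3 ≤ (B : ℝ) ^ 3 := pow_le_pow_left₀ (by norm_num) hB 3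
    rw [h3]
    nlinarith
  have hJ2 : ((14400000 * B : ℕ) : ℝ) + 1 ≤ (B : ℝ) ^ 4 := by
    refine le_trans ?_ hJ1
    push_cast
    nlinarith
  have t1 : 46 * M * v.A.card / (v.L * ((B : ℝ) ^ 360 * v.D)) ≤ v.m ^ 2 / 1000 := by
    have e1 : 46 * M * v.A.card ≤ 46 * v.m * ((B : ℝ) ^ 4 * v.D ^ 2) := by gcongr
    rw [div_le_div_iff₀ (by positivity) (by norm_num)]
    have e2 : (46000 : ℝ) ≤ (B : ℝ) ^ 356 := by
      have h3 : (1000 : ℝ) ^ 2 ≤ (B : ℝ) ^ 2 := pow_le_pow_left₀ (by norm_num) hB 2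
      have h4 : (B : ℝ) ^ 2 ≤ (B : ℝ) ^ 356 := pow_le_pow_right₀ hB1 (by norm_num)
      norm_num at h3
      linarith
    have e3 : (B : ℝ) ^ 360 = (B : ℝ) ^ 4 * (B : ℝ) ^ 356 := by rw [← pow_add]
    calc 46 * M * v.A.card * 1000 ≤ 46 * v.m * ((B : ℝ) ^ 4 * v.D ^ 2) * 1000 := by linarith
      _ = 46000 * (v.m * (B : ℝ) ^ 4 * v.D ^ 2) := by ring
      _ ≤ (B : ℝ) ^ 356 * (v.m * (B : ℝ) ^ 4 * v.D ^ 2) :=
          mul_le_mul_of_nonneg_right e2 (by positivity)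
      _ = v.m ^ 2 * (v.L * ((B : ℝ) ^ 360 * v.D)) := by
          rw [e3, hDm]
          ring
  have t2 : M / (kap5 B ^ 4 * v.L) ≤ v.m ^ 2 / 1000 := by
    rw [div_le_div_iff₀ (by positivity) (by norm_num)]
    have e1 : kap5 B ^ 4 * (B : ℝ) ^ 115200000 = 1 := by
      unfold kap5
      rw [div_pow, one_pow, ← pow_mul]
      have e : 28800000 * 4 = 115200000 := by norm_num
      rw [e]
      field_simp
    have e2 : (B : ℝ) ^ 115200000 * 1000 ≤ v.D := by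
      refine le_trans ?_ hN.D_big
      have e3 : (B : ℝ) ^ 1000000000 = (B : ℝ) ^ 115200000 * (B : ℝ) ^ 884800000 := by
        rw [← pow_add]
      rw [e3]
      exact mul_le_mul_of_nonneg_left (hB.trans (le_self_pow₀ hB1 (by norm_num))) (by positivity)
    calc M * 1000 ≤ v.m * 1000 := by linarith
      _ = kap5 B ^ 4 * v.m * ((B : ℝ) ^ 115200000 * 1000) := by
          linear_combination (-(v.m * 1000)) * e1
      _ ≤ kap5 B ^ 4 * v.m * v.D := mul_le_mul_of_nonneg_left e2 (by positivity)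
      _ = v.m ^ 2 * (kap5 B ^ 4 * v.L) := by
          rw [hDm]
          ring
  have t3 : 64 * (((57600000 * B : ℕ) : ℝ) + 2) * v.A.card / (M5 B * v.L ^ 2) ≤
      v.m ^ 2 / 1000 := by
    unfold M5
    rw [div_le_div_iff₀ (by positivity) (by norm_num)]
    have e2 : (64000 : ℝ) ≤ (B : ℝ) ^ 712 := by
      have h3 : (1000 : ℝ) ^ 2 ≤ (B : ℝ) ^ 2 := pow_le_pow_left₀ (by norm_num) hB 2
      have h4 : (B : ℝ) ^ 2 ≤ (B : ℝ) ^ 712 := pow_le_pow_right₀ hB1 (by norm_num)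
      norm_num at h3
      linarith
    have e3 : (B : ℝ) ^ 720 = (B : ℝ) ^ 8 * (B : ℝ) ^ 712 := by rw [← pow_add]
    calc 64 * (((57600000 * B : ℕ) : ℝ) + 2) * v.A.card * 1000
        ≤ 64 * (B : ℝ) ^ 4 * ((B : ℝ) ^ 4 * v.D ^ 2) * 1000 := by gcongr
      _ = 64000 * ((B : ℝ) ^ 8 * v.D ^ 2) := by ring
      _ ≤ (B : ℝ) ^ 712 * ((B : ℝ) ^ 8 * v.D ^ 2) :=
          mul_le_mul_of_nonneg_right e2 (by positivity)
      _ = v.m ^ 2 * ((B : ℝ) ^ 720 * v.L ^ 2) := by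
          rw [e3, hDm]
          ring
  have t4 : 256 * (((57600000 * B : ℕ) : ℝ) + 2) * (((14400000 * B : ℕ) : ℝ) + 1) * M *
      ((B : ℝ) ^ 360 * v.D) / (M5 B * v.L) ≤ v.m ^ 2 / 1000 := by
    unfold M5
    rw [div_le_div_iff₀ (by positivity) (by norm_num)]
    have e2 : (256000 : ℝ) ≤ (B : ℝ) ^ 352 := by
      have h3 : (1000 : ℝ) ^ 2 ≤ (B : ℝ) ^ 2 := pow_le_pow_left₀ (by norm_num) hB 2
      have h4 : (B : ℝ) ^ 2 ≤ (B : ℝ) ^ 352 := pow_le_pow_right₀ hB1 (by norm_num)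
      norm_num at h3
      linarith
    have e3 : (B : ℝ) ^ 720 = (B : ℝ) ^ 8 * (B : ℝ) ^ 360 * (B : ℝ) ^ 352 := by
      rw [← pow_add, ← pow_add]
    calc 256 * (((57600000 * B : ℕ) : ℝ) + 2) * (((14400000 * B : ℕ) : ℝ) + 1) * M *
      ((B : ℝ) ^ 360 * v.D) * 1000
        ≤ 256 * (B : ℝ) ^ 4 * (B : ℝ) ^ 4 * v.m * ((B : ℝ) ^ 360 * v.D) * 1000 := by gcongr
      _ = 256000 * ((B : ℝ) ^ 8 * (B : ℝ) ^ 360 * v.m * v.D) := by ring
      _ ≤ (B : ℝ) ^ 352 * ((B : ℝ) ^ 8 * (B : ℝ) ^ 360 * v.m * v.D) :=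
          mul_le_mul_of_nonneg_right e2 (by positivity)
      _ = v.m ^ 2 * ((B : ℝ) ^ 720 * v.L) := by
          rw [e3, hDm]
          ring
  linarith

open Classical in
theorem typ_weight (v : BLev p) {B : ℕ} (hN : Num5 v B) :
    ∃ t : ℝ, 20 * rho5 B ≤ t ∧ t ≤ 40 * rho5 B ∧
    ∑ e ∈ (G15 v B ×ˢ G15 v B).filter (fun e => ¬ (Typ v B t e.1 e.2 ∧ Typ v B t e.2 e.1)),
      v.J e.1 * v.J e.2 ≤ v.m ^ 2 / 100 := by
  obtain ⟨t, ht1, ht2, hSh⟩ := Sh_weight v hN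
  refine ⟨t, ht1, ht2, ?_⟩
  have hm : 0 < v.m := v.m_pos
  have hMm : ∑ x ∈ G15 v B, v.J x ≤ v.m :=
    sum_le_sum_of_subset_of_nonneg (subset_univ _) fun x _ _ => v.J_nonneg x
  let PS : ZMod p → ZMod p → Prop := fun x _ =>
    ((X5 v (7 / 10) x).card : ℝ) ≤ (B : ℝ) ^ 360 * v.D ∧
      ¬ ((v.A.filter (fun c => t - 3 * e15 B < v.t x c ∧ v.t x c ≤ t)).card : ℝ) ≤
        v.D / (B : ℝ) ^ 70000
  have hkey : ∀ x ∈ G15 v B, ∀ y ∈ G15 v B, ¬ (Typ v B t x y ∧ Typ v B t y x) →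
      (¬ TypG v.toLev (kap5 B ^ 4) ((B : ℝ) ^ 360 * v.D) (M5 B) (2 * eps5 B) x y) ∨
        (PS x y ∨ PS y x) := by
    intro x _ y _ h
    by_contra hcon
    push Not at hcon
    obtain ⟨hG, h1, h2⟩ := hcon
    refine h ⟨?_, ?_⟩
    · refine ⟨hG.t0, ?_, ?_, ?_, ?_⟩
      · have := hG.t1
        rwa [sqrt_kap4] at this
      · intro g hg1 hg2
        have := hG.t2 g (by rwa [sqrt_kap4]) hg2
        exact this
      · intro r g hr1 hr2 hg1 hg2
        have := hG.t3 r g hr1 hr2 (by rwa [sqrt_kap4]) hg2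
        exact this
      · by_contra h3
        exact h1 ⟨hG.t0, h3⟩
    · have hG' := hG.symm
      refine ⟨hG'.t0, ?_, ?_, ?_, ?_⟩
      · have := hG'.t1
        rwa [sqrt_kap4] at this
      · intro g hg1 hg2
        have := hG'.t2 g (by rwa [sqrt_kap4]) hg2
        exact this
      · intro r g hr1 hr2 hg1 hg2
        have := hG'.t3 r g hr1 hr2 (by rwa [sqrt_kap4]) hg2
        exact this
      · by_contra h3
        exact h2 ⟨hG'.t0, h3⟩
  have w1 := typG_weight v hN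
  have w2 : wp v.toLev (G15 v B) PS ≤ (∑ x ∈ G15 v B, v.J x) * (v.m / 1000) := by
    refine wp_le_of_right v.toLev fun y _ => le_trans (le_of_eq ?_) hSh
    refine sum_congr ?_ fun _ _ => rfl
    ext x
    simp only [mem_filter, PS]
  have w2' : wp v.toLev (G15 v B) (fun x y => PS y x) ≤ (∑ x ∈ G15 v B, v.J x) * (v.m / 1000) := by
    rw [wp_swap v.toLev PS]
    exact w2
  have hfin := (wp_mono v.toLev hkey).trans ((wp_or v.toLev).trans (add_le_add w1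
    ((wp_or v.toLev).trans (add_le_add w2 w2'))))
  rw [wp_eq] at hfin
  refine le_trans (le_of_eq ?_) (hfin.trans ?_)
  · refine sum_congr ?_ fun _ _ => rfl
    ext e
    simp only [mem_filter]
  · have h3 : (∑ x ∈ G15 v B, v.J x) * (v.m / 1000) ≤ v.m * (v.m / 1000) :=
      mul_le_mul_of_nonneg_right hMm (by positivity)
    nlinarith

end Pool.MPbe0380.Gb
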