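import Pool.Agent.Lib.MP_be0380_co.T5.Defs
import Pool.Agent.Lib.MP_be0380_co.T5.We
import Pool.Agent.Lib.MP_be0380_co.T5.Lif
import Pool.Agent.Lib.MP_be0380_co.T5.Twi
import Pool.Agent.Lib.MP_be0380_co.T5.BasX
import Pool.Agent.Lib.MP_be0380_co.G.Machine

/-!
# be0380, module T5.Asm = (5.9): a level beta2 with the numerical facts is impossible
-/

set_option autoImplicit false

open Finset

namespace Pool.MPbe0380.Gb

variable {p : ℕ} [Fact p.Prime]

private theorem asm_rho {B : ℕ} (hB : 1000 ≤ B) : 0 < rho5 B ∧ rho5 B ≤ 1 / 1000 ∧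
    rho5 B * (B : ℝ) ^ 240 = 1 := by
  have hBr : (1000 : ℝ) ≤ (B : ℝ) := by exact_mod_cast hB
  have h1 : (1000 : ℝ) ≤ (B : ℝ) ^ 240 := by
    calc (1000 : ℝ) ≤ (B : ℝ) ^ 1 := by rw [pow_one]; exact hBr
      _ ≤ (B : ℝ) ^ 240 := pow_le_pow_right₀ (by linarith) (by norm_num)
  have h2 : (0 : ℝ) < (B : ℝ) ^ 240 := by linarith
  refine ⟨?_, ?_, ?_⟩
  · unfold rho5; positivity
  · unfold rho5
    exact one_div_le_one_div_of_le (by norm_num) h1
  · unfold rho5
    exact div_mul_cancel₀ _ h2.ne'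

private theorem asm_dist {B : ℕ} (hB : 1000 ≤ B) {r : ℝ} (h : r * (B : ℝ) ^ 240 ≤ 1) :
    r ≤ rho5 B := by
  have hBr : (1000 : ℝ) ≤ (B : ℝ) := by exact_mod_cast hB
  have h2 : (0 : ℝ) < (B : ℝ) ^ 240 := by positivity
  unfold rho5
  rwa [le_div_iff₀ h2]

private theorem asm_kap {B : ℕ} (hB : 1000 ≤ B) : 2 * kap5 B ^ 2 ≤ rho5 B := by
  have hBr : (1000 : ℝ) ≤ (B : ℝ) := by exact_mod_cast hB
  have h1 : (2 : ℝ) * (B : ℝ) ^ 240 ≤ (B : ℝ) ^ 57600000 := by
    calc (2 : ℝ) * (B : ℝ) ^ 240 ≤ (B : ℝ) * (B : ℝ) ^ 240 :=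
          mul_le_mul_of_nonneg_right (by linarith) (by positivity)
      _ = (B : ℝ) ^ 241 := by rw [pow_succ (B : ℝ) 240]; ring
      _ ≤ (B : ℝ) ^ 57600000 := pow_le_pow_right₀ (by linarith) (by norm_num)
  unfold kap5 rho5
  rw [div_pow, one_pow, ← pow_mul, mul_one_div, div_le_div_iff₀ (by positivity) (by positivity)]
  calc (2 : ℝ) * (B : ℝ) ^ 240 ≤ (B : ℝ) ^ 57600000 := h1
    _ = 1 * (B : ℝ) ^ (28800000 * 2) := by rw [one_mul]

private theorem asm_e1 {B : ℕ} (hB : 1000 ≤ B) : e15 B ≤ 2 * rho5 B := by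
  have hBr : (1000 : ℝ) ≤ (B : ℝ) := by exact_mod_cast hB
  have h1 : e15 B ≤ rho5 B := by
    unfold e15 rho5
    exact one_div_le_one_div_of_le (by positivity)
      (pow_le_pow_right₀ (by linarith) (by norm_num))
  have := (asm_rho hB).1
  linarith

theorem no5 (v : BLev p) {B : ℕ} (hN : Num5 v B) (hG : v.m / 2 ≤ ∑ x ∈ G15 v B, v.J x) :
    False := by
  classical
  obtain ⟨t, ht1, ht2, hw⟩ := typ_weight v hN
  have hB := hN.B_ge
  obtain ⟨hr0, hr1, hr2⟩ := asm_rho hB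
  have hm : 0 < v.m := v.m_pos
  have hL : 0 < v.L := v.L_pos
  have hD : 0 < v.D := mul_pos hm hL
  have hBr : (1000 : ℝ) ≤ (B : ℝ) := by exact_mod_cast hB
  have ht7 : t ≤ 7 / 10 := by linarith
  have hJ : ∀ x, 0 ≤ v.J x := v.J_nonneg
  have hXsub : ∀ x, X5 v t x ⊆ X5 v (7 / 10) x := fun x c hc => by
    rw [mem_X5] at hc ⊢
    exact ⟨hc.1, hc.2.trans ht7⟩
  set h : ℝ := (B : ℝ) ^ 360 * v.D with hh
  set G0 : Finset (ZMod p) := (G15 v B).filter (fun x => HasBase5 v B t x ∧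
    ((X5 v (7 / 10) x).card : ℝ) ≤ h) with hG0
  have hG0G : ∀ x ∈ G0, x ∈ G15 v B := fun x hx => (mem_filter.mp hx).1
  have hG0s : ∀ x ∈ G0, x ∈ v.supp := fun x hx => G15_sub v B (hG0G x hx)
  set W : ℝ := ∑ x ∈ G0, v.J x with hW
  set R : Finset (ZMod p) := (G15 v B).filter (fun x => ¬ (HasBase5 v B t x ∧
    ((X5 v (7 / 10) x).card : ℝ) ≤ h)) with hR
  have hsplit : W + ∑ x ∈ R, v.J x = ∑ x ∈ G15 v B, v.J x :=
    sum_filter_add_sum_filter_not _ _ _
  have hR0 : 0 ≤ ∑ x ∈ R, v.J x := sum_nonneg fun x _ => hJ x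
  -- the elements without a base
  have hRsq : (∑ x ∈ R, v.J x) ^ 2 ≤ v.m ^ 2 / 100 := by
    refine le_trans ?_ hw
    rw [sq, sum_mul_sum, ← sum_product']
    refine sum_le_sum_of_subset_of_nonneg ?_ fun e _ _ => mul_nonneg (hJ _) (hJ _)
    intro e he
    rw [mem_product] at he
    have h1 := mem_filter.mp he.1
    have h2 := mem_filter.mp he.2
    refine mem_filter.mpr ⟨mem_product.mpr ⟨h1.1, h2.1⟩, fun hgd => ?_⟩
    rcases base5 v hN ht1 ht2 h1.1 h2.1 hgd.1 hgd.2 with hb | hb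
    · exact h1.2 ⟨hb, hgd.1.T0⟩
    · exact h2.2 ⟨hb, hgd.2.T0⟩
  have hRle : ∑ x ∈ R, v.J x ≤ v.m / 10 := by
    by_contra hcon
    push Not at hcon
    nlinarith
  have hW4 : 2 / 5 * v.m ≤ W := by linarith
  set Pr : Finset (ZMod p × ZMod p) := (G0 ×ˢ G0).filter
    (fun e => Typ v B t e.1 e.2 ∧ Typ v B t e.2 e.1) with hPr
  have hPrw : (9 / 10 : ℝ) * W ^ 2 ≤ ∑ e ∈ Pr, v.J e.1 * v.J e.2 := by
    have h1 : ∑ e ∈ Pr, v.J e.1 * v.J e.2 + ∑ e ∈ (G0 ×ˢ G0).filter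
        (fun e => ¬ (Typ v B t e.1 e.2 ∧ Typ v B t e.2 e.1)), v.J e.1 * v.J e.2 = W ^ 2 := by
      rw [hPr, sum_filter_add_sum_filter_not, hW, sq, sum_mul_sum, ← sum_product']
    have h2 : ∑ e ∈ (G0 ×ˢ G0).filter (fun e => ¬ (Typ v B t e.1 e.2 ∧ Typ v B t e.2 e.1)),
        v.J e.1 * v.J e.2 ≤ v.m ^ 2 / 100 := by
      refine le_trans ?_ hw
      refine sum_le_sum_of_subset_of_nonneg ?_ fun e _ _ => mul_nonneg (hJ _) (hJ _)
      intro e he
      rw [mem_filter, mem_product] at he ⊢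
      exact ⟨⟨hG0G _ he.1.1, hG0G _ he.1.2⟩, he.2⟩
    nlinarith
  have hPrm : ∀ x y, (x, y) ∈ Pr → (x ∈ G0 ∧ y ∈ G0) ∧ Typ v B t x y ∧ Typ v B t y x := by
    intro x y hxy
    rw [hPr, mem_filter, mem_product] at hxy
    exact hxy
  have hnear : ∀ x ∈ G0, ∀ c, v.dist (c - x) * (B : ℝ) ^ 240 ≤ 1 → v.t x c ≤ rho5 B := by
    intro x hx c hd
    have h1 := v.f_lip (hG0s x hx) c x
    rw [v.f_self (hG0s x hx)] at h1
    have h2 := (abs_le.mp (h1.trans (asm_dist hB hd))).1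
    unfold Lev.t
    linarith
  have hnear' : ∀ x ∈ G0, ∀ y ∈ G0, |v.f y x| ≤ 2 * kap5 B ^ 2 → ∀ c,
      v.dist (c - x) * (B : ℝ) ^ 240 ≤ 1 → |v.f y c| ≤ 2 * rho5 B := by
    intro x hx y hy hT c hd
    have h1 := (v.f_lip (hG0s y hy) c x).trans (asm_dist hB hd)
    have h2 := asm_kap hB
    have h3 : |v.f y c| ≤ |v.f y c - v.f y x| + |v.f y x| := by
      have := abs_add_le (v.f y c - v.f y x) (v.f y x)
      rwa [sub_add_cancel] at this
    linarith
  refine gibbs_machine v.toLev B h G0 (fun x => X5 v t x) Pr (by omega) hN.small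
    (by positivity) ?_ (fun x hx => hG0s x hx) (by linarith) ?_ ?_ ?_ ?_ (filter_subset _ _) ?_ hPrw
    ?_ ?_
  · -- h ≤ b_0^10 D
    refine mul_le_mul_of_nonneg_right ?_ hD.le
    rw [← pow_mul]
    exact pow_le_pow_right₀ (by linarith) (by norm_num)
  · intro x _ c hc
    exact (mem_X5.mp hc).1
  · intro x hx
    refine le_trans ?_ (mem_filter.mp hx).2.2
    exact_mod_cast card_le_card (hXsub x)
  · intro x hx c hc hd
    exact mem_X5.mpr ⟨hc, (hnear x hx c hd).trans (by linarith)⟩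
  · intro x hx
    exact (mem_filter.mp hx).2.1
  · intro x y hxy
    obtain ⟨⟨h1, h2⟩, h3, h4⟩ := hPrm x y hxy
    exact mem_filter.mpr ⟨mem_product.mpr ⟨h2, h1⟩, h4, h3⟩
  · -- twins
    intro x y hxy q hq q' hq' h1 h2
    obtain ⟨⟨hx, hy⟩, h3, h4⟩ := hPrm x y hxy
    obtain ⟨c, hc, d, hd, hcd, hne⟩ := v.nus q hq q' hq'
    have htw := twins5 v hN (hG0G x hx) (hG0G y hy) h3 h4 (s := 2 * rho5 B) (asm_e1 hB)
      (by linarith) hq hq' hc hd hcd ((hnear x hx q h1).trans (by linarith))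
      (hnear' x hx y hy h4.T1 q h1) ((hnear y hy q' h2).trans (by linarith))
      (hnear' y hy x hx h3.T1 q' h2)
    rcases htw with ⟨g1, g2⟩ | ⟨g1, g2⟩
    · refine ⟨q - c, ?_, ?_, ?_⟩
      · intro h0
        have e1 : q = c := sub_eq_zero.mp h0
        have e2 : d = q' := by
          have := hcd
          rw [e1] at this
          exact add_left_cancel this
        exact hne (by rw [e1, e2])
      · have e : q - (q - c) = c := by ring
        show q - (q - c) ∈ X5 v t x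
        rw [e]
        exact mem_X5.mpr ⟨hc, by linarith⟩
      · have e : q' + (q - c) = d := by
          have : d = q + q' - c := by rw [← hcd]; ring
          rw [this]; ring
        show q' + (q - c) ∈ X5 v t y
        rw [e]
        exact mem_X5.mpr ⟨hd, by linarith⟩
    · refine ⟨q - d, ?_, ?_, ?_⟩
      · intro h0
        have e1 : q = d := sub_eq_zero.mp h0
        have e2 : c = q' := by
          have := hcd
          rw [e1, add_comm] at this
          exact add_left_cancel this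
        exact hne (by rw [e1, e2]; exact Sym2.eq_swap)
      · have e : q - (q - d) = d := by ring
        show q - (q - d) ∈ X5 v t x
        rw [e]
        exact mem_X5.mpr ⟨hd, by linarith⟩
      · have e : q' + (q - d) = c := by
          have : c = q + q' - d := by rw [← hcd]; ring
          rw [this]; ring
        show q' + (q - d) ∈ X5 v t y
        rw [e]
        exact mem_X5.mpr ⟨hc, by linarith⟩
  · intro x y hxy
    obtain ⟨⟨hx, hy⟩, h3, h4⟩ := hPrm x y hxy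
    obtain ⟨μ, hμ, g1, g2⟩ := lift5 v hN (hG0G x hx) (hG0G y hy) h3.T0 h4.T0
    exact lift_of_mu hμ x y (X5 v t x) (X5 v t y) (fun c hc => g1 c (hXsub x hc))
      (fun c hc => g2 c (hXsub y hc))

end Pool.MPbe0380.Gb
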