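import Pool.Agent.Lib.MP_be0380_co.T5.Num
import Pool.Agent.Lib.MP_be0380_co.T5.Asm

/-!
# be0380, module T5.Beta2 = Proposition 5: no levels (beta2) for `k` large
-/

set_option autoImplicit false

open Finset

namespace Pool.MPbe0380.Gb

open Classical in
theorem no_beta2 : ∃ k2 : ℕ, ∀ (p : ℕ) [Fact p.Prime] (v : BLev p), k2 ≤ v.k →
    v.D < ((2 : ℝ) ^ v.k) ^ (1 / 100 : ℝ) * √(v.A.card : ℝ) →
    v.m / 2 ≤ ∑ x ∈ v.supp.filter
      (fun x => v.E (fun l => u x l ^ 2) < ((2 : ℝ) ^ v.k) ^ (-1 / 300 : ℝ) * v.L), v.J x → False := by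
  obtain ⟨k2, h2⟩ := num5
  refine ⟨k2, ?_⟩
  intro p _ v hk hD hm
  obtain ⟨B, hN, hkap⟩ := h2 p v hk hD
  refine no5 v hN (hm.trans ?_)
  refine sum_le_sum_of_subset_of_nonneg ?_ fun x _ _ => v.J_nonneg x
  intro x hx
  rw [mem_filter] at hx
  refine mem_filter.mpr ⟨hx.1, hx.2.le.trans ?_⟩
  exact mul_le_mul_of_nonneg_right hkap v.L_pos.le

end Pool.MPbe0380.Gb
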