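import Pool.Agent.Lib.MP_be0380_co.T5.Coarse

/-!
# be0380, (5.8)(iii): a base from a bound for the dimension
-/

set_option autoImplicit false

open Finset Module

namespace Pool.MPbe0380.Gb

/-! ### nets in finite-dimensional normed spaces -/

section net

variable (E : Type*) [NormedAddCommGroup E] [NormedSpace ℝ E] [FiniteDimensional ℝ E]

/-- the ball of radius `2` is covered by `5 ^ dim` balls of radius `1` -/
theorem exists_net_two : ∃ S : Finset E, S.card ≤ 5 ^ finrank ℝ E ∧
    ∀ φ : E, ‖φ‖ ≤ 2 → ∃ c ∈ S, ‖φ - c‖ ≤ 1 := by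
  classical
  by_contra hcon
  push Not at hcon
  have key : ∀ n : ℕ, ∃ S : Finset E, S.card = n ∧ (∀ c ∈ S, ‖c‖ ≤ 2) ∧
      ∀ c ∈ S, ∀ d ∈ S, c ≠ d → 1 ≤ ‖c - d‖ := by
    intro n
    induction n with
    | zero => exact ⟨∅, rfl, fun c hc => absurd hc (notMem_empty c),
        fun c hc => absurd hc (notMem_empty c)⟩
    | succ n ih =>
      obtain ⟨S, hS, h1, h2⟩ := ih
      obtain ⟨φ, hφ, hφ2⟩ := hcon S (Besicovitch.card_le_of_separated S h1 h2)
      have hφS : φ ∉ S := by
        intro h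
        have := hφ2 φ h
        rw [sub_self, norm_zero] at this
        linarith
      refine ⟨insert φ S, by rw [card_insert_of_notMem hφS, hS], ?_, ?_⟩
      · intro c hc
        rcases mem_insert.mp hc with h | h
        · rw [h]; exact hφ
        · exact h1 c h
      · intro c hc d hd hcd
        rcases mem_insert.mp hc with h | h <;> rcases mem_insert.mp hd with h' | h'
        · exact absurd (h.trans h'.symm) hcd
        · rw [h]; exact (hφ2 d h').le
        · rw [h', norm_sub_rev]; exact (hφ2 c h).le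
        · exact h2 c h d h' hcd
  obtain ⟨S, hS, h1, h2⟩ := key (5 ^ finrank ℝ E + 1)
  have := Besicovitch.card_le_of_separated S h1 h2
  omega

/-- the ball of radius `R` is covered by `5 ^ dim` balls of radius `R / 2` -/
theorem exists_net_half {R : ℝ} (hR : 0 < R) : ∃ S : Finset E, S.card ≤ 5 ^ finrank ℝ E ∧
    ∀ φ : E, ‖φ‖ ≤ R → ∃ c ∈ S, ‖φ - c‖ ≤ R / 2 := by
  classical
  obtain ⟨S, hS, h⟩ := exists_net_two E
  refine ⟨S.image (fun c => (R / 2) • c), card_image_le.trans hS, fun φ hφ => ?_⟩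
  have hR2 : 0 < R / 2 := by positivity
  obtain ⟨c, hc, hc2⟩ := h ((R / 2)⁻¹ • φ) (by
    rw [norm_smul, norm_inv, Real.norm_of_nonneg hR2.le, inv_mul_le_iff₀ hR2]
    linarith)
  refine ⟨(R / 2) • c, mem_image_of_mem _ hc, ?_⟩
  have h1 : φ - (R / 2) • c = (R / 2) • ((R / 2)⁻¹ • φ - c) := by
    rw [smul_sub, smul_inv_smul₀ hR2.ne']
  rw [h1, norm_smul, Real.norm_of_nonneg hR2.le]
  nlinarith

/-- the ball of radius `R` is covered by `5 ^ (dim * b)` balls of radius `R / 2 ^ b` -/
theorem exists_net {R : ℝ} (hR : 0 < R) (b : ℕ) : ∃ S : Finset E,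
    S.card ≤ 5 ^ (finrank ℝ E * b) ∧ ∀ φ : E, ‖φ‖ ≤ R → ∃ c ∈ S, ‖φ - c‖ ≤ R * (1 / 2) ^ b := by
  classical
  induction b with
  | zero =>
    refine ⟨{0}, by simp, fun φ hφ => ⟨0, mem_singleton_self _, ?_⟩⟩
    rw [sub_zero, pow_zero, mul_one]
    exact hφ
  | succ b ih =>
    obtain ⟨S, hS, h⟩ := ih
    obtain ⟨T, hT, h'⟩ := exists_net_half E (by positivity : 0 < R * (1 / 2 : ℝ) ^ b)
    refine ⟨(S ×ˢ T).image (fun e => e.1 + e.2), ?_, fun φ hφ => ?_⟩
    · refine card_image_le.trans ?_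
      rw [card_product, mul_add, mul_one, pow_add]
      exact Nat.mul_le_mul hS hT
    · obtain ⟨c, hc, hc2⟩ := h φ hφ
      obtain ⟨d, hd, hd2⟩ := h' (φ - c) hc2
      refine ⟨c + d, mem_image.mpr ⟨(c, d), mem_product.mpr ⟨hc, hd⟩, rfl⟩, ?_⟩
      rw [← sub_sub]
      refine hd2.trans (le_of_eq ?_)
      rw [pow_succ]
      ring

end net

variable {p : ℕ} [Fact p.Prime]

/-! ### angles -/

theorem th_eq_valMinAbs (a l : ZMod p) :
    th a l = 2 * Real.pi * ((a * l).valMinAbs : ℝ) / p := by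
  have hp0 : 0 < p := (Fact.out : p.Prime).pos
  have hp0' : (0 : ℝ) < p := by exact_mod_cast hp0
  have hpi := Real.pi_pos
  refine th_of_exp ?_ ?_
  · have h : a * l = (((a * l).valMinAbs : ℤ) : ZMod p) := (ZMod.coe_valMinAbs _).symm
    rw [z]
    conv_lhs => rw [h, ZMod.stdAddChar_coe]
    congr 1
    push_cast
    ring
  · have h := ZMod.valMinAbs_mem_Ioc (a * l)
    have h1 : -(p : ℝ) < (a * l).valMinAbs * 2 := by exact_mod_cast h.1
    have h2 : ((a * l).valMinAbs : ℝ) * 2 ≤ p := by exact_mod_cast h.2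
    constructor
    · rw [lt_div_iff₀ hp0']
      nlinarith
    · rw [div_le_iff₀ hp0']
      nlinarith

theorem nrm_eq (a l : ZMod p) : nrm (a * l) = |th a l| / (2 * Real.pi) := by
  have hp0 : 0 < p := (Fact.out : p.Prime).pos
  have hp0' : (0 : ℝ) < p := by exact_mod_cast hp0
  have hpi := Real.pi_pos
  rw [th_eq_valMinAbs, abs_div, abs_mul, abs_of_pos (by positivity : 0 < 2 * Real.pi),
    abs_of_pos hp0', nrm, Nat.cast_natAbs, Int.cast_abs]
  field_simp

/-- `th` is the smallest angle -/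
theorem abs_th_le_of_exp {a l : ZMod p} {θ : ℝ} (h : z a l = Complex.exp ((θ : ℂ) * Complex.I)) :
    |th a l| ≤ |θ| := by
  by_cases h1 : |θ| < Real.pi
  · have h2 := abs_lt.mp h1
    rw [th_of_exp h ⟨h2.1, h2.2.le⟩]
  · exact (abs_th_le a l).trans (not_lt.mp h1)

/-- angle of a second difference -/
theorem abs_th_sub_sub_le (c c' y l l' l0 : ZMod p) :
    |th (c - c') (l - l')| ≤ |th (c - y) (l - l0) - th (c - y) (l' - l0)| +
      |th (c' - y) (l - l0) - th (c' - y) (l' - l0)| := by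
  have h1 : z (c - c') (l - l') = Complex.exp ((((th (c - y) (l - l0) - th (c - y) (l' - l0)) -
      (th (c' - y) (l - l0) - th (c' - y) (l' - l0)) : ℝ) : ℂ) * Complex.I) := by
    have hz : ∀ g m : ZMod p, Complex.exp (-(th g m : ℂ) * Complex.I) * z g m = 1 := by
      intro g m
      rw [← exp_th g m, ← Complex.exp_add]
      have : -(th g m : ℂ) * Complex.I + (th g m : ℂ) * Complex.I = 0 := by ring
      rw [this, Complex.exp_zero]
    have h2 : Complex.exp ((((th (c - y) (l - l0) - th (c - y) (l' - l0)) -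
      (th (c' - y) (l - l0) - th (c' - y) (l' - l0)) : ℝ) : ℂ) * Complex.I) =
      z (c - y) (l - l0) * Complex.exp (-(th (c - y) (l' - l0) : ℂ) * Complex.I) *
      (Complex.exp (-(th (c' - y) (l - l0) : ℂ) * Complex.I) * z (c' - y) (l' - l0)) := by
      rw [← exp_th (c - y) (l - l0), ← exp_th (c' - y) (l' - l0), ← Complex.exp_add,
        ← Complex.exp_add, ← Complex.exp_add]
      congr 1
      push_cast
      ring
    rw [h2]
    have h3 := hz (c - y) (l' - l0)
    have h4 := hz (c' - y) (l - l0)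
    have h5 : z (c - y) (l - l0) * z (c' - y) (l' - l0) =
        z (c - c') (l - l') * (z (c - y) (l' - l0) * z (c' - y) (l - l0)) := by
      simp only [z]
      rw [← AddChar.map_add_eq_mul, ← AddChar.map_add_eq_mul, ← AddChar.map_add_eq_mul]
      congr 1
      ring
    have h6 : z (c - y) (l - l0) * Complex.exp (-(th (c - y) (l' - l0) : ℂ) * Complex.I) *
      (Complex.exp (-(th (c' - y) (l - l0) : ℂ) * Complex.I) * z (c' - y) (l' - l0)) =
      (z (c - y) (l - l0) * z (c' - y) (l' - l0)) *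
        (Complex.exp (-(th (c - y) (l' - l0) : ℂ) * Complex.I) *
          Complex.exp (-(th (c' - y) (l - l0) : ℂ) * Complex.I)) := by ring
    rw [h6, h5]
    have h7 : z (c - c') (l - l') * (z (c - y) (l' - l0) * z (c' - y) (l - l0)) *
        (Complex.exp (-(th (c - y) (l' - l0) : ℂ) * Complex.I) *
          Complex.exp (-(th (c' - y) (l - l0) : ℂ) * Complex.I)) =
        z (c - c') (l - l') *
          ((Complex.exp (-(th (c - y) (l' - l0) : ℂ) * Complex.I) * z (c - y) (l' - l0)) *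
          (Complex.exp (-(th (c' - y) (l - l0) : ℂ) * Complex.I) * z (c' - y) (l - l0))) := by ring
    rw [h7, h3, h4, mul_one, mul_one]
  refine (abs_th_le_of_exp h1).trans ?_
  exact abs_sub _ _

namespace Lev

variable (v : Lev p)

/-- (5.8)(iii) -/
theorem base_of_rank (F0 : Setoid (ZMod p)) (y : ZMod p) (Y : Finset (ZMod p))
    (U : Submodule ℝ ({c // c ∈ Y} → ℝ)) (r : ℕ) (hr : finrank ℝ U ≤ r)
    (hU : ∀ l l', F0.r l l' → (fun c : {c // c ∈ Y} => th ((c : ZMod p) - y) (l - l')) ∈ U)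
    (hth : ∀ l l', F0.r l l' → ∀ c ∈ Y, |th (c - y) (l - l')| < Real.pi / 4) (b : ℕ) :
    ∃ F : Setoid (ZMod p), v.cost F ≤ v.cost F0 + 2 * r * b ∧
      ∀ c ∈ Y, ∀ c' ∈ Y, N F (c - c') ≤ (1 / 2 : ℝ) ^ b := by
  classical
  have hpi := Real.pi_pos
  -- representatives of the cells
  let rep : ZMod p → ZMod p := fun l => (Quotient.mk F0 l).out
  have hrep : ∀ l, F0.r l (rep l) := fun l => F0.symm' (Quotient.mk_out l)
  have hrep2 : ∀ l l', F0.r l l' → rep l = rep l' := by
    intro l l' h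
    have : Quotient.mk F0 l = Quotient.mk F0 l' := Quotient.sound h
    change (Quotient.mk F0 l).out = (Quotient.mk F0 l').out
    rw [this]
  let φ : ZMod p → U := fun l => ⟨fun c => th ((c : ZMod p) - y) (l - rep l), hU l _ (hrep l)⟩
  have hφ : ∀ l, ‖φ l‖ ≤ Real.pi / 4 := by
    intro l
    rw [← Submodule.norm_coe]
    rw [pi_norm_le_iff_of_nonneg (by positivity)]
    intro c
    exact (hth l _ (hrep l) c c.2).le
  obtain ⟨S, hS, hnet⟩ := exists_net U (by positivity : 0 < Real.pi / 4) b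
  let idx : ZMod p → S := fun l => ⟨(hnet (φ l) (hφ l)).choose, (hnet (φ l) (hφ l)).choose_spec.1⟩
  have hidx : ∀ l, ‖φ l - (idx l : U)‖ ≤ Real.pi / 4 * (1 / 2) ^ b :=
    fun l => (hnet (φ l) (hφ l)).choose_spec.2
  refine ⟨F0 ⊓ Setoid.ker idx, ?_, ?_⟩
  · have h1 := cent_inf (om v.I) (om_pos v.I) (isLaw_om v.I).2 F0 (Setoid.ker idx)
    have : Nonempty S := ⟨idx 0⟩
    have h2 := cent_ker_le (om v.I) (om_pos v.I) (isLaw_om v.I).2 idx
    have h3 : Real.log (Fintype.card S) ≤ 2 * r * b := by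
      rw [Fintype.card_coe]
      have h4 : (S.card : ℝ) ≤ 5 ^ (r * b) := by
        exact_mod_cast hS.trans (Nat.pow_le_pow_right (by norm_num) (Nat.mul_le_mul_right b hr))
      have h5 : 0 < (S.card : ℝ) := by
        have : 0 < S.card := card_pos.mpr ⟨_, (idx 0).2⟩
        exact_mod_cast this
      have h6 := Real.log_le_log h5 h4
      rw [Real.log_pow] at h6
      have h7 : Real.log 5 ≤ 2 := by
        rw [Real.log_le_iff_le_exp (by norm_num)]
        have h8 : Real.exp 2 = Real.exp 1 * Real.exp 1 := by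
          rw [← Real.exp_add]
          norm_num
        have h9 : (2.7182818283 : ℝ) < Real.exp 1 := Real.exp_one_gt_d9
        rw [h8]
        nlinarith
      refine h6.trans ?_
      push_cast
      have h8 : (0 : ℝ) ≤ (r : ℝ) * b := by positivity
      nlinarith
    unfold Lev.cost
    linarith
  · intro c hc c' hc'
    unfold Lev.N
    refine sup'_le _ _ fun e he => ?_
    have he2 : (F0 ⊓ Setoid.ker idx).r e.1 e.2 := (mem_filter.mp he).2
    have h1 : rep e.1 = rep e.2 := hrep2 _ _ he2.1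
    have h2 : idx e.1 = idx e.2 := he2.2
    have h3 : ‖φ e.1 - φ e.2‖ ≤ Real.pi / 2 * (1 / 2) ^ b := by
      have h4 : φ e.1 - φ e.2 = (φ e.1 - (idx e.1 : U)) - (φ e.2 - (idx e.2 : U)) := by
        rw [h2]
        abel
      rw [h4]
      refine (norm_sub_le _ _).trans ?_
      have h5 := hidx e.1
      have h6 := hidx e.2
      linarith
    have h4 : ∀ d ∈ Y, |th (d - y) (e.1 - rep e.1) - th (d - y) (e.2 - rep e.1)| ≤
        Real.pi / 2 * (1 / 2) ^ b := by
      intro d hd
      rw [← Submodule.norm_coe] at h3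
      have h5 := (pi_norm_le_iff_of_nonneg (by positivity)).mp h3 ⟨d, hd⟩
      rw [Real.norm_eq_abs] at h5
      refine le_trans (le_of_eq ?_) h5
      congr 1
      change th (d - y) (e.1 - rep e.1) - th (d - y) (e.2 - rep e.1) =
        th (d - y) (e.1 - rep e.1) - th (d - y) (e.2 - rep e.2)
      rw [← h1]
    have h5 := abs_th_sub_sub_le c c' y e.1 e.2 (rep e.1)
    rw [nrm_eq, div_le_iff₀ (by positivity)]
    have h6 := h4 c hc
    have h7 := h4 c' hc'
    have h8 : (0 : ℝ) ≤ (1 / 2) ^ b := by positivity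
    nlinarith

end Lev

end Pool.MPbe0380.Gb
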