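import Pool.Agent.Lib.MP_be0380_co.T5.Defs

/-!
# be0380, module T5.Cov = (5.8) (iii): covers

The ball of radius pi/4 (sup norm) of a space of dimension d is covered by 5^(d b) sets of diameter <= pi 2^(-b).
Proof. Let B(s) = {ph in U : sup |ph| <= s}. A maximal s-separated subset (distances > s) of a ball of radius s... : a ball of radius s (sup norm,
dimension d) is covered by 5^d balls of radius s/2 with centres in it: choose a maximal subset of points of pairwise distance > s/2 in the ball;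
the balls of radius s/4 around them are disjoint and lie in the ball of radius 5s/4, so (volume in U, any Haar measure; the measure of a ball of
radius s is s^d times that of the unit ball) their number is <= 5^d. Iterate b times: 5^(d b) balls of radius (pi/4) 2^(-b), of diameter
<= (pi/2) 2^(-b). (Mathlib: Besicovitch.card_le_of_separated gives: a set s in the ball of radius 2 of E with pairwise distances >= 1 has
card <= 5^(finrank E), for a normed space E: exactly what is needed, scaled by 2^(j) 4/pi... with E = U as a submodule of (ι → ℝ), sup norm.)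
-/

set_option autoImplicit false

open Finset

namespace Pool.MPbe0380.Gb

variable {p : ℕ} [Fact p.Prime]

/-- a ball of radius two is covered by `5 ^ d` balls of radius one -/
private theorem cov_unit (E : Type) [NormedAddCommGroup E] [NormedSpace ℝ E]
    [FiniteDimensional ℝ E] :
    ∃ D : Finset E, D.card ≤ 5 ^ Module.finrank ℝ E ∧ ∀ x : E, ‖x‖ ≤ 2 → ∃ y ∈ D, ‖x - y‖ ≤ 1 := by
  classical
  let Q : ℕ → Prop := fun n => ∃ D : Finset E, D.card = n ∧ (∀ c ∈ D, ‖c‖ ≤ 2) ∧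
    ∀ c ∈ D, ∀ d ∈ D, c ≠ d → 1 ≤ ‖c - d‖
  have hb : ∀ n, Q n → n ≤ 5 ^ Module.finrank ℝ E := by
    rintro n ⟨D, rfl, h1, h2⟩
    exact Besicovitch.card_le_of_separated D h1 h2
  have h0 : Q 0 := ⟨∅, rfl, by simp, by simp⟩
  obtain ⟨D, hD, h1, h2⟩ := Nat.findGreatest_spec (P := Q) (Nat.zero_le (5 ^ Module.finrank ℝ E)) h0
  refine ⟨D, hD ▸ Nat.findGreatest_le _, fun x hx => ?_⟩
  by_contra hcon
  push Not at hcon
  have hxD : x ∉ D := by
    intro h
    have := hcon x h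
    simp at this
    linarith
  have hQ : Q (D.card + 1) := by
    refine ⟨insert x D, by rw [card_insert_of_notMem hxD], ?_, ?_⟩
    · intro c hc
      rcases mem_insert.mp hc with rfl | hc
      · exact hx
      · exact h1 c hc
    · intro c hc d hd hcd
      rcases mem_insert.mp hc with rfl | hc'
      · rcases mem_insert.mp hd with rfl | hd'
        · exact absurd rfl hcd
        · exact (hcon d hd').le
      · rcases mem_insert.mp hd with rfl | hd'
        · rw [norm_sub_rev]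
          exact (hcon c hc').le
        · exact h2 c hc' d hd' hcd
  have := Nat.le_findGreatest (hb _ hQ) hQ
  rw [← hD] at this
  omega

/-- iterated covers -/
private theorem cov_iter (E : Type) [NormedAddCommGroup E] [NormedSpace ℝ E]
    [FiniteDimensional ℝ E] (r : ℝ) (hr : 0 < r) (b : ℕ) :
    ∃ C : Finset E, C.card ≤ 5 ^ (Module.finrank ℝ E * b) ∧
      ∀ x : E, ‖x‖ ≤ r → ∃ y ∈ C, ‖x - y‖ ≤ r * (1 / 2) ^ b := by
  classical
  induction b with
  | zero =>
    refine ⟨{0}, by simp, fun x hx => ⟨0, by simp, by simpa using hx⟩⟩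
  | succ b ih =>
    obtain ⟨C, hC, hC2⟩ := ih
    obtain ⟨D, hD, hD2⟩ := cov_unit E
    have hs : 0 < r * (1 / 2) ^ b := by positivity
    refine ⟨(C ×ˢ D).image fun q => q.1 + (r * (1 / 2) ^ (b + 1)) • q.2, ?_, fun x hx => ?_⟩
    · refine card_image_le.trans ?_
      rw [card_product, Nat.mul_succ, pow_add]
      exact Nat.mul_le_mul hC hD
    · obtain ⟨y, hy, hy2⟩ := hC2 x hx
      set s : ℝ := r * (1 / 2) ^ b with hsdef
      have hs2 : r * (1 / 2 : ℝ) ^ (b + 1) = s / 2 := by rw [hsdef, pow_succ]; ring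
      obtain ⟨z, hz, hz2⟩ := hD2 ((2 / s) • (x - y)) (by
        rw [norm_smul, Real.norm_of_nonneg (by positivity)]
        rw [div_mul_eq_mul_div, div_le_iff₀ hs]
        nlinarith)
      refine ⟨y + (s / 2) • z, mem_image.mpr ⟨(y, z), mem_product.mpr ⟨hy, hz⟩, by rw [hs2]⟩, ?_⟩
      rw [hs2]
      have e : x - (y + (s / 2) • z) = (s / 2) • ((2 / s) • (x - y) - z) := by
        rw [smul_sub, smul_smul, show s / 2 * (2 / s) = 1 by field_simp, one_smul]
        abel
      rw [e, norm_smul, Real.norm_of_nonneg (by positivity)]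
      nlinarith

theorem cover5 {ι : Type} [Fintype ι] (U : Submodule ℝ (ι → ℝ)) (b : ℕ) :
    ∃ c : (ι → ℝ) → Fin (5 ^ (Module.finrank ℝ U * b)), ∀ φ ∈ U, ∀ ψ ∈ U,
      (∀ i, |φ i| ≤ Real.pi / 4) → (∀ i, |ψ i| ≤ Real.pi / 4) → c φ = c ψ →
        ∀ i, |φ i - ψ i| ≤ Real.pi * (1 / 2) ^ b := by
  classical
  obtain ⟨C, hC, hC2⟩ := cov_iter U (Real.pi / 4) (by positivity) b
  have hpos : 0 < 5 ^ (Module.finrank ℝ U * b) := by positivity
  let Pr : (ι → ℝ) → Prop := fun φ => ∃ h : φ ∈ U, ‖(⟨φ, h⟩ : U)‖ ≤ Real.pi / 4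
  let ce : ∀ φ : ι → ℝ, Pr φ → U := fun φ h => (hC2 ⟨φ, h.1⟩ h.2).choose
  have hce : ∀ φ (h : Pr φ), ce φ h ∈ C ∧ ‖(⟨φ, h.1⟩ : U) - ce φ h‖ ≤ Real.pi / 4 * (1 / 2) ^ b :=
    fun φ h => (hC2 ⟨φ, h.1⟩ h.2).choose_spec
  let c : (ι → ℝ) → Fin (5 ^ (Module.finrank ℝ U * b)) := fun φ =>
    if h : Pr φ then Fin.castLE hC (C.equivFin ⟨ce φ h, (hce φ h).1⟩) else ⟨0, hpos⟩
  have hPr : ∀ φ ∈ U, (∀ i, |φ i| ≤ Real.pi / 4) → Pr φ := by
    intro φ hφ h
    refine ⟨hφ, ?_⟩
    rw [Submodule.coe_norm]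
    exact (pi_norm_le_iff_of_nonneg (by positivity)).mpr h
  refine ⟨c, fun φ hφ ψ hψ h1 h2 h12 i => ?_⟩
  have p1 := hPr φ hφ h1
  have p2 := hPr ψ hψ h2
  have h3 : ce φ p1 = ce ψ p2 := by
    simp only [c, dif_pos p1, dif_pos p2] at h12
    have h4 := C.equivFin.injective (Fin.castLE_injective hC h12)
    exact congrArg Subtype.val h4
  have h5 := (hce φ p1).2
  have h6 := (hce ψ p2).2
  rw [← h3, norm_sub_rev] at h6
  have h7 : ‖(⟨φ, p1.1⟩ : U) - ⟨ψ, p2.1⟩‖ ≤ Real.pi / 2 * (1 / 2) ^ b := by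
    calc ‖(⟨φ, p1.1⟩ : U) - ⟨ψ, p2.1⟩‖
        = ‖((⟨φ, p1.1⟩ : U) - ce φ p1) + (ce φ p1 - ⟨ψ, p2.1⟩)‖ := by rw [sub_add_sub_cancel]
      _ ≤ _ := norm_add_le _ _
      _ ≤ _ := by linarith
  have h8 : |φ i - ψ i| ≤ ‖(⟨φ, p1.1⟩ : U) - ⟨ψ, p2.1⟩‖ := by
    rw [Submodule.coe_norm]
    exact norm_le_pi_norm (φ - ψ) i
  have h9 : 0 ≤ Real.pi / 2 * (1 / 2 : ℝ) ^ b := by positivity
  linarith

end Pool.MPbe0380.Gb
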