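import Pool.Agent.Lib.MP_be0380_co.G.Fx
import Pool.Agent.Lib.MP_be0380_co.G.Base
import Pool.Agent.Lib.MP_be0380_co.E.Edge

/-!
# be0380, Section 5 (levels beta2): parameters and typical pairs

Everything is a power of one natural number `B`, about `K^(1/34560000000)`; `b_0 = B^2400`,
`rho_0 = B^(-240)`.
-/

set_option autoImplicit false

open Finset

namespace Pool.MPbe0380.Gb

/-- `w = K^(1/4800)`, the number of chips -/
def w5 (B : ℕ) : ℕ := B ^ 7200000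

/-- `kap5 ^ 4 ≥ k1 = K^(-1/300)` -/
noncomputable def kap5 (B : ℕ) : ℝ := 1 / (B : ℝ) ^ 28800000

/-- `eps = 2 w^2 k1^(1/4)` -/
noncomputable def eps5 (B : ℕ) : ℝ := 2 / (B : ℝ) ^ 14400000

/-- `e0` -/
noncomputable def e05 (B : ℕ) : ℝ := 1 / (B : ℝ) ^ 1440000

/-- `e1 = K^(-c6)` -/
noncomputable def e15 (B : ℕ) : ℝ := 1 / (B : ℝ) ^ 72000

/-- `M = K^s0` -/
noncomputable def M5 (B : ℕ) : ℝ := (B : ℝ) ^ 720

/-- `rho_0 = b_0^(-1/10)` -/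
noncomputable def rho5 (B : ℕ) : ℝ := 1 / (B : ℝ) ^ 240

variable {p : ℕ} [Fact p.Prime]

/-- the numerical facts about a level (beta2) used in Section 5; `Num.lean` proves them for `k` large -/
structure Num5 (v : BLev p) (B : ℕ) : Prop where
  B_ge : 1000 ≤ B
  L_le : v.L ≤ 1 / (B : ℝ) ^ 34000000000
  n_le : (v.A.card : ℝ) ≤ (B : ℝ) ^ 4 * v.D ^ 2
  D_big : (B : ℝ) ^ 1000000000 ≤ v.D
  w_le : 3 * (B : ℝ) ^ 7200000 ≤ Real.log p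
  small : Real.exp (-(B : ℝ) ^ 30) * (B : ℝ) ^ 240 ≤ v.L

open Classical in
/-- `G_1` -/
noncomputable def G15 (v : BLev p) (B : ℕ) : Finset (ZMod p) :=
  v.supp.filter (fun x => v.E (fun l => u x l ^ 2) ≤ kap5 B ^ 4 * v.L)

open Classical in
/-- `X(t)` for `x` -/
noncomputable def X5 (v : BLev p) (t : ℝ) (x : ZMod p) : Finset (ZMod p) :=
  v.A.filter (fun c => v.t x c ≤ t)

open Classical in
/-- `(x, y)` is typical; `good5` is this for `(x, y)` and for `(y, x)` -/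
structure Typ (v : BLev p) (B : ℕ) (t : ℝ) (x y : ZMod p) : Prop where
  T0 : ((X5 v (7 / 10) x).card : ℝ) ≤ (B : ℝ) ^ 360 * v.D
  T1 : |v.f x y| ≤ 2 * kap5 B ^ 2
  T2 : ∀ g : ℝ, 4 * kap5 B ^ 2 ≤ g → g ≤ 1 →
    ((v.A.filter (fun c => g ≤ |v.f x c| ∧ g ≤ |v.f y c|)).card : ℝ) ≤ M5 B / g ^ 4
  T3 : ∀ r g : ℝ, 2 * eps5 B ≤ r → r ≤ 7 / 10 → 8 * kap5 B ^ 2 ≤ g → g ≤ 1 →
    ((v.A.filter (fun c => v.t y c ≤ r ∧ g ≤ |v.f x c|)).card : ℝ) ≤ M5 B * r / g ^ 2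
  Sh : ((v.A.filter (fun c => t - 3 * e15 B < v.t x c ∧ v.t x c ≤ t)).card : ℝ) ≤
    v.D / (B : ℝ) ^ 70000

/-- `x` has a base -/
def HasBase5 (v : BLev p) (B : ℕ) (t : ℝ) (x : ZMod p) : Prop :=
  ∃ F : Setoid (ZMod p), v.cost F * ((B : ℝ) ^ 2400) ^ 9 ≤ v.D ∧
    ∀ c ∈ X5 v t x, ∀ c' ∈ X5 v t x, Lev.N F (c - c') ≤ (1 / 2 : ℝ) ^ (B ^ 2400)

theorem G15_sub (v : BLev p) (B : ℕ) : G15 v B ⊆ v.supp := filter_subset _ _

theorem E_le_of_mem_G15 {v : BLev p} {B : ℕ} {x : ZMod p} (hx : x ∈ G15 v B) :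
    v.E (fun l => u x l ^ 2) ≤ kap5 B ^ 4 * v.L := (mem_filter.mp hx).2

theorem mem_A_of_supp {v : BLev p} {x : ZMod p} (hx : x ∈ v.supp) : x ∈ v.A := by
  unfold Lev.supp at hx
  exact (mem_filter.mp hx).1

theorem mem_X5 {v : BLev p} {t : ℝ} {x c : ZMod p} : c ∈ X5 v t x ↔ c ∈ v.A ∧ v.t x c ≤ t := by
  unfold X5
  exact mem_filter

end Pool.MPbe0380.Gb
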