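import Pool.Agent.Lib.MP_be0380_co.T5.Defs
import Pool.Agent.Lib.MP_be0380_co.G.Four
import Pool.Agent.Lib.MP_be0380_co.G.Cond

/-!
# be0380, module T5.Num: the numerical facts for k large

N := 34560000000, K = 2^k, B := floor(K^(1/N)), n = card A, m = K sqrt n (BLev.m_eq), D = m L.
K large: B >= 1000 and more (B >= any constant), k <= B (k = log_2 K <= N log_2(B + 1)), B^N <= K < (B+1)^N <= B^(2N).
k1 <= kap^4: K^(-1/300) <= B^(-N/300) = B^(-115200000) = kap^4.
L_le: L = D/m < K^(1/100)/K = K^(-99/100) <= B^(-34214400000) <= 1/B^34000000000.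
n_le: sqrt n/k^2 < D (BLev.bad; note that v.D is (sum J) L), so n <= k^4 D^2 <= B^4 D^2.
n large: K <= 4 sqrt n log p (BLev.K_le) and log p <= log 9 * n (card_ge) <= 3 n give K <= 12 n^(3/2) <= 12 (sqrt n)^3, sqrt n >= (K/12)^(1/3) >= K^(1/4).
D_big: D > sqrt n/k^2 >= K^(1/4)/B^2 >= B^(N/4 - 2) >= B^1000000000.
w_le: log p >= ent (om) >= D (Lev.pd; ent of a law on ZMod p is <= log p, e.g. ent_le with Q = 1/p) >= B^1000000000 >= 3 B^7200000.
small: L > sqrt n/(k^2 m) = 1/(k^2 K) >= 1/(B^2 B^(2N)), and exp(-B^30) B^240 B^(2N+2) <= 1 because B^30 >= (2N + 242) log B (B >= 1000).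
-/

set_option autoImplicit false

open Finset

namespace Pool.MPbe0380.Gb

variable {p : ℕ} [Fact p.Prime]

private theorem ev_k (e : ℝ) (he : 0 < e) : ∃ k0 : ℕ, ∀ k : ℕ, k0 ≤ k →
    (k : ℝ) ≤ ((2 : ℝ) ^ k) ^ e := by
  have hr0 : (0 : ℝ) < (2 : ℝ) ^ (-e) := by positivity
  have hr1 : (2 : ℝ) ^ (-e) < 1 :=
    Real.rpow_lt_one_of_one_lt_of_neg (by norm_num) (by linarith)
  have h := tendsto_self_mul_const_pow_of_lt_one hr0.le hr1
  have h2 := h.eventually_lt_const (show (0 : ℝ) < 1 by norm_num)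
  obtain ⟨k0, hk0⟩ := Filter.eventually_atTop.mp h2
  refine ⟨k0, fun k hk => ?_⟩
  have h3 := hk0 k hk
  have h4 : ((2 : ℝ) ^ (-e)) ^ k * ((2 : ℝ) ^ k) ^ e = 1 := by
    rw [← Real.rpow_natCast, ← Real.rpow_natCast, ← Real.rpow_mul (by norm_num),
      ← Real.rpow_mul (by norm_num), ← Real.rpow_add (by norm_num)]
    rw [show -e * (k : ℝ) + (k : ℝ) * e = 0 by ring, Real.rpow_zero]
  have h5 : 0 < ((2 : ℝ) ^ k) ^ e := by positivity
  have h6 : (k : ℝ) * (((2 : ℝ) ^ (-e)) ^ k * ((2 : ℝ) ^ k) ^ e) ≤ ((2 : ℝ) ^ k) ^ e := by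
    calc (k : ℝ) * (((2 : ℝ) ^ (-e)) ^ k * ((2 : ℝ) ^ k) ^ e)
        = ((k : ℝ) * ((2 : ℝ) ^ (-e)) ^ k) * ((2 : ℝ) ^ k) ^ e := by ring
      _ ≤ 1 * ((2 : ℝ) ^ k) ^ e := mul_le_mul_of_nonneg_right h3.le h5.le
      _ = _ := one_mul _
  rw [h4, mul_one] at h6
  exact h6

private theorem pow_le_of_log {b x : ℝ} (hb : 0 < b) (hx : 0 < x) (c : ℕ)
    (h : (c : ℝ) * Real.log b ≤ Real.log x) : b ^ c ≤ x := by
  rw [← Real.log_le_log_iff (pow_pos hb c) hx, Real.log_pow]
  exact h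

private theorem le_inv_of_log {b x : ℝ} (hb : 0 < b) (hx : 0 < x) (c : ℕ)
    (h : Real.log x ≤ - ((c : ℝ) * Real.log b)) : x ≤ 1 / b ^ c := by
  have hbc := pow_pos hb c
  rw [← Real.log_le_log_iff hx (by positivity), one_div, Real.log_inv, Real.log_pow]
  exact h

private theorem ent_om_le (I : ZMod p → ℝ) : ent (om I) ≤ Real.log p := by
  have hp : (0 : ℝ) < p := by exact_mod_cast (Fact.out : p.Prime).pos
  have h := ent_le (isLaw_om I) (Q := fun _ => 1 / (p : ℝ)) (fun _ => by positivity) (by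
    rw [sum_const, card_univ, ZMod.card, nsmul_eq_mul]
    exact (mul_one_div_cancel hp.ne').le)
  rw [← sum_mul, (isLaw_om I).2, one_mul, one_div, Real.log_inv, neg_neg] at h
  exact h

theorem num5 : ∃ k2 : ℕ, ∀ (p : ℕ) [Fact p.Prime] (v : BLev p), k2 ≤ v.k →
    v.D < ((2 : ℝ) ^ v.k) ^ (1 / 100 : ℝ) * √(v.A.card : ℝ) →
    ∃ B : ℕ, Num5 v B ∧ ((2 : ℝ) ^ v.k) ^ (-1 / 300 : ℝ) ≤ kap5 B ^ 4 := by
  obtain ⟨k0, hk0⟩ := ev_k (1 / 34560000000) (by norm_num)
  refine ⟨k0 + 1000, fun p _ v hk hD => ?_⟩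
  have hkx := hk0 v.k (by omega)
  have hk1000 : 1000 ≤ v.k := by omega
  set K : ℝ := (2 : ℝ) ^ v.k with hK
  have hKpos : 0 < K := by positivity
  set x : ℝ := K ^ (1 / 34560000000 : ℝ) with hx
  have hxpos : 0 < x := by positivity
  have hkB : v.k ≤ ⌊x⌋₊ := Nat.le_floor hkx
  set B : ℕ := ⌊x⌋₊ with hB
  have hB1000 : 1000 ≤ B := hk1000.trans hkB
  have hb : (1000 : ℝ) ≤ B := by exact_mod_cast hB1000
  have hbx : (B : ℝ) ≤ x := Nat.floor_le hxpos.le
  have hxb : x < B + 1 := Nat.lt_floor_add_one x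
  have hkb : (v.k : ℝ) ≤ B := by exact_mod_cast hkB
  have hkpos : (0 : ℝ) < v.k := by exact_mod_cast (by omega : 0 < v.k)
  set b : ℝ := (B : ℝ) with hbdef
  have hb0 : 0 < b := by linarith
  set β := Real.log b with hβ
  set κ := Real.log K with hκ
  have hlogx : Real.log x = (1 / 34560000000 : ℝ) * κ := by rw [hx, Real.log_rpow hKpos]
  have hβ1 : 1 ≤ β := by
    rw [hβ, Real.le_log_iff_exp_le hb0]
    have := Real.exp_one_lt_d9
    linarith
  have hβb : β ≤ b := (Real.log_le_sub_one_of_pos hb0).trans (by linarith)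
  have hNβ : 34560000000 * β ≤ κ := by
    have h := Real.log_le_log hb0 hbx
    rw [hlogx] at h
    linarith
  have hκβ : κ ≤ 69120000000 * β := by
    have h := Real.log_le_log hxpos hxb.le
    have h2 : Real.log (b + 1) ≤ Real.log (b ^ 2) := Real.log_le_log (by linarith) (by nlinarith)
    rw [Real.log_pow] at h2
    rw [hlogx] at h
    push_cast at h2
    linarith
  -- the level
  have hn2 : (2 : ℝ) ≤ v.A.card := by exact_mod_cast v.two_le
  set n : ℝ := (v.A.card : ℝ) with hn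
  have hs0 : 0 < √n := Real.sqrt_pos.mpr (by linarith)
  set s := √n with hs
  have hss : s ^ 2 = n := Real.sq_sqrt (by linarith)
  have hm : v.m = K * s := v.m_eq
  have hLpos := v.L_pos
  have hDeq : v.D = K * s * v.L := by unfold Lev.D; rw [hm]
  have hDpos : 0 < v.D := by rw [hDeq]; positivity
  have hbad : s / (v.k : ℝ) ^ 2 < v.D := v.bad
  have hp3 : 3 ≤ p := v.p_odd
  have hlogp : Real.log p ≤ 8 * n := by
    have h := card_ge v.p_odd v.A v.nus v.two_le
    have h9 : Real.log 9 ≤ 8 := (Real.log_le_sub_one_of_pos (by norm_num)).trans (by norm_num)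
    have : Real.log 9 * (v.A.card : ℝ) ≤ 8 * v.A.card := by
      exact mul_le_mul_of_nonneg_right h9 (by positivity)
    linarith
  have hKle : K ≤ 4 * s * Real.log p := v.K_le
  have hK32 : K ≤ 32 * s ^ 3 := by
    have : 4 * s * Real.log p ≤ 4 * s * (8 * n) :=
      mul_le_mul_of_nonneg_left hlogp (by positivity)
    rw [← hss] at this
    nlinarith
  have hκs : κ ≤ 31 + 3 * Real.log s := by
    have h := Real.log_le_log hKpos hK32
    rw [Real.log_mul (by norm_num) (by positivity), Real.log_pow s 3] at h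
    have h32 : Real.log 32 ≤ 31 := (Real.log_le_sub_one_of_pos (by norm_num)).trans (by norm_num)
    push_cast at h
    linarith
  have hlogk : Real.log v.k ≤ β := Real.log_le_log hkpos hkb
  have hlogD : Real.log s - 2 * Real.log v.k ≤ Real.log v.D := by
    have h := Real.log_le_log (by positivity) hbad.le
    rw [Real.log_div hs0.ne' (by positivity), Real.log_pow (v.k : ℝ) 2] at h
    push_cast at h
    exact h
  have hlogL : Real.log v.D = κ + Real.log s + Real.log v.L := by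
    rw [hDeq, Real.log_mul (by positivity) hLpos.ne', Real.log_mul hKpos.ne' hs0.ne']
  have hlogL2 : Real.log v.L ≤ -(99 / 100) * κ := by
    have h := Real.log_le_log hDpos hD.le
    rw [Real.log_mul (by positivity) hs0.ne', Real.log_rpow hKpos, hlogL] at h
    linarith
  have hDbig : b ^ 1000000000 ≤ v.D := by
    refine pow_le_of_log hb0 hDpos _ ?_
    push_cast
    linarith
  refine ⟨B, ⟨hB1000, ?_, ?_, hDbig, ?_, ?_⟩, ?_⟩
  · refine le_inv_of_log hb0 hLpos _ ?_
    push_cast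
    linarith
  · show n ≤ b ^ 4 * v.D ^ 2
    have h1 : s < v.D * (v.k : ℝ) ^ 2 := (div_lt_iff₀ (by positivity)).mp hbad
    have h2 : (v.k : ℝ) ^ 2 ≤ b ^ 2 := pow_le_pow_left₀ hkpos.le hkb 2
    have h3 : s ≤ v.D * b ^ 2 := h1.le.trans (mul_le_mul_of_nonneg_left h2 hDpos.le)
    calc n = s ^ 2 := hss.symm
      _ ≤ (v.D * b ^ 2) ^ 2 := pow_le_pow_left₀ hs0.le h3 2
      _ = b ^ 4 * v.D ^ 2 := by ring
  · have h1 : v.D ≤ Real.log p := (Lev.pd v.toLev).trans (ent_om_le _)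
    have h2 : 3 * b ^ 7200000 ≤ b ^ 7200001 := by
      rw [pow_succ, mul_comm]
      exact mul_le_mul_of_nonneg_left (by linarith) (by positivity)
    have h3 : b ^ 7200001 ≤ b ^ 1000000000 := pow_le_pow_right₀ (by linarith) (by norm_num)
    exact h2.trans (h3.trans (hDbig.trans h1))
  · show Real.exp (-b ^ 30) * b ^ 240 ≤ v.L
    rw [← Real.log_le_log_iff (by positivity) hLpos,
      Real.log_mul (Real.exp_pos _).ne' (by positivity), Real.log_exp, Real.log_pow]
    have h1 : b ^ 5 ≤ b ^ 30 := pow_le_pow_right₀ (by linarith) (by norm_num)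
    have h2 : (1000 : ℝ) ^ 4 * b ≤ b ^ 5 := by
      have : (1000 : ℝ) ^ 4 ≤ b ^ 4 := pow_le_pow_left₀ (by norm_num) hb 4
      calc (1000 : ℝ) ^ 4 * b ≤ b ^ 4 * b := mul_le_mul_of_nonneg_right this hb0.le
        _ = b ^ 5 := by ring
    push_cast
    norm_num at h2
    linarith
  · have h : K ^ (-1 / 300 : ℝ) ≤ 1 / b ^ 115200000 := by
      refine le_inv_of_log hb0 (by positivity) _ ?_
      rw [Real.log_rpow hKpos]
      push_cast
      linarith
    refine h.trans (le_of_eq ?_)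
    unfold kap5
    rw [div_pow, one_pow, ← pow_mul]

end Pool.MPbe0380.Gb
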