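import Pool.Agent.Lib.MP_be0380_co.T5.Defs

/-!
# be0380, module T5.Wc = (5.2), (T3)

y in G_1 fixed, card X(7/10)(y) <= h := B^360 D. For r', g' > 0, r' <= 7/10 put BAD(r',g')(x) = {c in X(r')(y) : |E s_x(s_c - s_y)| >= g' L}.
(1) E (s_c - s_y)^2 <= E |e_c - e_y|^2 = 2 E u_(c-y) <= 4 L t_y(c) <= 4 L r' (Lev.dist_sq_le for y; norm_e_sub), so for each c in X(r')(y) the weight
    of {x : |E s_x(s_c - s_y)| >= g' L} is <= 4 L r'/(g' L)^2 = 4 r'/(g'^2 L) (Lev.weight_g), and sum_x J_x card BAD(r',g')(x) <= 4 h r'/(g'^2 L).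
(2) Let |f_x(y)| <= 2 kap^2, 2 eps <= r <= 7/10, 8 kap^2 <= g <= 1, t_y(c) <= r, |f_x(c)| >= g. Then |f_x(c) - f_x(y)| >= 3g/4, and
    |E u_x(u_c - u_y)|/(2L) <= (E u_x^2)^(1/2) (4 L r)^(1/2)/(2L) <= kap^2 r^(1/2) <= g/8 (x in G_1; E(u_c - u_y)^2 <= E|e_c - e_y|^2), so
    |E s_x(s_c - s_y)|/(2L) >= 3g/4 - g/8 >= g/2: |E s_x(s_c - s_y)| >= g L.
(3) Dyadic: choose r' = (7/10) 2^(-j), r'/2 < r <= r', and g' = 2^(-i), g' <= g < 2 g'. The set of (T3) for (r, g) is contained in BAD(r',g'), and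
    M r/g^2 >= M r'/(8 g'^2). Markov: the weight of x with card BAD(r',g')(x) > M r'/(8 g'^2) is <= 32 h/(M L) = 32 m/B^360.
    r' >= 2 eps = 4/B^14400000, g' >= g/2 >= 4/B^57600000: at most (10^8 B)^2 pairs (i,j). Total <= 32 (10^8 B)^2 m/B^360 <= m/1000.
-/

set_option autoImplicit false

open Finset

namespace Pool.MPbe0380.Gb

variable {p : ℕ} [Fact p.Prime]

private theorem wc_E_nonneg (v : BLev p) {f : ZMod p → ℝ} (h : ∀ l, 0 ≤ f l) : 0 ≤ v.E f :=
  sum_nonneg fun l _ => mul_nonneg (om_pos v.I l).le (h l)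

private theorem wc_sq (v : BLev p) {y : ZMod p} (hy : y ∈ v.supp) {c : ZMod p} (hc : c ∈ v.A) :
    v.E (fun l => (u c l - u y l) ^ 2) + v.E (fun l => (s c l - s y l) ^ 2) ≤
      4 * v.L * v.t y c := by
  have hL : 0 < v.L := v.L_pos
  have h1 : v.E (fun l => (u c l - u y l) ^ 2) + v.E (fun l => (s c l - s y l) ^ 2) =
      2 * v.E (u (c - y)) := by
    simp only [Lev.E, Ex]
    rw [mul_sum, ← sum_add_distrib]
    refine sum_congr rfl fun l _ => ?_
    have h5 : u (c - y) l = u c l + u y l - u c l * u y l - s c l * s y l := by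
      rw [sub_eq_add_neg, u_add, u_neg, s_neg]; ring
    have h6 := s_sq c l
    have h7 := s_sq y l
    rw [h5]
    linear_combination (om v.I l) * h6 + (om v.I l) * h7
  have h2 := Lev.dist_sq_le v.toLev hy hc
  have h3 : 0 ≤ v.E (u (c - y)) := wc_E_nonneg v fun l => u_nonneg _ _
  unfold Lev.dist at h2
  rw [Real.sq_sqrt (div_nonneg h3 hL.le), div_le_iff₀ hL] at h2
  rw [h1]
  linarith

private theorem wc_cs (v : BLev p) (f g : ZMod p → ℝ) :
    v.E (fun l => f l * g l) ^ 2 ≤ v.E (fun l => f l ^ 2) * v.E (fun l => g l ^ 2) := by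
  simp only [Lev.E, Ex]
  have h := sum_mul_sq_le_sq_mul_sq univ (fun l => √(om v.I l) * f l) (fun l => √(om v.I l) * g l)
  have e : ∀ l, √(om v.I l) * √(om v.I l) = om v.I l := fun l =>
    Real.mul_self_sqrt (om_pos v.I l).le
  have e1 : ∑ l, √(om v.I l) * f l * (√(om v.I l) * g l) = ∑ l, om v.I l * (f l * g l) := by
    refine sum_congr rfl fun l _ => ?_
    linear_combination (f l * g l) * e l
  have e2 : ∀ k : ZMod p → ℝ, ∑ l, (√(om v.I l) * k l) ^ 2 = ∑ l, om v.I l * k l ^ 2 := by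
    intro k
    refine sum_congr rfl fun l _ => ?_
    linear_combination (k l ^ 2) * e l
  rw [e1, e2, e2] at h
  exact h

/-- claim (2) -/
private theorem wc_two (v : BLev p) {B : ℕ} {x y c : ZMod p} (hx : x ∈ G15 v B) (hy : y ∈ v.supp)
    (hc : c ∈ v.A) {r g : ℝ} (hf : |v.f x y| ≤ 2 * kap5 B ^ 2) (hr : r ≤ 7 / 10)
    (hg : 8 * kap5 B ^ 2 ≤ g) (ht : v.t y c ≤ r) (hfc : g ≤ |v.f x c|) :
    g * v.L ≤ |v.E (fun l => s x l * (s c l - s y l))| := by
  have hL : 0 < v.L := v.L_pos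
  set k := kap5 B ^ 2 with hk
  have hk0 : 0 ≤ k := sq_nonneg _
  have hE := E_le_of_mem_G15 hx
  have hE' : v.E (fun l => u x l ^ 2) ≤ k ^ 2 * v.L := by
    rw [hk]
    calc v.E (fun l => u x l ^ 2) ≤ kap5 B ^ 4 * v.L := hE
      _ = (kap5 B ^ 2) ^ 2 * v.L := by ring
  have h1 := wc_sq v hy hc
  have hs0 : 0 ≤ v.E (fun l => (s c l - s y l) ^ 2) := wc_E_nonneg v fun l => sq_nonneg _
  have hu0 : 0 ≤ v.E (fun l => (u c l - u y l) ^ 2) := wc_E_nonneg v fun l => sq_nonneg _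
  have h2 : v.E (fun l => (u c l - u y l) ^ 2) ≤ 4 * v.L := by
    have : 4 * v.L * v.t y c ≤ 4 * v.L * 1 :=
      mul_le_mul_of_nonneg_left (by linarith) (by positivity)
    linarith
  have h3 := wc_cs v (u x) (fun l => u c l - u y l)
  have h4 : v.E (fun l => u x l * (u c l - u y l)) ^ 2 ≤ (2 * k * v.L) ^ 2 := by
    refine h3.trans ((mul_le_mul hE' h2 hu0 (by positivity)).trans (le_of_eq ?_))
    ring
  have h5 : |v.E (fun l => u x l * (u c l - u y l))| ≤ 2 * k * v.L :=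
    abs_le_of_sq_le_sq h4 (by positivity)
  have h6 : 2 * v.L * (v.f x c - v.f x y) =
      v.E (fun l => u x l * (u c l - u y l)) + v.E (fun l => s x l * (s c l - s y l)) := by
    have e1 : v.E (fun l => u x l * (u c l - u y l)) =
        v.E (fun l => u x l * u c l) - v.E (fun l => u x l * u y l) := by
      simp only [Lev.E, Ex]
      rw [← sum_sub_distrib]
      exact sum_congr rfl fun l _ => by ring
    have e2 : v.E (fun l => s x l * (s c l - s y l)) =
        v.E (fun l => s x l * s c l) - v.E (fun l => s x l * s y l) := by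
      simp only [Lev.E, Ex]
      rw [← sum_sub_distrib]
      exact sum_congr rfl fun l _ => by ring
    rw [e1, e2]
    unfold Lev.f
    field_simp
    ring
  have h7 : 3 / 4 * g ≤ |v.f x c - v.f x y| := by
    have := abs_sub_abs_le_abs_sub (v.f x c) (v.f x y)
    linarith
  have h8 : 2 * v.L * |v.f x c - v.f x y| ≤ |v.E (fun l => u x l * (u c l - u y l))| +
      |v.E (fun l => s x l * (s c l - s y l))| := by
    rw [← abs_of_pos (by positivity : 0 < 2 * v.L), ← abs_mul, h6]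
    exact abs_add_le _ _
  have h9 : 2 * v.L * (3 / 4 * g) ≤ 2 * v.L * |v.f x c - v.f x y| :=
    mul_le_mul_of_nonneg_left h7 (by positivity)
  have h10 : 2 * k * v.L ≤ 2 * (g / 8) * v.L := by
    apply mul_le_mul_of_nonneg_right _ hL.le
    linarith
  have h11 : 0 ≤ g * v.L := mul_nonneg (by linarith) hL.le
  linarith

open Classical in
/-- claim (1) and Markov -/
private theorem wc_one (v : BLev p) {y : ZMod p} (hy : y ∈ v.supp) {h r g τ : ℝ} (hr : 0 < r)
    (hr7 : r ≤ 7 / 10) (hg : 0 < g) (hτ : 0 < τ) (h0 : ((X5 v (7 / 10) y).card : ℝ) ≤ h)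
    (T : Finset (ZMod p)) (hT : ∀ x ∈ T, τ ≤ ((v.A.filter (fun c => v.t y c ≤ r ∧
      g * v.L ≤ |v.E (fun l => s x l * (s c l - s y l))|)).card : ℝ)) :
    ∑ x ∈ T, v.J x ≤ h * (4 * r / (g ^ 2 * v.L)) / τ := by
  have hL : 0 < v.L := v.L_pos
  rw [le_div_iff₀ hτ, sum_mul]
  have hX : ((X5 v r y).card : ℝ) ≤ h := by
    refine le_trans ?_ h0
    have : X5 v r y ⊆ X5 v (7 / 10) y := by
      intro c hc
      rw [mem_X5] at hc ⊢
      exact ⟨hc.1, hc.2.trans hr7⟩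
    exact_mod_cast card_le_card this
  calc ∑ x ∈ T, v.J x * τ
      ≤ ∑ x ∈ T, ∑ c ∈ X5 v r y, (if g * v.L ≤ |v.E (fun l => s x l * (s c l - s y l))| then
          v.J x else 0) := by
        refine sum_le_sum fun x hx => ?_
        refine (mul_le_mul_of_nonneg_left (hT x hx) (v.J_nonneg x)).trans (le_of_eq ?_)
        rw [← sum_filter, sum_const, nsmul_eq_mul, mul_comm]
        congr 2
        unfold X5
        rw [filter_filter]
    _ = ∑ c ∈ X5 v r y, ∑ x ∈ T.filter (fun x => g * v.L ≤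
          |v.E (fun l => s x l * (s c l - s y l))|), v.J x := by
        rw [sum_comm]
        refine sum_congr rfl fun c _ => ?_
        rw [← sum_filter]
    _ ≤ ∑ c ∈ X5 v r y, 4 * r / (g ^ 2 * v.L) := by
        refine sum_le_sum fun c hc => ?_
        rw [mem_X5] at hc
        have h1 := Lev.weight_g v.toLev (fun l => s c l - s y l) hg
          (T.filter (fun x => g * v.L ≤ |v.E (fun l => s x l * (s c l - s y l))|))
          (fun x hx => (mem_filter.mp hx).2)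
        refine h1.trans ?_
        have h2 := wc_sq v hy hc.1
        have hu0 : 0 ≤ v.E (fun l => (u c l - u y l) ^ 2) := wc_E_nonneg v fun l => sq_nonneg _
        have h3 : 4 * v.L * v.t y c ≤ 4 * v.L * r :=
          mul_le_mul_of_nonneg_left hc.2 (by positivity)
        rw [div_le_div_iff₀ (by positivity) (by positivity)]
        have h4 : v.E (fun l => (s c l - s y l) ^ 2) ≤ 4 * v.L * r := by linarith
        have h5 := mul_le_mul_of_nonneg_right h4 (by positivity : 0 ≤ g ^ 2 * v.L)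
        calc v.E (fun l => (s c l - s y l) ^ 2) * (g ^ 2 * v.L) ≤ 4 * v.L * r * (g ^ 2 * v.L) := h5
          _ = 4 * r * (g * v.L) ^ 2 := by ring
    _ = (X5 v r y).card * (4 * r / (g ^ 2 * v.L)) := by rw [sum_const, nsmul_eq_mul]
    _ ≤ h * (4 * r / (g ^ 2 * v.L)) := mul_le_mul_of_nonneg_right hX (by positivity)

private theorem wc_real {M r rj g gi : ℝ} (hM : 0 ≤ M) (hr : 0 ≤ r) (hg : 0 < g) (hgi : 0 < gi)
    (h1 : rj ≤ 2 * r) (h2 : g ≤ 2 * gi) : M * rj / (8 * gi ^ 2) ≤ M * r / g ^ 2 := by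
  rw [div_le_div_iff₀ (by positivity) (by positivity)]
  have h3 : g ^ 2 ≤ 4 * gi ^ 2 := by nlinarith
  have h4 : M * rj * g ^ 2 ≤ M * (2 * r) * g ^ 2 :=
    mul_le_mul_of_nonneg_right (mul_le_mul_of_nonneg_left h1 hM) (by positivity)
  have h5 : M * (2 * r) * g ^ 2 ≤ M * (2 * r) * (4 * gi ^ 2) :=
    mul_le_mul_of_nonneg_left h3 (by positivity)
  linarith

private theorem wc_exp {B i N : ℕ} (h : (2 : ℝ) ^ i ≤ (B : ℝ) ^ N) : i ≤ B * N := by
  have h1 : (B : ℝ) ≤ 2 ^ B := by exact_mod_cast Nat.lt_two_pow_self.le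
  have h2 : (B : ℝ) ^ N ≤ (2 ^ B) ^ N := pow_le_pow_left₀ (Nat.cast_nonneg B) h1 N
  rw [← pow_mul] at h2
  exact (pow_le_pow_iff_right₀ (by norm_num : (1 : ℝ) < 2)).mp (h.trans h2)

private theorem wc_num {B : ℕ} (hB : 1000 ≤ B) :
    32 * (10 ^ 8 * (B : ℝ)) ^ 2 * 1000 ≤ (B : ℝ) ^ 360 := by
  have h1 : (1000 : ℝ) ≤ B := by exact_mod_cast hB
  have h2 : (B : ℝ) ^ 9 ≤ (B : ℝ) ^ 360 := pow_le_pow_right₀ (by linarith) (by norm_num)
  have h3 : (1000 : ℝ) ^ 7 ≤ (B : ℝ) ^ 7 := pow_le_pow_left₀ (by norm_num) h1 7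
  have h4 : (B : ℝ) ^ 9 = B ^ 7 * B ^ 2 := by ring
  have h5 : (1000 : ℝ) ^ 7 * (B : ℝ) ^ 2 ≤ B ^ 7 * B ^ 2 :=
    mul_le_mul_of_nonneg_right h3 (by positivity)
  have h6 : 32 * (10 ^ 8 * (B : ℝ)) ^ 2 * 1000 = 320000000000000000000 * (B : ℝ) ^ 2 := by ring
  rw [h6]
  have h7 : (320000000000000000000 : ℝ) * (B : ℝ) ^ 2 ≤ 1000 ^ 7 * (B : ℝ) ^ 2 :=
    mul_le_mul_of_nonneg_right (by norm_num) (by positivity)
  linarith

private theorem wc_sum {α ι : Type*} [DecidableEq α] (S : Finset α) (I : Finset ι) (P : ι → α → Prop)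
    [∀ i, DecidablePred (P i)] (f : α → ℝ) (hf : ∀ x, 0 ≤ f x) (hS : ∀ x ∈ S, ∃ i ∈ I, P i x)
    (C : ℝ) (hC : ∀ i ∈ I, ∑ x ∈ S.filter (P i), f x ≤ C) : ∑ x ∈ S, f x ≤ I.card * C := by
  calc ∑ x ∈ S, f x ≤ ∑ x ∈ S, ∑ i ∈ I, (if P i x then f x else 0) := by
        refine sum_le_sum fun x hx => ?_
        obtain ⟨i, hi, hP⟩ := hS x hx
        have h1 := single_le_sum (f := fun i => if P i x then f x else 0)
          (fun j _ => by
            show 0 ≤ if P j x then f x else 0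
            split_ifs
            · exact hf x
            · exact le_rfl) hi
        simp only [if_pos hP] at h1
        exact h1
    _ = ∑ i ∈ I, ∑ x ∈ S.filter (P i), f x := by
        rw [sum_comm]
        refine sum_congr rfl fun i _ => ?_
        rw [← sum_filter]
    _ ≤ ∑ _i ∈ I, C := sum_le_sum hC
    _ = I.card * C := by rw [sum_const, nsmul_eq_mul]

open Classical in
theorem T3_weight (v : BLev p) {B : ℕ} (hN : Num5 v B) {y : ZMod p} (hy : y ∈ G15 v B)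
    (h0 : ((X5 v (7 / 10) y).card : ℝ) ≤ (B : ℝ) ^ 360 * v.D) :
    ∑ x ∈ (G15 v B).filter (fun x => |v.f x y| ≤ 2 * kap5 B ^ 2 ∧
      ¬ ∀ r g : ℝ, 2 * eps5 B ≤ r → r ≤ 7 / 10 → 8 * kap5 B ^ 2 ≤ g → g ≤ 1 →
        ((v.A.filter (fun c => v.t y c ≤ r ∧ g ≤ |v.f x c|)).card : ℝ) ≤ M5 B * r / g ^ 2), v.J x ≤
      v.m / 1000 := by
  have hL : 0 < v.L := v.L_pos
  have hB := hN.B_ge
  have hBr : (1000 : ℝ) ≤ B := by exact_mod_cast hB
  have hB0 : (0 : ℝ) < B := by linarith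
  have hys : y ∈ v.supp := G15_sub v B hy
  have hm : 0 < v.m := v.m_pos
  have hD : v.D = v.m * v.L := rfl
  have hM : 0 < M5 B := by
    unfold M5
    positivity
  have hk0 : 0 < kap5 B := by
    unfold kap5
    positivity
  have he0 : 0 < eps5 B := by
    unfold eps5
    positivity
  have hk1 : 1 / kap5 B ^ 2 = (B : ℝ) ^ 57600000 := by
    unfold kap5
    rw [div_pow, one_pow, one_div_one_div, ← pow_mul]
  have he1 : 2 / eps5 B = (B : ℝ) ^ 14400000 := by
    unfold eps5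
    field_simp
  set Q : ℕ × ℕ → ZMod p → Prop := fun e x =>
    M5 B * (7 / 10 * (1 / 2) ^ e.2) / (8 * ((1 / 2) ^ (e.1 + 1)) ^ 2) ≤
      ((v.A.filter (fun c => v.t y c ≤ 7 / 10 * (1 / 2) ^ e.2 ∧
        (1 / 2) ^ (e.1 + 1) * v.L ≤ |v.E (fun l => s x l * (s c l - s y l))|)).card : ℝ) with hQ
  have hmain := wc_sum (S := (G15 v B).filter (fun x => |v.f x y| ≤ 2 * kap5 B ^ 2 ∧
      ¬ ∀ r g : ℝ, 2 * eps5 B ≤ r → r ≤ 7 / 10 → 8 * kap5 B ^ 2 ≤ g → g ≤ 1 →
        ((v.A.filter (fun c => v.t y c ≤ r ∧ g ≤ |v.f x c|)).card : ℝ) ≤ M5 B * r / g ^ 2))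
    (I := range (B * 57600000 + 1) ×ˢ range (B * 14400000 + 1)) Q v.J v.J_nonneg ?_
    (32 * v.m / (B : ℝ) ^ 360) ?_
  · refine hmain.trans ?_
    rw [card_product, card_range, card_range]
    have h1 : (((B * 57600000 + 1) * (B * 14400000 + 1) : ℕ) : ℝ) ≤ (10 ^ 8 * (B : ℝ)) ^ 2 := by
      push_cast
      have e1 : (B : ℝ) * 57600000 + 1 ≤ 10 ^ 8 * B := by linarith
      have e2 : (B : ℝ) * 14400000 + 1 ≤ 10 ^ 8 * B := by linarith
      rw [sq]
      exact mul_le_mul e1 e2 (by positivity) (by positivity)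
    have h2 := wc_num hB
    have h3 : 0 ≤ 32 * v.m / (B : ℝ) ^ 360 := by positivity
    refine (mul_le_mul_of_nonneg_right h1 h3).trans ?_
    rw [mul_div_assoc', div_le_div_iff₀ (by positivity) (by norm_num)]
    have h4 := mul_le_mul_of_nonneg_left h2 hm.le
    linarith
  · intro x hx
    rw [mem_filter] at hx
    obtain ⟨hxG, hfy, hx3⟩ := hx
    push Not at hx3
    obtain ⟨r, g, hr1, hr2, hg1, hg2, hcard⟩ := hx3
    have hr0 : 0 < r := by linarith
    have hg0 : 0 < g := by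
      have : 0 < kap5 B ^ 2 := by positivity
      linarith
    obtain ⟨j, hj1, hj2⟩ := exists_nat_pow_near_of_lt_one (x := r / (7 / 10)) (y := (1 / 2 : ℝ))
      (by positivity) (by rw [div_le_one (by norm_num)]; exact hr2) (by norm_num) (by norm_num)
    obtain ⟨i, hi1, hi2⟩ := exists_nat_pow_near_of_lt_one (x := g) (y := (1 / 2 : ℝ))
      hg0 hg2 (by norm_num) (by norm_num)
    rw [lt_div_iff₀ (by norm_num)] at hj1
    rw [div_le_iff₀ (by norm_num)] at hj2
    have hpj : 0 < (1 / 2 : ℝ) ^ j := by positivity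
    have hpi : 0 < (1 / 2 : ℝ) ^ i := by positivity
    have hj2' : (1 / 2 : ℝ) ^ (j + 1) = (1 / 2) ^ j / 2 := by rw [pow_succ]; ring
    have hi2' : (1 / 2 : ℝ) ^ (i + 1) = (1 / 2) ^ i / 2 := by rw [pow_succ]; ring
    have hinv : ∀ n : ℕ, (1 / 2 : ℝ) ^ n * 2 ^ n = 1 := fun n => by
      rw [← mul_pow]
      norm_num
    refine ⟨(i, j), ?_, ?_⟩
    · rw [mem_product, mem_range, mem_range]
      constructor
      · apply Nat.lt_succ_of_le
        apply wc_exp
        rw [← hk1, le_div_iff₀ (by positivity)]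
        have h1 : kap5 B ^ 2 ≤ (1 / 2) ^ i := by
          have : 0 < kap5 B ^ 2 := by positivity
          linarith
        have h2 := mul_le_mul_of_nonneg_left h1 (by positivity : (0 : ℝ) ≤ 2 ^ i)
        linarith [hinv i]
      · apply Nat.lt_succ_of_le
        apply wc_exp
        rw [← he1, le_div_iff₀ he0]
        have h1 : eps5 B ≤ 2 * (1 / 2) ^ j := by
          linarith
        have h2 := mul_le_mul_of_nonneg_left h1 (by positivity : (0 : ℝ) ≤ 2 ^ j)
        linarith [hinv j]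
    · show M5 B * (7 / 10 * (1 / 2) ^ j) / (8 * ((1 / 2) ^ (i + 1)) ^ 2) ≤ _
      refine le_trans (le_trans ?_ hcard.le) ?_
      · exact wc_real hM.le hr0.le hg0 (by positivity) (by rw [hj2'] at hj1; linarith)
          (by rw [hi2']; linarith)
      · have hsub : (v.A.filter (fun c => v.t y c ≤ r ∧ g ≤ |v.f x c|)) ⊆
            v.A.filter (fun c => v.t y c ≤ 7 / 10 * (1 / 2) ^ j ∧
            (1 / 2) ^ (i + 1) * v.L ≤ |v.E (fun l => s x l * (s c l - s y l))|) := by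
          intro c hc
          rw [mem_filter] at hc ⊢
          refine ⟨hc.1, by linarith [hc.2.1], ?_⟩
          have h1 := wc_two v hxG hys hc.1 hfy hr2 hg1 hc.2.1 hc.2.2
          have h2 := mul_le_mul_of_nonneg_right hi1.le hL.le
          linarith
        exact_mod_cast card_le_card hsub
  · rintro ⟨i, j⟩ _
    have hpj : 0 < (1 / 2 : ℝ) ^ j := by positivity
    have hpj1 : (1 / 2 : ℝ) ^ j ≤ 1 := pow_le_one₀ (by norm_num) (by norm_num)
    have hpi : 0 < (1 / 2 : ℝ) ^ (i + 1) := by positivity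
    set rr := 7 / 10 * (1 / 2 : ℝ) ^ j with hrr
    set gg := (1 / 2 : ℝ) ^ (i + 1) with hgg
    have hr0 : 0 < rr := by positivity
    refine le_trans (wc_one v hys (r := rr) (g := gg) (τ := M5 B * rr / (8 * gg ^ 2)) hr0
      (by rw [hrr]; linarith) hpi (div_pos (mul_pos hM hr0) (by positivity)) h0 _ ?_) (le_of_eq ?_)
    · intro x hx
      exact (mem_filter.mp hx).2
    rw [hD]
    have hB3 : (B : ℝ) ^ 720 = (B : ℝ) ^ 360 * (B : ℝ) ^ 360 := by rw [← pow_add]
    unfold M5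
    rw [hB3]
    have hB4 : (0 : ℝ) < (B : ℝ) ^ 360 := by positivity
    generalize (B : ℝ) ^ 360 = b at hB4 ⊢
    have hgg0 : gg ≠ 0 := hpi.ne'
    have hrr0 : rr ≠ 0 := hr0.ne'
    field_simp
    ring


end Pool.MPbe0380.Gb
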